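import Pool.Agent.Work.MP_a2bf38_gt.Fu.Q.Rep
import Pool.Agent.Work.MP_a2bf38_gt.Fu.Q.Exh
import Pool.Agent.Work.MP_a2bf38_gt.Fu.W.EmbDefs
import Pool.Agent.Work.MP_a2bf38_gt.Fu.I.AbpLin
import Pool.Agent.Work.MP_a2bf38_gt.Fu.I.Sect

section

/-!
# The canonical bundle of an open set of a complex manifold: definitions

`e c` are charts of `M`.  The total space `P` of the canonical bundle has the charts `E c` with
values `(ξ, x)`, the point `ξ dx` over the point with the coordinates `x`.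
-/

open scoped ContDiff Topology
open Set MeasureTheory Filter Pool.Agent.ToricKRF Pool.Agent.ToricKRF.G Pool.Agent.KRFS
  Pool.Agent.KRFF Pool.Agent.KRFQ

namespace Pool.Agent.KRFKo

section Coord

variable {n : ℕ}

/-- the coordinate `ξ` of `(ξ, x)` -/
noncomputable def hd (y : Cn (n + 1)) : ℂ := ⟨y.1 0, y.2 0⟩

/-- the point `x` of `(ξ, x)` -/
def tl (y : Cn (n + 1)) : Cn n := (fun i => y.1 i.succ, fun i => y.2 i.succ)

/-- the point `(ξ, x)` -/
def jn (ξ : ℂ) (x : Cn n) : Cn (n + 1) := (Fin.cons ξ.re x.1, Fin.cons ξ.im x.2)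

@[simp] theorem hd_jn (ξ : ℂ) (x : Cn n) : hd (jn ξ x) = ξ := rfl

@[simp] theorem tl_jn (ξ : ℂ) (x : Cn n) : tl (jn ξ x) = x := rfl

@[simp] theorem jn_hd_tl (y : Cn (n + 1)) : jn (hd y) (tl y) = y := by
  refine Prod.ext ?_ ?_ <;> funext i <;> refine Fin.cases ?_ (fun j => ?_) i <;> rfl

theorem hd_add (y y' : Cn (n + 1)) : hd (y + y') = hd y + hd y' := rfl

theorem tl_add (y y' : Cn (n + 1)) : tl (y + y') = tl y + tl y' := rfl

theorem hd_smul (a : ℝ) (y : Cn (n + 1)) : hd (a • y) = a * hd y := by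
  apply Complex.ext <;> simp [hd]

theorem tl_smul (a : ℝ) (y : Cn (n + 1)) : tl (a • y) = a • tl y := rfl

theorem hd_J (y : Cn (n + 1)) : hd (J y) = Complex.I * hd y := by
  apply Complex.ext <;> simp [hd, J]

theorem tl_J (y : Cn (n + 1)) : tl (J y) = J (tl y) := rfl

/-- `hd` as a continuous linear map -/
noncomputable def hdL : Cn (n + 1) →L[ℝ] ℂ :=
  LinearMap.toContinuousLinearMap
    { toFun := hd, map_add' := hd_add, map_smul' := fun a y => by
        rw [hd_smul, Complex.real_smul]; rfl }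

/-- `tl` as a continuous linear map -/
noncomputable def tlL : Cn (n + 1) →L[ℝ] Cn n :=
  LinearMap.toContinuousLinearMap { toFun := tl, map_add' := tl_add, map_smul' := tl_smul }

theorem hdL_apply (y : Cn (n + 1)) : hdL y = hd y := rfl

theorem tlL_apply (y : Cn (n + 1)) : tlL y = tl y := rfl

theorem jn_add (ξ ξ' : ℂ) (x x' : Cn n) : jn (ξ + ξ') (x + x') = jn ξ x + jn ξ' x' := by
  refine Prod.ext ?_ ?_ <;> funext i <;> refine Fin.cases ?_ (fun j => ?_) i <;> rfl

theorem jn_smul (a : ℝ) (ξ : ℂ) (x : Cn n) : jn (a * ξ) (a • x) = a • jn ξ x := by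
  refine Prod.ext ?_ ?_ <;> funext i <;> refine Fin.cases ?_ (fun j => ?_) i <;> simp [jn]

/-- `jn` as a continuous linear map -/
noncomputable def jnL : ℂ × Cn n →L[ℝ] Cn (n + 1) :=
  LinearMap.toContinuousLinearMap
    { toFun := fun p => jn p.1 p.2, map_add' := fun p p' => jn_add _ _ _ _
      map_smul' := fun a p => by
        rw [RingHom.id_apply, Prod.smul_fst, Prod.smul_snd, Complex.real_smul]
        exact jn_smul _ _ _ }

theorem jnL_apply (p : ℂ × Cn n) : jnL p = jn p.1 p.2 := rfl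

theorem contDiff_hd : ContDiff ℝ ∞ (hd : Cn (n + 1) → ℂ) := (hdL (n := n)).contDiff

theorem contDiff_tl : ContDiff ℝ ∞ (tl : Cn (n + 1) → Cn n) := (tlL (n := n)).contDiff

theorem contDiff_jn : ContDiff ℝ ∞ fun p : ℂ × Cn n => jn p.1 p.2 := (jnL (n := n)).contDiff

end Coord

/-- `-log w` -/
noncomputable def kf {κ : Type} {n : ℕ} (w : κ → Cn n → ℝ) (c : κ) (x : Cn n) : ℝ :=
  -Real.log (w c x)

/-- `log (|ξ|^2 / w)`, the norm on the canonical bundle -/
noncomputable def nr {κ : Type} {n : ℕ} (w : κ → Cn n → ℝ) (c : κ) (y : Cn (n + 1)) : ℝ :=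
  Real.log (‖hd y‖ ^ 2) - Real.log (w c (tl y))

/-- a function with the derivative `arctan r + π/2` and the second derivative `1 / (1 + r^2)` -/
noncomputable def Uf (r : ℝ) : ℝ :=
  r * Real.arctan r - Real.log (1 + r ^ 2) / 2 + Real.pi / 2 * r

/-- the Laurent coefficient of `ξ^m` of a function on `ℂ - 0` -/
noncomputable def cm (m : ℕ) (b : ℂ → ℂ) : ℂ :=
  (2 * Real.pi * Complex.I)⁻¹ * ∮ ζ in C(0, 1), ζ ^ (-(m + 1 : ℤ)) * b ζ

section Bundle

variable {M P : Type} [TopologicalSpace M] [TopologicalSpace P] {n : ℕ} {κ : Type}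

/-- `P` is the total space of the canonical bundle, with the projection `π` and the charts
`E c`. -/
structure IsKBun (e : κ → OpenPartialHomeomorph M (Cn n)) (π : P → M)
    (E : κ → OpenPartialHomeomorph P (Cn (n + 1))) : Prop where
  cont : Continuous π
  source : ∀ c, (E c).source = π ⁻¹' (e c).source
  target : ∀ c, (E c).target = {y | tl y ∈ (e c).target}
  tl_eq : ∀ c, ∀ v ∈ (E c).source, tl (E c v) = e c (π v)
  tr_eq : ∀ c c', ∀ y, tl y ∈ dom e c c' →
    tr E c c' y = jn (hd y / (Jm (tr e c c') (tl y)).det) (tr e c c' (tl y))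

/-- The part over `V` of the bundle, without the zero section. -/
def Vp (E : κ → OpenPartialHomeomorph P (Cn (n + 1))) (π : P → M) (V : Set M) : Set P :=
  {v | π v ∈ V ∧ ∃ c, v ∈ (E c).source ∧ hd (E c v) ≠ 0}

/-- `s` is a holomorphic section of `-m K`. -/
structure IsSect (e : κ → OpenPartialHomeomorph M (Cn n)) (m : ℕ) (s : κ → Cn n → ℂ) :
    Prop where
  holo : ∀ c, NF.HolC (s c) (e c).target
  compat : ∀ c c', ∀ z ∈ dom e c c',
    s c' (tr e c c' z) = (Jm (tr e c c') z).det ^ m * s c z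

/-- the weight `m r + 2 log (1 + exp r) + W` on the bundle, in the chart `c` -/
noncomputable def wtP (e : κ → OpenPartialHomeomorph M (Cn n)) (w : κ → Cn n → ℝ) (m : ℕ)
    (W : M → ℝ) (c : κ) (y : Cn (n + 1)) : ℝ :=
  m * nr w c y + 2 * Real.log (1 + Real.exp (nr w c y)) + W ((e c).symm (tl y))

/-- Solution of the `∂bar`-equation for the sections of `-m K` with a weight `exp (-W)`: a smooth
section `u` with compact support in the chart `c` and `|∂bar u|^2 ≤ B` is near a holomorphic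
section `s`. -/
def HasSec (e : κ → OpenPartialHomeomorph M (Cn n)) (w : κ → Cn n → ℝ) : Prop :=
  ∀ (m : ℕ) (W : M → ℝ), (∀ c, ContDiffOn ℝ ∞ (pb e c W) (e c).target) →
    (∀ c, ∀ z ∈ (e c).target, ∀ v,
      -((m : ℝ) - 1) * levz (kf w c) v z ≤ levz (pb e c W) v z) →
    ∀ (c : κ) (u : Cn n → ℂ) (B : Cn n → ℝ), ContDiff ℝ ∞ u → HasCompactSupport u →
      tsupport u ⊆ (e c).target → Continuous B → HasCompactSupport B →
      tsupport B ⊆ (e c).target → (∀ x, 0 ≤ B x) →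
      (∀ z ∈ (e c).target, ∀ v,
        ‖∑ j, dzb j u z * (starRingEnd ℂ) (cc v j)‖ ^ 2 ≤ B z * levz (kf w c) v z) →
      ∃ s, IsSect e m s ∧
        (∫⁻ z in (e c).target, ENNReal.ofReal
            (‖u z - s c z‖ ^ 2 * w c z ^ (m + 1) * Real.exp (-pb e c W z)) ≤
          ∫⁻ z in (e c).target, ENNReal.ofReal
            (B z * w c z ^ (m + 1) * Real.exp (-pb e c W z))) ∧
        ∀ (c' : κ) (A : Set (Cn n)), IsOpen A → A ⊆ (e c').target →
          (∀ z ∈ A, (e c').symm z ∈ (e c).source → e c ((e c').symm z) ∉ tsupport u) →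
          ∫⁻ z in A, ENNReal.ofReal
              (‖s c' z‖ ^ 2 * w c' z ^ (m + 1) * Real.exp (-pb e c' W z)) ≤
            ∫⁻ z in (e c).target, ENNReal.ofReal
              (B z * w c z ^ (m + 1) * Real.exp (-pb e c W z))

/-- The functions `W ε`, `0 < ε ≤ 1`, have a logarithmic pole at `p` for `ε = 0`; `-C` bounds their
Levi forms and `c` is a chart with `p`. -/
structure IsPole (e : κ → OpenPartialHomeomorph M (Cn n)) (V : Set M) (w : κ → Cn n → ℝ) (C : ℝ)
    (p : M) (c : κ) (W : ℝ → M → ℝ) : Prop where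
  mem : p ∈ (e c).source
  smooth : ∀ ε, 0 < ε → ∀ c', ContDiffOn ℝ ∞ (pb e c' (W ε)) (e c').target
  lev : ∀ ε, 0 < ε → ε ≤ 1 → ∀ c', ∀ z ∈ (e c').target, ∀ v,
    -C * levz (kf w c') v z ≤ levz (pb e c' (W ε)) v z
  le : ∀ ε, 0 < ε → ε ≤ 1 → ∀ x, W ε x ≤ C
  near : ∃ r C' : ℝ, 0 < r ∧ ∀ ε, 0 < ε → ε ≤ 1 → ∀ z, nsq (z - e c p) < r →
    z ∈ (e c).target ∧ pb e c (W ε) z ≤ (n + 2) * Real.log (nsq (z - e c p) + ε ^ 2) + C'
  away : ∀ S : Set M, IsOpen S → p ∈ S → ∃ C' : ℝ, ∀ ε, 0 < ε → ε ≤ 1 → ∀ x ∈ V, x ∉ S →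
    -C' ≤ W ε x

/-- Finitely many sections of `-m K` embed the set `K` in a projective space. -/
structure IsEmbK (e : κ → OpenPartialHomeomorph M (Cn n)) (K : Set M) (m : ℕ) {L : ℕ}
    (s : Fin (L + 1) → κ → Cn n → ℂ) : Prop where
  sect : ∀ i, IsSect e m (s i)
  ne : ∀ c, ∀ z ∈ (e c).target, (e c).symm z ∈ K → ∃ i, s i c z ≠ 0
  imm : ∀ c, ∀ z ∈ (e c).target, (e c).symm z ∈ K → ∀ v,
    (∃ a : ℂ, ∀ i, fderiv ℝ (s i c) z v = a * s i c z) → v = 0
  inj : ∀ c, ∀ z ∈ (e c).target, (e c).symm z ∈ K → ∀ c', ∀ z' ∈ (e c').target,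
    (e c').symm z' ∈ K → (∃ a : ℂ, ∀ i, s i c z = a * s i c' z') → (e c).symm z = (e c').symm z'

end Bundle

end Pool.Agent.KRFKo

end

section

/-!
# The canonical bundle: changes of charts (helper33)
-/

open scoped ContDiff Topology LinearAlgebra.Projectivization
open Set MeasureTheory Filter Pool.Agent.ToricKRF Pool.Agent.ToricKRF.G Pool.Agent.KRFS
  Pool.Agent.KRFF Pool.Agent.KRFQ Pool.Agent.KRFZ

namespace Pool.Agent.KRFKo

section Bun

variable {M P : Type} [TopologicalSpace M] [TopologicalSpace P] {n : ℕ} {κ : Type}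
  {e : κ → OpenPartialHomeomorph M (Cn n)} {π : P → M}
  {E : κ → OpenPartialHomeomorph P (Cn (n + 1))}

theorem IsKBun.isOpen_Vp (hb : IsKBun e π E) {V : Set M} (hV : IsOpen V) :
    IsOpen (Vp E π V) := by
  have h1 : Vp E π V = π ⁻¹' V ∩ ⋃ c, (E c).source ∩ (E c) ⁻¹' {y | hd y ≠ 0} := by
    ext v
    simp [Vp]
  rw [h1]
  refine (hV.preimage hb.cont).inter (isOpen_iUnion fun c => ?_)
  exact (E c).isOpen_inter_preimage (isOpen_ne.preimage contDiff_hd.continuous)

theorem IsKBun.mem_tgt (hb : IsKBun e π E) {c : κ} {y : Cn (n + 1)} :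
    y ∈ (E c).target ↔ tl y ∈ (e c).target := by
  rw [hb.target]
  rfl

theorem IsKBun.mem_src (hb : IsKBun e π E) {c : κ} {v : P} :
    v ∈ (E c).source ↔ π v ∈ (e c).source := by
  rw [hb.source]
  rfl

theorem IsKBun.pi_symm (hb : IsKBun e π E) {c : κ} {y : Cn (n + 1)} (hy : tl y ∈ (e c).target) :
    π ((E c).symm y) = (e c).symm (tl y) := by
  have hy' : y ∈ (E c).target := hb.mem_tgt.2 hy
  have h1 := hb.tl_eq c _ ((E c).map_target hy')
  rw [(E c).right_inv hy'] at h1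
  rw [h1, (e c).left_inv (hb.mem_src.1 ((E c).map_target hy'))]

theorem IsKBun.mem_dom (hb : IsKBun e π E) (c c' : κ) (y : Cn (n + 1)) :
    y ∈ dom E c c' ↔ tl y ∈ dom e c c' := by
  constructor
  · rintro ⟨h1, h2⟩
    have h3 : tl y ∈ (e c).target := hb.mem_tgt.1 h1
    refine ⟨h3, ?_⟩
    rw [← hb.pi_symm h3]
    exact hb.mem_src.1 h2
  · rintro ⟨h1, h2⟩
    refine ⟨hb.mem_tgt.2 h1, hb.mem_src.2 ?_⟩
    rw [hb.pi_symm h1]
    exact h2

/-- the determinant of a change of charts is not zero -/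
theorem Bu.det_Jm_ne (he : IsAtlas e) {c c' : κ} {z : Cn n} (hz : z ∈ dom e c c') :
    (Jm (tr e c c') z).det ≠ 0 := by
  intro h
  have h1 := congrArg Matrix.det (Jm_tr_mul he.holo hz)
  rw [Matrix.det_mul, h, mul_zero, Matrix.det_one] at h1
  exact zero_ne_one h1

/-- being away from the zero section does not depend on the chart -/
theorem IsKBun.hd_ne (hb : IsKBun e π E) (he : IsAtlas e) {V : Set M} {v : P}
    (hv : v ∈ Vp E π V) {c : κ} (hc : v ∈ (E c).source) : hd (E c v) ≠ 0 := by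
  obtain ⟨-, c', hc', h0⟩ := hv
  have h1 : E c' v ∈ dom E c' c := KRFQ.mem_dom hc' hc
  have h2 := (hb.mem_dom c' c _).1 h1
  have h3 : tr E c' c (E c' v) = E c v := KRFQ.tr_apply hc'
  rw [← h3, hb.tr_eq c' c _ h2, hd_jn]
  exact div_ne_zero h0 (Bu.det_Jm_ne he h2)

theorem IsKBun.mem_target (hb : IsKBun e π E) (he : IsAtlas e) {V : Set M} (hV : IsOpen V)
    (hVp : IsOpen (Vp E π V)) (c : κ) (y : Cn (n + 1)) :
    y ∈ (rs E hVp c).target ↔ tl y ∈ (rs e hV c).target ∧ hd y ≠ 0 := by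
  rw [mem_rs_target, mem_rs_target, hb.mem_tgt]
  constructor
  · rintro ⟨h1, h2⟩
    have h3 := hb.hd_ne he h2 ((E c).map_target (hb.mem_tgt.2 h1))
    rw [(E c).right_inv (hb.mem_tgt.2 h1)] at h3
    refine ⟨⟨h1, ?_⟩, h3⟩
    rw [← hb.pi_symm h1]
    exact h2.1
  · rintro ⟨⟨h1, h2⟩, h3⟩
    refine ⟨h1, ?_, c, (E c).map_target (hb.mem_tgt.2 h1), ?_⟩
    · rw [hb.pi_symm h1]
      exact h2
    · rwa [(E c).right_inv (hb.mem_tgt.2 h1)]

/-! ### The changes of charts are holomorphic -/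

theorem Bu.cc_zero_eq (y : Cn (n + 1)) : cc y 0 = hd y := rfl

theorem Bu.cc_succ_eq (y : Cn (n + 1)) (i : Fin n) : cc y i.succ = cc (tl y) i := rfl

theorem Bu.holOn_tl (S : Set (Cn (n + 1))) : HolOn (tl : Cn (n + 1) → Cn n) S := by
  refine ⟨contDiff_tl.contDiffOn, fun z _ u => ?_⟩
  have h1 : fderiv ℝ (tl : Cn (n + 1) → Cn n) z = tlL := (tlL (n := n)).fderiv
  rw [h1]
  rfl

/-- the determinant of the complex Jacobian matrix is holomorphic -/
theorem Bu.holC_detJm {m : ℕ} {H : Cn m → Cn m} {S : Set (Cn m)} (hS : IsOpen S) (hH : HolOn H S) :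
    NF.HolC (fun z => (Jm H z).det) S :=
  NF.HolC.det hS fun l k => NF.holOn_cc hS (NF.holOn_fderiv_const hS hH (eR k)) l

theorem Bu.isOpen_tldom (c c' : κ) : IsOpen {y : Cn (n + 1) | tl y ∈ dom e c c'} :=
  (KRFQ.isOpen_dom c c').preimage contDiff_tl.continuous

theorem Bu.holC_comp_tl {h : Cn n → ℂ} {S : Set (Cn n)} (hS : IsOpen S) (hh : NF.HolC h S) :
    NF.HolC (fun y : Cn (n + 1) => h (tl y)) {y | tl y ∈ S} ∧
      ∀ y : Cn (n + 1), tl y ∈ S → ∀ u, fderiv ℝ (fun y : Cn (n + 1) => h (tl y)) y u =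
        fderiv ℝ h (tl y) (tl u) := by
  have key : ∀ y : Cn (n + 1), tl y ∈ S → ∀ u, fderiv ℝ (fun y : Cn (n + 1) => h (tl y)) y u =
        fderiv ℝ h (tl y) (tl u) := by
    intro y hy u
    have h1 : HasFDerivAt (fun y : Cn (n + 1) => h (tl y)) ((fderiv ℝ h (tl y)).comp tlL) y :=
      (NF.diffAt hS hh.1 hy).hasFDerivAt.comp y (tlL (n := n)).hasFDerivAt
    rw [h1.fderiv]
    rfl
  refine ⟨⟨hh.1.comp contDiff_tl.contDiffOn fun y hy => hy, fun y hy u => ?_⟩, key⟩
  rw [key y hy, key y hy, tl_J, hh.2 _ hy]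

theorem Bu.holC_hd (S : Set (Cn (n + 1))) : NF.HolC (hd : Cn (n + 1) → ℂ) S ∧
    ∀ y u : Cn (n + 1), fderiv ℝ (hd : Cn (n + 1) → ℂ) y u = hd u := by
  have h1 : ∀ y : Cn (n + 1), fderiv ℝ (hd : Cn (n + 1) → ℂ) y = hdL := fun y =>
    (hdL (n := n)).fderiv
  refine ⟨⟨contDiff_hd.contDiffOn, fun z _ u => ?_⟩, fun y u => ?_⟩
  · rw [h1]
    exact hd_J u
  · rw [h1]
    rfl

/-- the coordinate `ξ` of the change of charts is holomorphic -/
theorem Bu.holC_head (he : IsAtlas e) (c c' : κ) :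
    NF.HolC (fun y : Cn (n + 1) => hd y * ((Jm (tr e c c') (tl y)).det)⁻¹)
      {y | tl y ∈ dom e c c'} := by
  have h1 := Bu.holC_detJm (KRFQ.isOpen_dom c c') (he.holo c c')
  have h2 : NF.HolC (fun z => ((Jm (tr e c c') z).det)⁻¹) (dom e c c') :=
    (KRFG.Touch.holC_comp (h := fun w => w⁻¹) (V := {0}ᶜ) isOpen_compl_singleton
      (fun _ hw => (differentiableAt_inv hw).differentiableWithinAt) (KRFQ.isOpen_dom c c') h1
      (fun z hz => Bu.det_Jm_ne he hz)).1
  exact (Bu.holC_hd _).1.mul (Bu.isOpen_tldom c c') (Bu.holC_comp_tl (KRFQ.isOpen_dom c c') h2).1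

/-- the coordinates of the change of charts -/
noncomputable def Bu.trc (e : κ → OpenPartialHomeomorph M (Cn n)) (c c' : κ) (l : Fin (n + 1))
    (y : Cn (n + 1)) : ℂ :=
  Fin.cases (motive := fun _ => ℂ) (hd y * ((Jm (tr e c c') (tl y)).det)⁻¹)
    (fun i => cc (tr e c c' (tl y)) i) l

theorem Bu.holC_trc (he : IsAtlas e) (c c' : κ) (l : Fin (n + 1)) :
    NF.HolC (Bu.trc e c c' l) {y | tl y ∈ dom e c c'} := by
  refine Fin.cases ?_ (fun i => ?_) l
  · exact Bu.holC_head he c c'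
  · exact (Bu.holC_comp_tl (KRFQ.isOpen_dom c c') (NF.holOn_cc (KRFQ.isOpen_dom c c') (he.holo c c') i)).1

theorem IsKBun.tr_trc (hb : IsKBun e π E) (c c' : κ) :
    EqOn (tr E c c') (fun y => KRFG.ofC fun l => Bu.trc e c c' l y) {y | tl y ∈ dom e c c'} := by
  intro y hy
  rw [hb.tr_eq c c' y hy]
  refine cc_ext fun l => ?_
  rw [KRFG.Touch.cc_ofC]
  refine Fin.cases ?_ (fun i => ?_) l
  · rw [Bu.cc_zero_eq, hd_jn, div_eq_mul_inv]
    rfl
  · rw [Bu.cc_succ_eq, tl_jn]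
    rfl

theorem IsKBun.dom_eq (hb : IsKBun e π E) (c c' : κ) :
    dom E c c' = {y | tl y ∈ dom e c c'} := by
  ext y
  exact hb.mem_dom c c' y

theorem IsKBun.holo (hb : IsKBun e π E) (he : IsAtlas e) (c c' : κ) :
    HolOn (tr E c c') (dom E c c') := by
  rw [hb.dom_eq]
  exact NF.holOn_congr (Bu.isOpen_tldom c c')
    (KRFG.Touch.holOn_ofC (Bu.isOpen_tldom c c') (Bu.holC_trc he c c')).1 (hb.tr_trc c c')

/-- the complex Jacobian matrix of the change of charts -/
theorem IsKBun.Jm_tr (hb : IsKBun e π E) (he : IsAtlas e) (c c' : κ) {y : Cn (n + 1)}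
    (hy : y ∈ dom E c c') (l k : Fin (n + 1)) :
    Jm (tr E c c') y l k = fderiv ℝ (Bu.trc e c c' l) y (eR k) := by
  have hy' := (hb.mem_dom c c' y).1 hy
  rw [← (KRFG.Touch.holOn_ofC (Bu.isOpen_tldom c c') (Bu.holC_trc he c c')).2 y hy' (eR k) l]
  rw [Jm_apply]
  have h1 : tr E c c' =ᶠ[𝓝 y] fun y => KRFG.ofC fun l => Bu.trc e c c' l y := by
    filter_upwards [(Bu.isOpen_tldom c c').mem_nhds hy'] with x hx
    exact hb.tr_trc c c' hx
  rw [h1.fderiv_eq]

theorem Bu.hd_eR_zero : hd (eR (0 : Fin (n + 1))) = 1 := by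
  rw [← Bu.cc_zero_eq, cc_eR, if_pos rfl]

theorem Bu.tl_eR_zero : tl (eR (0 : Fin (n + 1))) = 0 := by
  refine cc_ext fun l => ?_
  rw [← Bu.cc_succ_eq, cc_eR, if_neg (Fin.succ_ne_zero l), cc_zero]

theorem Bu.tl_eR_succ (k : Fin n) : tl (eR k.succ) = eR k := by
  refine cc_ext fun l => ?_
  rw [← Bu.cc_succ_eq, cc_eR, cc_eR]
  simp only [Fin.succ_inj]

theorem IsKBun.det_Jm (hb : IsKBun e π E) (he : IsAtlas e) (c c' : κ) {y : Cn (n + 1)}
    (hy : y ∈ dom E c c') : (Jm (tr E c c') y).det = 1 := by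
  have hy' := (hb.mem_dom c c' y).1 hy
  have hne := Bu.det_Jm_ne he hy'
  have h0 : Jm (tr E c c') y 0 0 = ((Jm (tr e c c') (tl y)).det)⁻¹ := by
    rw [hb.Jm_tr he c c' hy]
    have h1 := Bu.holC_detJm (KRFQ.isOpen_dom c c') (he.holo c c')
    have h2 : NF.HolC (fun z => ((Jm (tr e c c') z).det)⁻¹) (dom e c c') :=
      (KRFG.Touch.holC_comp (h := fun w => w⁻¹) (V := {0}ᶜ) isOpen_compl_singleton
        (fun _ hw => (differentiableAt_inv hw).differentiableWithinAt) (KRFQ.isOpen_dom c c') h1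
        (fun z hz => Bu.det_Jm_ne he hz)).1
    obtain ⟨h3, h4⟩ := Bu.holC_comp_tl (KRFQ.isOpen_dom c c') h2
    have h5 : HasFDerivAt (Bu.trc e c c' 0) _ y :=
      (NF.diffAt (Bu.isOpen_tldom c c') (Bu.holC_hd _).1.1 hy').hasFDerivAt.fun_mul
        (NF.diffAt (Bu.isOpen_tldom c c') h3.1 hy').hasFDerivAt
    rw [h5.fderiv]
    simp only [add_apply, smul_apply, smul_eq_mul]
    rw [h4 y hy', (Bu.holC_hd {y | tl y ∈ dom e c c'}).2, Bu.tl_eR_zero, Bu.hd_eR_zero, map_zero]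
    ring
  have hs : ∀ (i : Fin n) (k : Fin (n + 1)), Jm (tr E c c') y i.succ k =
      cc (fderiv ℝ (tr e c c') (tl y) (tl (eR k))) i := by
    intro i k
    rw [hb.Jm_tr he c c' hy]
    have h1 := (Bu.holC_comp_tl (KRFQ.isOpen_dom c c') (NF.holOn_cc (KRFQ.isOpen_dom c c') (he.holo c c') i)).2
      y hy' (eR k)
    have h2 : Bu.trc e c c' i.succ = fun y : Cn (n + 1) => cc (tr e c c' (tl y)) i := rfl
    rw [h2, h1]
    have h4 : (fun z => cc (tr e c c' z) i) = fun z => NF.ccL i (tr e c c' z) := by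
      funext z
      rw [NF.ccL_apply]
    have h5 : HasFDerivAt (fun z => NF.ccL i (tr e c c' z))
        ((NF.ccL i).comp (fderiv ℝ (tr e c c') (tl y))) (tl y) :=
      (NF.ccL i).hasFDerivAt.comp (tl y)
        (NF.diffAt (KRFQ.isOpen_dom c c') (he.holo c c').1 hy').hasFDerivAt
    rw [h4, h5.fderiv, ContinuousLinearMap.comp_apply, NF.ccL_apply]
  rw [Matrix.det_succ_column_zero, Fin.sum_univ_succ]
  have hz : ∀ i : Fin n, Jm (tr E c c') y i.succ 0 = 0 := by
    intro i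
    rw [hs, Bu.tl_eR_zero, map_zero, cc_zero]
  have hsub : (Jm (tr E c c') y).submatrix (Fin.succAbove 0) Fin.succ =
      Jm (tr e c c') (tl y) := by
    ext i k
    rw [Matrix.submatrix_apply, Fin.succAbove_zero, hs, Bu.tl_eR_succ, Jm_apply]
  rw [hsub, h0, Finset.sum_eq_zero fun i _ => by rw [hz i]; ring]
  simp [hne]

theorem IsKBun.det_one (hb : IsKBun e π E) (he : IsAtlas e) (c c' : κ) {y : Cn (n + 1)}
    (hy : y ∈ dom E c c') : |(fderiv ℝ (tr E c c') y).det| = 1 := by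
  rw [abs_det_eq _ ((hb.holo he c c').2 y hy)]
  have h1 := hb.det_Jm he c c' hy
  have h2 : (Matrix.of fun k a => cc (fderiv ℝ (tr E c c') y ((Pi.single k 1, 0) : Cn (n + 1))) a)
      = (Jm (tr E c c') y).transpose := by
    ext k a
    rfl
  rw [h2, Matrix.det_transpose, h1, map_one]

/-- the norm in two charts -/
theorem IsKBun.nr_tr (hb : IsKBun e π E) (he : IsAtlas e) {V : Set M} (hV : IsOpen V)
    {w g : κ → Cn n → ℝ} (h : L2D (rs e hV) V w g) {c c' : κ} {y : Cn (n + 1)}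
    (hy : tl y ∈ dom (rs e hV) c c') (h0 : hd y ≠ 0) :
    nr w c' (tr E c c' y) = nr w c y := by
  have hy' : tl y ∈ dom e c c' := dom_rs hV c c' hy
  have hne := Bu.det_Jm_ne he hy'
  rw [hb.tr_eq c c' y hy']
  unfold nr
  rw [hd_jn, tl_jn]
  have h1 := h.w_compat c c' (tl y) hy
  rw [tr_rs, abs_det_eq _ ((he.holo c c').2 (tl y) hy')] at h1
  have h2 : (Matrix.of fun k a => cc (fderiv ℝ (tr e c c') (tl y) ((Pi.single k 1, 0) : Cn n)) a)
      = (Jm (tr e c c') (tl y)).transpose := by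
    ext k a
    rfl
  rw [h2, Matrix.det_transpose, Complex.normSq_eq_norm_sq] at h1
  have hw : 0 < w c' (tr e c c' (tl y)) := h.w_pos c' _ (tr_mem_target hy)
  have hd2 : ‖(Jm (tr e c c') (tl y)).det‖ ^ 2 ≠ 0 := pow_ne_zero 2 (norm_ne_zero_iff.2 hne)
  rw [h1, Real.log_mul hd2 hw.ne', norm_div, div_pow,
    Real.log_div (pow_ne_zero 2 (norm_ne_zero_iff.2 h0)) hd2]
  ring

end Bun

end Pool.Agent.KRFKo

end

section

/-!
# Fubini's theorem for the canonical bundle
-/

open scoped ContDiff Topology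
open Set MeasureTheory Filter Pool.Agent.ToricKRF Pool.Agent.ToricKRF.G Pool.Agent.KRFS
  Pool.Agent.KRFF Pool.Agent.KRFQ

namespace Pool.Agent.KRFKo

variable {n : ℕ}

theorem mp_comm {α β γ δ : Type*} [MeasureSpace α] [MeasureSpace β] [MeasureSpace γ]
    [MeasureSpace δ] [SFinite (volume : Measure α)] [SFinite (volume : Measure β)]
    [SFinite (volume : Measure γ)] [SFinite (volume : Measure δ)] :
    MeasurePreserving (fun p : (α × β) × (γ × δ) => ((p.1.1, p.2.1), (p.1.2, p.2.2))) volume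
      volume := by
  have h1 : MeasurePreserving (MeasurableEquiv.prodAssoc : (α × β) × (γ × δ) ≃ᵐ _) volume volume :=
    volume_preserving_prodAssoc
  have h2 : MeasurePreserving (Prod.map id (MeasurableEquiv.prodAssoc : (β × γ) × δ ≃ᵐ _).symm :
      α × (β × (γ × δ)) → α × ((β × γ) × δ)) volume volume :=
    (MeasurePreserving.id volume).prod
      (MeasurePreserving.symm _ (volume_preserving_prodAssoc (α₁ := β) (β₁ := γ) (γ₁ := δ)))
  have h3 : MeasurePreserving (Prod.map id (Prod.map Prod.swap id) :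
      α × ((β × γ) × δ) → α × ((γ × β) × δ)) volume volume :=
    (MeasurePreserving.id volume).prod
      (Measure.measurePreserving_swap.prod (MeasurePreserving.id volume))
  have h4 : MeasurePreserving (Prod.map id (MeasurableEquiv.prodAssoc : (γ × β) × δ ≃ᵐ _) :
      α × ((γ × β) × δ) → α × (γ × (β × δ))) volume volume :=
    (MeasurePreserving.id volume).prod volume_preserving_prodAssoc
  have h5 : MeasurePreserving (MeasurableEquiv.prodAssoc : (α × γ) × (β × δ) ≃ᵐ _).symm volume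
      volume := MeasurePreserving.symm _ volume_preserving_prodAssoc
  exact h5.comp (h4.comp (h3.comp (h2.comp h1)))

/-- the splitting of the coordinates preserves the volume -/
theorem mp_hd_tl : MeasurePreserving (fun y : Cn (n + 1) => (hd y, tl y)) volume volume := by
  have h1 := volume_preserving_piFinSuccAbove (fun _ : Fin (n + 1) => ℝ) 0
  have h2 := (h1.prod h1)
  have h3 := mp_comm (α := ℝ) (β := Fin n → ℝ) (γ := ℝ) (δ := Fin n → ℝ)
  have h4 : MeasurePreserving (Complex.measurableEquivRealProd.symm) volume volume :=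
    MeasurePreserving.symm _ Complex.volume_preserving_equiv_real_prod
  have h5 := (h4.prod (MeasurePreserving.id (volume : Measure (Cn n)))).comp (h3.comp h2)
  have e : (fun y : Cn (n + 1) => (hd y, tl y)) =
      (Prod.map Complex.measurableEquivRealProd.symm id) ∘
        (fun p : (ℝ × (Fin n → ℝ)) × (ℝ × (Fin n → ℝ)) => ((p.1.1, p.2.1), (p.1.2, p.2.2))) ∘
          Prod.map (MeasurableEquiv.piFinSuccAbove (fun _ : Fin (n + 1) => ℝ) 0)
            (MeasurableEquiv.piFinSuccAbove (fun _ : Fin (n + 1) => ℝ) 0) := by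
    funext y
    simp only [Function.comp_apply, Prod.map_apply, id_eq]
    rfl
  rw [e]
  exact h5

theorem measurableEmbedding_hd_tl :
    MeasurableEmbedding (fun y : Cn (n + 1) => (hd y, tl y)) := by
  refine Measurable.measurableEmbedding mp_hd_tl.measurable fun y y' h => ?_
  rw [Prod.mk.injEq] at h
  rw [← jn_hd_tl y, ← jn_hd_tl y', h.1, h.2]

/-- B3c: Fubini -/
theorem lintegral_jn {A : Set (Cn n)} (hA : MeasurableSet A) {F : Cn (n + 1) → ENNReal}
    (hF : AEMeasurable F (volume.restrict {y | tl y ∈ A})) :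
    ∫⁻ y in {y | tl y ∈ A}, F y = ∫⁻ x in A, ∫⁻ ξ : ℂ, F (jn ξ x) := by
  set T : Cn (n + 1) → ℂ × Cn n := fun y => (hd y, tl y) with hT
  set G : ℂ × Cn n → ENNReal := fun p => F (jn p.1 p.2) with hG
  have hs : MeasurableSet ((univ : Set ℂ) ×ˢ A) := MeasurableSet.univ.prod hA
  have hpre : T ⁻¹' ((univ : Set ℂ) ×ˢ A) = {y | tl y ∈ A} := by
    ext y
    simp [hT]
  have hm : MeasurePreserving T (volume.restrict {y | tl y ∈ A})
      (volume.restrict ((univ : Set ℂ) ×ˢ A)) := by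
    rw [← hpre]
    exact mp_hd_tl.restrict_preimage hs
  have hFG : F = G ∘ T := by
    funext y
    simp [hG, hT]
  have hGm : AEMeasurable G (volume.restrict ((univ : Set ℂ) ×ˢ A)) := by
    rw [← hm.aemeasurable_comp_iff measurableEmbedding_hd_tl, ← hFG]
    exact hF
  have h1 : ∫⁻ y in {y | tl y ∈ A}, F y = ∫⁻ p in (univ : Set ℂ) ×ˢ A, G p := by
    rw [← hm.lintegral_comp_emb measurableEmbedding_hd_tl]
    exact lintegral_congr fun y => congrFun hFG y
  have h2 : (volume : Measure (ℂ × Cn n)).restrict ((univ : Set ℂ) ×ˢ A) =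
      (volume : Measure ℂ).prod ((volume : Measure (Cn n)).restrict A) := by
    rw [Measure.volume_eq_prod, ← Measure.prod_restrict, Measure.restrict_univ]
  rw [h1, h2] 
  rw [h2] at hGm
  exact lintegral_prod_symm _ hGm

end Pool.Agent.KRFKo

end

section

/-!
# KRF VIII, B7a: sections which embed a neighbourhood of a point (helper78)
-/

open scoped ContDiff Topology
open Set MeasureTheory Filter Pool.Agent.ToricKRF Pool.Agent.ToricKRF.G Pool.Agent.KRFS
  Pool.Agent.KRFF Pool.Agent.KRFQ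

namespace Pool.Agent.KRFKo

namespace Loc

section

/-- A map with an injective strict derivative at a point is injective near the point. -/
theorem exists_injOn {X Y : Type*} [NormedAddCommGroup X] [NormedSpace ℝ X]
    [FiniteDimensional ℝ X] [NormedAddCommGroup Y] [NormedSpace ℝ Y] {g : X → Y} {g' : X →L[ℝ] Y}
    {x₀ : X} (h : HasStrictFDerivAt g g' x₀) (hinj : ∀ v, g' v = 0 → v = 0) :
    ∃ N ∈ 𝓝 x₀, InjOn g N := by
  obtain ⟨K, hK, hL⟩ := (g' : X →ₗ[ℝ] Y).exists_antilipschitzWith (by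
    rw [LinearMap.ker_eq_bot']
    exact hinj)
  have hKp : (0 : ℝ) < K := hK
  have h1 := h.isLittleO.def (c := 1 / (2 * K)) (by positivity)
  rw [nhds_prod_eq, eventually_prod_self_iff'] at h1
  obtain ⟨N, hN, h2⟩ := h1
  refine ⟨N, hN, fun x hx y hy hxy => ?_⟩
  have h3 := h2 x hx y hy
  simp only [hxy, sub_self, zero_sub, norm_neg] at h3
  have h4 := hL.le_mul_dist x y
  rw [dist_eq_norm, dist_eq_norm] at h4
  have h5 : ‖(g' : X →ₗ[ℝ] Y) x - (g' : X →ₗ[ℝ] Y) y‖ = ‖g' (x - y)‖ := by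
    rw [map_sub]
    rfl
  rw [h5] at h4
  have h6 : (K : ℝ) * ‖g' (x - y)‖ ≤ K * (1 / (2 * K) * ‖x - y‖) :=
    mul_le_mul_of_nonneg_left h3 hKp.le
  have h7 : (K : ℝ) * (1 / (2 * K) * ‖x - y‖) = ‖x - y‖ / 2 := by
    field_simp
  have h8 : ‖x - y‖ ≤ 0 := by linarith
  exact sub_eq_zero.1 (norm_le_zero_iff.1 h8)

/-- The matrices close to the identity are invertible. -/
theorem exists_delta (k : ℕ) : ∃ δ : ℝ, 0 < δ ∧ ∀ A : Matrix (Fin k) (Fin k) ℂ,
    (∀ i j, ‖A i j - (1 : Matrix (Fin k) (Fin k) ℂ) i j‖ ≤ δ) → A.det ≠ 0 := by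
  have hc : Continuous fun B : Fin k → Fin k → ℂ => (Matrix.of B).det :=
    Continuous.matrix_det continuous_id
  obtain ⟨δ, hδ, h⟩ := Metric.continuousAt_iff.1
    (hc.continuousAt (x := fun i j => (1 : Matrix (Fin k) (Fin k) ℂ) i j)) 1 one_pos
  refine ⟨δ / 2, by positivity, fun A hA h0 => ?_⟩
  have h1 : dist (fun i j => A i j) (fun i j => (1 : Matrix (Fin k) (Fin k) ℂ) i j) < δ := by
    refine lt_of_le_of_lt ?_ (half_lt_self hδ)
    refine (dist_pi_le_iff (by positivity)).2 fun i => (dist_pi_le_iff (by positivity)).2 fun j => ?_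
    rw [dist_eq_norm]
    exact hA i j
  have h2 := h h1
  have h3 : (Matrix.of fun i j => A i j).det = 0 := h0
  have h4 : (Matrix.of fun i j => (1 : Matrix (Fin k) (Fin k) ℂ) i j).det = 1 := Matrix.det_one
  rw [h3, h4, dist_eq_norm, zero_sub, norm_neg, norm_one] at h2
  exact lt_irrefl _ h2

end

section

variable {n : ℕ}

/-- the derivative of a holomorphic function -/
theorem fderiv_holC {h : Cn n → ℂ} {S : Set (Cn n)} (hh : NF.HolC h S) {z : Cn n} (hz : z ∈ S)
    (v : Cn n) : fderiv ℝ h z v = ∑ j, dz j h z * cc v j := by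
  rw [KRFQ.fderiv_eq]
  refine Finset.sum_congr rfl fun j _ => ?_
  have h1 : dzb j h z = 0 := by
    unfold dzb
    rw [← J_eR, hh.2 z hz]
    have hI : Complex.I * Complex.I = -1 := Complex.I_mul_I
    linear_combination (fderiv ℝ h z (eR j)) / 2 * hI
  rw [h1, zero_mul, add_zero]

/-- the matrix of the values and of the first derivatives -/
noncomputable def jm (f : Fin (n + 1) → Cn n → ℂ) (z : Cn n) :
    Matrix (Fin (n + 1)) (Fin (n + 1)) ℂ :=
  Matrix.of fun i => Fin.cons (f i z) fun j => dz j (f i) z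

theorem jm_zero (f : Fin (n + 1) → Cn n → ℂ) (z : Cn n) (i : Fin (n + 1)) :
    jm f z i 0 = f i z := rfl

theorem jm_succ (f : Fin (n + 1) → Cn n → ℂ) (z : Cn n) (i : Fin (n + 1)) (j : Fin n) :
    jm f z i j.succ = dz j (f i) z := rfl

theorem jm_cont {f : Fin (n + 1) → Cn n → ℂ} {S : Set (Cn n)} (hS : IsOpen S)
    (hf : ∀ i, NF.HolC (f i) S) : ContinuousOn (fun z => (jm f z).det) S := by
  refine (KRFQ.contDiffOn_det fun i j => ?_).continuousOn
  refine Fin.cases ?_ (fun j => ?_) j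
  · simp only [jm_zero]
    exact (hf i).1
  · simp only [jm_succ]
    exact contDiffOn_dz hS (hf i).1 j

theorem ne_of_det {f : Fin (n + 1) → Cn n → ℂ} {z : Cn n} (hd : (jm f z).det ≠ 0) :
    ∃ i, f i z ≠ 0 := by
  by_contra h
  push Not at h
  exact hd (Matrix.det_eq_zero_of_column_eq_zero 0 fun i => by rw [jm_zero, h i])

theorem imm_of_det {f : Fin (n + 1) → Cn n → ℂ} {S : Set (Cn n)} (hf : ∀ i, NF.HolC (f i) S)
    {z : Cn n} (hz : z ∈ S) (hd : (jm f z).det ≠ 0) {v : Cn n} {a : ℂ}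
    (h : ∀ i, fderiv ℝ (f i) z v = a * f i z) : v = 0 := by
  have h1 : (jm f z).mulVec (Fin.cons (-a) fun j => cc v j) = 0 := by
    funext i
    simp only [Matrix.mulVec, dotProduct, Fin.sum_univ_succ, Fin.cons_zero, Fin.cons_succ,
      jm_zero, jm_succ, Pi.zero_apply]
    rw [← fderiv_holC (hf i) hz, h i]
    ring
  have h2 := Matrix.eq_zero_of_mulVec_eq_zero hd h1
  refine cc_ext fun j => ?_
  have h3 := congrFun h2 j.succ
  simpa [cc_zero] using h3

end

section

variable {M : Type} [TopologicalSpace M] {n : ℕ} {κ : Type}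
  {e : κ → OpenPartialHomeomorph M (Cn n)}

theorem det_ne (he : ∀ c c', HolOn (tr e c c') (dom e c c')) {c c' : κ} {z : Cn n}
    (hz : z ∈ dom e c c') : (Jm (tr e c c') z).det ≠ 0 := by
  intro h
  have h1 := congrArg Matrix.det (Jm_tr_mul he hz)
  rw [Matrix.det_mul, h, mul_zero, Matrix.det_one] at h1
  exact zero_ne_one h1

theorem fderiv_tr_inj (he : ∀ c c', HolOn (tr e c c') (dom e c c')) {c c' : κ} {z : Cn n}
    (hz : z ∈ dom e c c') {v : Cn n} (hv : fderiv ℝ (tr e c c') z v = 0) : v = 0 := by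
  have h1 : (Jm (tr e c c') z).mulVec (fun k => cc v k) = 0 := by
    funext l
    have h2 := cc_fderiv (he c c') hz v l
    rw [hv, cc_zero] at h2
    simp only [Matrix.mulVec, dotProduct, Pi.zero_apply]
    exact h2.symm
  have h2 := Matrix.eq_zero_of_mulVec_eq_zero (det_ne he hz) h1
  refine cc_ext fun j => ?_
  rw [cc_zero]
  exact congrFun h2 j

/-- Sections under a change of charts: the derivatives. -/
theorem fderiv_sect (he : ∀ c c', HolOn (tr e c c') (dom e c c')) {c c' : κ} {z : Cn n}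
    (hz : z ∈ dom e c c') {m : ℕ} (v : Cn n) : ∃ b : ℂ, ∀ s, IsSect e m s →
      fderiv ℝ (s c') (tr e c c' z) (fderiv ℝ (tr e c c') z v) =
        b * s c z + (Jm (tr e c c') z).det ^ m * fderiv ℝ (s c) z v := by
  have ho := KRFQ.isOpen_dom (e := e) c c'
  have hD : ContDiffOn ℝ ∞ (fun x => (Jm (tr e c c') x).det ^ m) (dom e c c') :=
    (KRFQ.contDiffOn_det fun i j => contDiffOn_Jm ho (he c c') i j).pow m
  refine ⟨fderiv ℝ (fun x => (Jm (tr e c c') x).det ^ m) z v, fun s hs => ?_⟩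
  have h1 : HasFDerivAt (fun x => (Jm (tr e c c') x).det ^ m)
      (fderiv ℝ (fun x => (Jm (tr e c c') x).det ^ m) z) z := (NF.diffAt ho hD hz).hasFDerivAt
  have h2 : HasFDerivAt (s c) (fderiv ℝ (s c) z) z :=
    (NF.diffAt (e c).open_target (hs.holo c).1 hz.1).hasFDerivAt
  have h3 : HasFDerivAt (fun x => s c' (tr e c c' x))
      ((fderiv ℝ (s c') (tr e c c' z)).comp (fderiv ℝ (tr e c c') z)) z :=
    (NF.diffAt (e c').open_target (hs.holo c').1 (tr_mem_target hz)).hasFDerivAt.comp z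
      (HolOn.differentiableAt ho (he c c') hz).hasFDerivAt
  have h4 : (fun x => s c' (tr e c c' x)) =ᶠ[𝓝 z]
      fun x => (Jm (tr e c c') x).det ^ m * s c x := by
    filter_upwards [ho.mem_nhds hz] with x hx using hs.compat c c' x hx
  have h5 := (h3.congr_of_eventuallyEq h4.symm).unique (h1.fun_mul h2)
  have h6 := DFunLike.congr_fun h5 v
  simp only [ContinuousLinearMap.comp_apply, add_apply, smul_apply, smul_eq_mul] at h6
  rw [h6]
  ring

end

end Loc

section Main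

variable {M : Type} [TopologicalSpace M] [T2Space M] {n : ℕ} {κ : Type}
  {e : κ → OpenPartialHomeomorph M (Cn n)} {V : Set M} {w : κ → Cn n → ℝ}

/-- B7a: sections that embed a neighbourhood of `p` -/
theorem exists_local (h0 : L2D e V w (kf w)) {m : ℕ} {p : M} {c : κ} (hp : p ∈ (e c).source)
    (hjet : ∀ (a₀ : ℂ) (a : Fin n → ℂ) (δ : ℝ), 0 < δ → ∃ s, IsSect e m s ∧
      ‖s c (e c p) - a₀‖ ≤ δ ∧ ∀ i, ‖dz i (s c) (e c p) - a i‖ ≤ δ) :
    ∃ (S : Set M) (s : Fin (n + 1) → κ → Cn n → ℂ), IsOpen S ∧ p ∈ S ∧ IsEmbK e S m s := by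
  obtain ⟨δ₀, hδ₀, hdet⟩ := Loc.exists_delta (n + 1)
  set δ : ℝ := min δ₀ (1 / 2) with hδ
  have hδ0 : 0 < δ := lt_min hδ₀ (by norm_num)
  choose s hs hs0 hs1 using fun i : Fin (n + 1) =>
    hjet ((1 : Matrix (Fin (n + 1)) (Fin (n + 1)) ℂ) i 0)
      (fun j => (1 : Matrix (Fin (n + 1)) (Fin (n + 1)) ℂ) i j.succ) δ hδ0
  set x₀ := e c p with hx₀
  have hx₀t : x₀ ∈ (e c).target := (e c).map_source hp
  have hot := (e c).open_target
  have hhol : ∀ i, NF.HolC (s i c) (e c).target := fun i => (hs i).holo c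
  set J : Cn n → Matrix (Fin (n + 1)) (Fin (n + 1)) ℂ := Loc.jm fun i => s i c with hJ
  have hJ0 : (J x₀).det ≠ 0 := by
    refine hdet _ fun i k => ?_
    refine Fin.cases ?_ (fun j => ?_) k
    · exact (hs0 i).trans (min_le_left _ _)
    · exact (hs1 i j).trans (min_le_left _ _)
  have hne : s 0 c x₀ ≠ 0 := by
    intro h
    have h1 := (hs0 0).trans (min_le_right _ _)
    rw [h, Matrix.one_apply_eq, zero_sub, norm_neg, norm_one] at h1
    norm_num at h1
  -- the quotients of the sections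
  set g : Cn n → Fin n → ℂ := fun z i => s i.succ c z / s 0 c z with hg
  set G : Fin n → Cn n →L[ℝ] ℂ := fun i => fderiv ℝ (fun z => s i.succ c z / s 0 c z) x₀ with hG
  have hcd : ∀ i, ContDiffAt ℝ ∞ (s i c) x₀ := fun i => (hhol i).1.contDiffAt (hot.mem_nhds hx₀t)
  have hq : ∀ i : Fin n, HasStrictFDerivAt (fun z => s i.succ c z / s 0 c z) (G i) x₀ := fun i =>
    (((hcd i.succ).mul ((hcd 0).inv hne)).congr_of_eventuallyEq
      (Eventually.of_forall fun z => div_eq_mul_inv _ _)).hasStrictFDerivAt (by simp)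
  have hgs : HasStrictFDerivAt g (ContinuousLinearMap.pi G) x₀ := hasStrictFDerivAt_pi.2 hq
  have hginj : ∀ v, ContinuousLinearMap.pi G v = 0 → v = 0 := by
    intro v hv
    have hGv : ∀ i, G i v = 0 := fun i => congrFun hv i
    refine Loc.imm_of_det (a := fderiv ℝ (s 0 c) x₀ v / s 0 c x₀) hhol hx₀t hJ0 fun i => ?_
    refine Fin.cases ?_ (fun i => ?_) i
    · field_simp
    · have h1 : HasFDerivAt (s 0 c) (fderiv ℝ (s 0 c) x₀) x₀ :=
        (NF.diffAt hot (hhol 0).1 hx₀t).hasFDerivAt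
      have h2 : HasFDerivAt (s i.succ c) (fderiv ℝ (s i.succ c) x₀) x₀ :=
        (NF.diffAt hot (hhol i.succ).1 hx₀t).hasFDerivAt
      have h3 := (hq i).hasFDerivAt.fun_mul h1
      have h4 : (fun z => s i.succ c z / s 0 c z * s 0 c z) =ᶠ[𝓝 x₀] s i.succ c := by
        filter_upwards [(hcd 0).continuousAt.eventually_ne hne] with z hz
        exact div_mul_cancel₀ _ hz
      have h5 := (h3.congr_of_eventuallyEq h4.symm).unique h2
      have h6 := DFunLike.congr_fun h5 v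
      simp only [add_apply, smul_apply, smul_eq_mul, hGv i] at h6
      rw [← h6]
      field_simp
      ring
  obtain ⟨N, hN, hNinj⟩ := Loc.exists_injOn hgs hginj
  -- the neighbourhood
  have hcJ := Loc.jm_cont hot hhol
  have hN1 : {z | z ∈ (e c).target ∧ s 0 c z ≠ 0 ∧ (J z).det ≠ 0} ∈ 𝓝 x₀ := by
    filter_upwards [hot.mem_nhds hx₀t, (hcd 0).continuousAt.eventually_ne hne,
      (hcJ.continuousAt (hot.mem_nhds hx₀t)).eventually_ne hJ0] with z h1 h2 h3
    exact ⟨h1, h2, h3⟩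
  obtain ⟨O, hOsub, hO, hxO⟩ := mem_nhds_iff.1 (inter_mem hN hN1)
  refine ⟨(e c).source ∩ e c ⁻¹' O, s, (e c).isOpen_inter_preimage hO, ⟨hp, hxO⟩, ?_⟩
  have hdom : ∀ c', ∀ z ∈ (e c').target, (e c').symm z ∈ (e c).source ∩ e c ⁻¹' O →
      z ∈ dom e c' c ∧ tr e c' c z ∈ O := fun c' z hz h => ⟨⟨hz, h.1⟩, h.2⟩
  have hpow : ∀ {c' : κ} {z : Cn n}, z ∈ dom e c' c → (Jm (tr e c' c) z).det ^ m ≠ 0 :=
    fun hz => pow_ne_zero m (Loc.det_ne h0.holo hz)
  refine ⟨hs, ?_, ?_, ?_⟩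
  · intro c' z hz hzS
    obtain ⟨hd, hy⟩ := hdom c' z hz hzS
    refine ⟨0, fun h => (hOsub hy).2.2.1 ?_⟩
    rw [(hs 0).compat c' c z hd, h, mul_zero]
  · rintro c' z hz hzS v ⟨a, ha⟩
    obtain ⟨hd, hy⟩ := hdom c' z hz hzS
    obtain ⟨b, hb⟩ := Loc.fderiv_sect (m := m) h0.holo hd v
    refine Loc.fderiv_tr_inj h0.holo hd ?_
    refine Loc.imm_of_det (a := b / (Jm (tr e c' c) z).det ^ m + a) hhol (hOsub hy).2.1
      (hOsub hy).2.2.2 fun i => ?_
    rw [hb (s i) (hs i), ha i, (hs i).compat c' c z hd]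
    have := hpow hd
    field_simp
  · rintro c' z hz hzS c'' z' hz' hzS' ⟨a, ha⟩
    obtain ⟨hd, hy⟩ := hdom c' z hz hzS
    obtain ⟨hd', hy'⟩ := hdom c'' z' hz' hzS'
    set b : ℂ := (Jm (tr e c' c) z).det ^ m * a / (Jm (tr e c'' c) z').det ^ m with hb
    have h1 : ∀ i, s i c (tr e c' c z) = b * s i c (tr e c'' c z') := by
      intro i
      rw [(hs i).compat c' c z hd, (hs i).compat c'' c z' hd', ha i, hb]
      have := hpow hd'
      field_simp
    have hb0 : b ≠ 0 := by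
      intro h
      apply (hOsub hy).2.2.1
      rw [h1 0, h, zero_mul]
    have h2 : g (tr e c' c z) = g (tr e c'' c z') := by
      funext i
      simp only [hg]
      rw [h1 i.succ, h1 0, mul_div_mul_left _ _ hb0]
    have h3 := hNinj (hOsub hy).1 (hOsub hy').1 h2
    rw [← symm_tr hd, h3, symm_tr hd']

end Main

end Pool.Agent.KRFKo

end

section

/-!
# The map to the projective space given by sections (helper52)
-/

open scoped ContDiff Topology LinearAlgebra.Projectivization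
open Set MeasureTheory Filter Pool.Agent.ToricKRF Pool.Agent.ToricKRF.G Pool.Agent.KRFS
  Pool.Agent.KRFF Pool.Agent.KRFQ Pool.Agent.KRFZ

namespace Pool.Agent.KRFKo

namespace NE

/-- the point of `Cn L` with the coordinates `v` -/
def ofC {L : ℕ} (v : Fin L → ℂ) : Cn L := (fun i => (v i).re, fun i => (v i).im)

theorem cc_ofC {L : ℕ} (v : Fin L → ℂ) : cc (ofC v) = v := by
  funext i
  apply Complex.ext <;> rfl

theorem hasFDerivAt_ofC {n L : ℕ} {s : Fin L → Cn n → ℂ} {x : Cn n}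
    (hs : ∀ i, DifferentiableAt ℝ (s i) x) :
    ∃ F' : Cn n →L[ℝ] Cn L, HasFDerivAt (fun z => ofC fun i => s i z) F' x ∧
      ∀ v, F' v = ofC fun i => fderiv ℝ (s i) x v := by
  have h1 : HasFDerivAt (fun z => fun i => (s i z).re)
      (ContinuousLinearMap.pi fun i => Complex.reCLM.comp (fderiv ℝ (s i) x)) x :=
    hasFDerivAt_pi.2 fun i => Complex.reCLM.hasFDerivAt.comp x (hs i).hasFDerivAt
  have h2 : HasFDerivAt (fun z => fun i => (s i z).im)
      (ContinuousLinearMap.pi fun i => Complex.imCLM.comp (fderiv ℝ (s i) x)) x :=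
    hasFDerivAt_pi.2 fun i => Complex.imCLM.hasFDerivAt.comp x (hs i).hasFDerivAt
  exact ⟨_, h1.prodMk h2, fun v => rfl⟩

theorem holOn_ofC {n L : ℕ} {s : Fin L → Cn n → ℂ} {W : Set (Cn n)} (hW : IsOpen W)
    (hs : ∀ i, NF.HolC (s i) W) : HolOn (fun z => ofC fun i => s i z) W := by
  refine ⟨?_, fun z hz u => ?_⟩
  · have h1 : ContDiffOn ℝ ∞ (fun z => fun i => (s i z).re) W :=
      contDiffOn_pi.2 fun i => Complex.reCLM.contDiff.comp_contDiffOn (hs i).1
    have h2 : ContDiffOn ℝ ∞ (fun z => fun i => (s i z).im) W :=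
      contDiffOn_pi.2 fun i => Complex.imCLM.contDiff.comp_contDiffOn (hs i).1
    exact h1.prodMk h2
  · obtain ⟨F', hF', hv⟩ := hasFDerivAt_ofC (s := s) (x := z)
      fun i => NF.diffAt hW (hs i).1 hz
    rw [hF'.fderiv, hv, hv]
    refine Prod.ext ?_ ?_ <;> funext i
    · change (fderiv ℝ (s i) z (J u)).re = -(fderiv ℝ (s i) z u).im
      rw [(hs i).2 z hz u]
      simp
    · change (fderiv ℝ (s i) z (J u)).im = (fderiv ℝ (s i) z u).re
      rw [(hs i).2 z hz u]
      simp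

end NE

open NE

section

variable {M Z : Type} [MetricSpace M] [CompactSpace M] [MetricSpace Z] {n N : ℕ} {κ P : Type}
  {e : κ → OpenPartialHomeomorph M (Cn n)} {U : P → Set Z} {q : P → Z → Cn N} {f : M → Z}

omit [CompactSpace M] in
/-- B8b: the map to the projective space -/
theorem isEmbOver_of (he : IsAtlas e) {V K' : Set M} (hV : IsOpen V) (hK : K' ⊆ V) {S : Set Z}
    (hS : f ⁻¹' S ⊆ K') (hSo : IsOpen (f ⁻¹' S)) {m L : ℕ}
    {s : Fin (L + 1) → κ → Cn n → ℂ} (hs : IsEmbK (rs e hV) K' m s) :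
    ∃ ι : M → ℙ ℂ (Fin (L + 1) → ℂ), IsEmbOver e U q f S ι := by
  classical
  -- the value of the sections in a chart
  set val : κ → M → Fin (L + 1) → ℂ := fun c p i => s i c (e c p) with hval
  have h1ne : (fun _ : Fin (L + 1) => (1 : ℂ)) ≠ 0 := fun h => one_ne_zero (congrFun h 0)
  set ι : M → ℙ ℂ (Fin (L + 1) → ℂ) := fun p =>
    if h : ∃ c, p ∈ (e c).source ∧ val c p ≠ 0 then
      Projectivization.mk ℂ (val h.choose p) h.choose_spec.2
    else Projectivization.mk ℂ _ h1ne with hι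
  have hrs : ∀ {c : κ} {z : Cn n}, z ∈ (e c).target → (e c).symm z ∈ K' →
      z ∈ (rs e hV c).target := fun {c z} hz hzK =>
    (mem_rs_target hV c).2 ⟨hz, hK hzK⟩
  have hne : ∀ {c : κ} {p : M}, p ∈ (e c).source → p ∈ K' → val c p ≠ 0 := by
    intro c p hp hpK h0
    have h1 : (e c).symm (e c p) = p := (e c).left_inv hp
    obtain ⟨i, hi⟩ := hs.ne c (e c p) (hrs ((e c).map_source hp) (by rwa [h1]))
      (by change (e c).symm (e c p) ∈ K'; rwa [h1])
    exact hi (congrFun h0 i)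
  -- the value in two charts
  have hιp : ∀ {c : κ} {p : M} (hp : p ∈ (e c).source) (hpK : p ∈ K'),
      ι p = Projectivization.mk ℂ (val c p) (hne hp hpK) := by
    intro c p hp hpK
    have h : ∃ c, p ∈ (e c).source ∧ val c p ≠ 0 := ⟨c, hp, hne hp hpK⟩
    have h1 : ι p = Projectivization.mk ℂ (val h.choose p) h.choose_spec.2 := by
      rw [hι]
      simp only [dif_pos h]
    rw [h1, Projectivization.mk_eq_mk_iff']
    set c' := h.choose with hc'
    have hp' : p ∈ (e c').source := h.choose_spec.1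
    have h2 : (e c).symm (e c p) = p := (e c).left_inv hp
    have hdom : e c p ∈ dom (rs e hV) c c' := by
      refine ⟨hrs ((e c).map_source hp) (by rwa [h2]), ?_⟩
      change (e c).symm (e c p) ∈ (rs e hV c').source
      rw [rs_source, h2]
      exact ⟨hp', hK hpK⟩
    refine ⟨(Jm (tr (rs e hV) c c') (e c p)).det ^ m, ?_⟩
    funext i
    have h3 := (hs.sect i).compat c c' (e c p) hdom
    have h4 : tr (rs e hV) c c' (e c p) = e c' p := by
      change e c' ((e c).symm (e c p)) = e c' p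
      rw [h2]
    rw [h4] at h3
    exact h3.symm
  refine ⟨ι, ⟨fun c x hx hxS => ?_, fun p p' hp hpp' hιpp' => ?_⟩⟩
  · -- the lifts
    set W : Set (Cn n) := (e c).target ∩ (e c).symm ⁻¹' (f ⁻¹' S) with hW
    have hWo : IsOpen W := (e c).isOpen_inter_preimage_symm hSo
    have hWr : W ⊆ (rs e hV c).target := fun z hz => hrs hz.1 (hS hz.2)
    have hhol : ∀ i, NF.HolC (s i c) W := fun i =>
      ⟨((hs.sect i).holo c).1.mono hWr, fun z hz u => ((hs.sect i).holo c).2 z (hWr hz) u⟩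
    refine ⟨fun z => ofC fun i => s i c z, W, ⟨hx, hxS⟩, ⟨hWo, fun z hz => hz.1,
      holOn_ofC hWo hhol, fun z hz => ?_⟩, fun j hj v hv hab => ?_⟩
    · have hzs : (e c).symm z ∈ (e c).source := (e c).map_target hz.1
      have h1 := hιp hzs (hS hz.2)
      have h2 : val c ((e c).symm z) = cc (ofC fun i => s i c z) := by
        rw [cc_ofC]
        funext i
        simp only [hval]
        rw [(e c).right_inv hz.1]
      refine ⟨h2 ▸ hne hzs (hS hz.2), ?_⟩
      rw [h1]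
      congr 1
    · obtain ⟨a, b, hab⟩ := hab
      obtain ⟨F', hF', hv'⟩ := hasFDerivAt_ofC (s := fun i => s i c) (x := x)
        fun i => NF.diffAt hWo (hhol i).1 ⟨hx, hxS⟩
      rw [hF'.fderiv, hv'] at hab
      refine hs.imm c x (hWr ⟨hx, hxS⟩) (hS hxS) v ⟨⟨a, b⟩, fun i => ?_⟩
      have h1 := congrArg (fun y => cc y i) hab
      simp only [cc_ofC] at h1
      rw [h1]
      apply Complex.ext <;> simp [cc, ofC, J] <;> ring
  · -- injectivity
    have hpK : p ∈ K' := hS hp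
    have hpK' : p' ∈ K' := hS (by rw [mem_preimage, ← hpp']; exact hp)
    obtain ⟨c, hc⟩ := he.cover p
    obtain ⟨c', hc'⟩ := he.cover p'
    rw [hιp hc hpK, hιp hc' hpK', Projectivization.mk_eq_mk_iff'] at hιpp'
    obtain ⟨a, ha⟩ := hιpp'
    have h1 : (e c).symm (e c p) = p := (e c).left_inv hc
    have h2 : (e c').symm (e c' p') = p' := (e c').left_inv hc'
    have h3 := hs.inj c (e c p) (hrs ((e c).map_source hc) (by rwa [h1]))
      (by change (e c).symm (e c p) ∈ K'; rwa [h1]) c' (e c' p')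
      (hrs ((e c').map_source hc') (by rwa [h2]))
      (by change (e c').symm (e c' p') ∈ K'; rwa [h2])
      ⟨a, fun i => (congrFun ha i).symm⟩
    change (e c).symm (e c p) = (e c').symm (e c' p') at h3
    rwa [h1, h2] at h3

end

end Pool.Agent.KRFKo

end
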