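import Pool.Agent.Work.MP_a2bf38_gt.Fu.Ext.MP_0e9e72_an.SCVA
import Pool.Agent.Work.MP_a2bf38_gt.Fu.Ko.Defs
import Pool.Agent.Work.MP_a2bf38_gt.Fu.Lj.Defs

section

/-!
# Fourier coefficients on the circles of the punctured plane

`lc m F` is the coefficient of `ξ ^ m` in the Laurent expansion of the holomorphic function `F` on
`ℂ - 0`.
-/

open MeasureTheory Set Metric Real Topology Filter
open scoped ENNReal

namespace Pool.Agent.KRFKo

/-- the coefficient of `ξ ^ m` -/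
noncomputable def lc (m : ℕ) (F : ℂ → ℂ) : ℂ := circleAverage (fun t => (t ^ m)⁻¹ * F t) 0 1

theorem differentiableOn_mul_inv {m : ℕ} {F : ℂ → ℂ} (hF : DifferentiableOn ℂ F {0}ᶜ) :
    DifferentiableOn ℂ (fun t => (t ^ m)⁻¹ * F t) {0}ᶜ :=
  ((differentiableOn_pow m).inv fun _ ht => pow_ne_zero _ ht).mul hF

/-- the circle mean does not depend on the radius -/
theorem circleAverage_eq_lc {m : ℕ} {F : ℂ → ℂ} (hF : DifferentiableOn ℂ F {0}ᶜ) {R : ℝ}
    (hR : 0 < R) : circleAverage (fun t => (t ^ m)⁻¹ * F t) 0 R = lc m F := by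
  have hd := differentiableOn_mul_inv (m := m) hF
  have key : ∀ r R' : ℝ, 0 < r → r ≤ R' →
      circleAverage (fun t => (t ^ m)⁻¹ * F t) 0 R' =
        circleAverage (fun t => (t ^ m)⁻¹ * F t) 0 r := by
    intro r R' hr hR'
    rw [circleAverage_eq_circleIntegral (hr.trans_le hR').ne',
      circleAverage_eq_circleIntegral hr.ne']
    congr 1
    refine Complex.circleIntegral_sub_center_inv_smul_eq_of_differentiable_on_annulus_off_countable
      hr hR' countable_empty ?_ ?_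
    · refine hd.continuousOn.mono fun z hz => ?_
      intro h0
      apply hz.2
      rw [mem_singleton_iff.1 h0]
      exact mem_ball_self hr
    · intro z hz
      refine (hd z ?_).differentiableAt (isOpen_compl_singleton.mem_nhds ?_) <;>
      · intro h0
        apply hz.1.2
        rw [mem_singleton_iff.1 h0]
        exact mem_closedBall_self hr.le
  rw [lc]
  rcases le_total R 1 with h | h
  · exact (key R 1 hR h).symm
  · exact key 1 R one_pos h

theorem circleMap_ne {R : ℝ} (hR : 0 < R) (θ : ℝ) : circleMap 0 R θ ≠ 0 := circleMap_ne_center hR.ne'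

theorem continuous_comp_circle {F : ℂ → ℂ} (hF : ContinuousOn F {0}ᶜ) {R : ℝ} (hR : 0 < R) :
    Continuous fun θ : ℝ => F (circleMap 0 R θ) :=
  hF.comp_continuous (continuous_circleMap 0 R) fun θ => circleMap_ne hR θ

/-- the circle mean of `u - ξ ^ (-m) F` -/
theorem circleAverage_sub {m : ℕ} {F : ℂ → ℂ} (hF : DifferentiableOn ℂ F {0}ᶜ) {R : ℝ}
    (hR : 0 < R) (u : ℂ) : circleAverage (fun t => u - (t ^ m)⁻¹ * F t) 0 R = u - lc m F := by
  have hd := differentiableOn_mul_inv (m := m) hF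
  rw [← circleAverage_eq_lc hF hR, circleAverage_def, circleAverage_def]
  have h1 : IntervalIntegrable (fun θ : ℝ => (fun t : ℂ => (t ^ m)⁻¹ * F t) (circleMap 0 R θ)) volume 0 (2 * π) :=
    (continuous_comp_circle hd.continuousOn hR).intervalIntegrable _ _
  rw [intervalIntegral.integral_sub intervalIntegrable_const h1, smul_sub]
  congr 1
  rw [intervalIntegral.integral_const, sub_zero, smul_smul, inv_mul_cancel₀ (by positivity), one_smul]

/-- Jensen's inequality on the circle -/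
theorem norm_sub_lc_sq_le {m : ℕ} {F : ℂ → ℂ} (hF : DifferentiableOn ℂ F {0}ᶜ) {R : ℝ}
    (hR : 0 < R) (u : ℂ) : 2 * π * ‖u - lc m F‖ ^ 2 ≤
      ∫ θ in (0 : ℝ)..2 * π, ‖u - ((circleMap 0 R θ) ^ m)⁻¹ * F (circleMap 0 R θ)‖ ^ 2 := by
  have hd := differentiableOn_mul_inv (m := m) hF
  set g : ℝ → ℂ := fun θ => u - ((circleMap 0 R θ) ^ m)⁻¹ * F (circleMap 0 R θ) with hg
  have hgc : Continuous g := continuous_const.sub (continuous_comp_circle hd.continuousOn hR)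
  have h1 : ∫ θ in (0 : ℝ)..2 * π, g θ = (2 * π) • (u - lc m F) := by
    have := circleAverage_sub (m := m) hF hR u
    rw [circleAverage_def] at this
    rw [← this, smul_smul, mul_inv_cancel₀ (by positivity), one_smul]
  set a : ℝ := ‖u - lc m F‖ with ha
  have h2 : 2 * π * a ≤ ∫ θ in (0 : ℝ)..2 * π, ‖g θ‖ := by
    have := intervalIntegral.norm_integral_le_integral_norm (f := g) (μ := volume)
      (a := 0) (b := 2 * π) (by positivity)
    rw [h1, norm_smul, Real.norm_eq_abs, abs_of_pos (by positivity)] at this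
    exact this
  have h3 : ∫ θ in (0 : ℝ)..2 * π, (2 * a * ‖g θ‖ - a ^ 2) ≤ ∫ θ in (0 : ℝ)..2 * π, ‖g θ‖ ^ 2 := by
    refine intervalIntegral.integral_mono_on (by positivity) ?_ ?_ fun θ _ => ?_
    · exact (by fun_prop : Continuous fun θ => 2 * a * ‖g θ‖ - a ^ 2).intervalIntegrable _ _
    · exact (by fun_prop : Continuous fun θ => ‖g θ‖ ^ 2).intervalIntegrable _ _
    · nlinarith [sq_nonneg (‖g θ‖ - a)]
  rw [intervalIntegral.integral_sub
    ((by fun_prop : Continuous fun θ => 2 * a * ‖g θ‖).intervalIntegrable _ _)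
    intervalIntegrable_const, intervalIntegral.integral_const_mul,
    intervalIntegral.integral_const, sub_zero, smul_eq_mul] at h3
  have ha0 : 0 ≤ a := norm_nonneg _
  nlinarith [mul_le_mul_of_nonneg_left h2 ha0]

/-- the lower integral over `(-π, π)` is the integral over `(0, 2 π)` -/
theorem lintegral_Ioo_eq {g : ℂ → ℝ} (hg : ContinuousOn g {0}ᶜ) (hg0 : ∀ z, 0 ≤ g z) {R : ℝ}
    (hR : 0 < R) : ∫⁻ θ in Ioo (-π) π, ENNReal.ofReal (g (circleMap 0 R θ)) =
      ENNReal.ofReal (∫ θ in (0 : ℝ)..2 * π, g (circleMap 0 R θ)) := by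
  have hc : Continuous fun θ : ℝ => g (circleMap 0 R θ) :=
    hg.comp_continuous (continuous_circleMap 0 R) fun θ => circleMap_ne hR θ
  have hper : Function.Periodic (fun θ : ℝ => g (circleMap 0 R θ)) (2 * π) := by
    intro θ
    simp only [periodic_circleMap 0 R θ]
  have h1 := hper.intervalIntegral_add_eq 0 (-π)
  have h2 : -π + 2 * π = π := by ring
  rw [zero_add, h2] at h1
  rw [h1, intervalIntegral.integral_of_le (by linarith [pi_pos]), integral_Ioc_eq_integral_Ioo,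
    ofReal_integral_eq_lintegral_ofReal]
  · exact ((hc.integrableOn_Icc (a := -π) (b := π)).mono_set Ioo_subset_Icc_self)
  · exact Eventually.of_forall fun _ => hg0 _

theorem polar_symm (p : ℝ × ℝ) : Complex.polarCoord.symm p = circleMap 0 p.1 p.2 := by
  rw [Complex.polarCoord_symm_apply, circleMap, zero_add, Complex.exp_mul_I]
  push_cast
  ring

/-- polar coordinates -/
theorem lintegral_polar {f : ℂ → ℝ≥0∞} (hf : Measurable f) :
    ∫⁻ z, f z = ∫⁻ ρ in Ioi (0 : ℝ), ENNReal.ofReal ρ * ∫⁻ θ in Ioo (-π) π, f (circleMap 0 ρ θ) := by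
  rw [← Complex.lintegral_comp_polarCoord_symm f]
  have h1 : (polarCoord.target) = Ioi (0 : ℝ) ×ˢ Ioo (-π) π := rfl
  rw [h1, Measure.volume_eq_prod, ← Measure.prod_restrict, lintegral_prod]
  · refine lintegral_congr fun ρ => ?_
    rw [← lintegral_const_mul']
    · refine lintegral_congr fun θ => ?_
      rw [polar_symm, smul_eq_mul]
    · exact ENNReal.ofReal_ne_top
  · refine Measurable.aemeasurable ?_
    have : (fun p : ℝ × ℝ => ENNReal.ofReal p.1 • f (Complex.polarCoord.symm p)) =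
        fun p => ENNReal.ofReal p.1 * f (circleMap 0 p.1 p.2) := by
      funext p; rw [polar_symm, smul_eq_mul]
    rw [this]
    refine (ENNReal.measurable_ofReal.comp measurable_fst).mul (hf.comp ?_)
    have : Continuous fun p : ℝ × ℝ => circleMap 0 p.1 p.2 := by
      unfold circleMap
      fun_prop
    exact this.measurable

/-- the radial integral -/
theorem lintegral_radial {w : ℝ} (hw : 0 < w) :
    ∫⁻ ρ in Ioi (0 : ℝ), ENNReal.ofReal (ρ * ((1 + ρ ^ 2 / w) ^ 2)⁻¹) = ENNReal.ofReal (w / 2) := by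
  have hpos : ∀ ρ : ℝ, 0 < 1 + ρ ^ 2 / w := fun ρ => by positivity
  have hd : ∀ ρ ∈ Ioi (0 : ℝ), HasDerivAt (fun ρ : ℝ => -(w / 2) * (1 + ρ ^ 2 / w)⁻¹)
      (ρ * ((1 + ρ ^ 2 / w) ^ 2)⁻¹) ρ := by
    intro ρ _
    have h1 : HasDerivAt (fun ρ : ℝ => 1 + ρ ^ 2 / w) (2 * ρ / w) ρ := by
      have := ((hasDerivAt_pow 2 ρ).div_const w).const_add 1
      simpa using this
    have h2 := (h1.inv (hpos ρ).ne').const_mul (-(w / 2))
    have h3 : -(w / 2) * (-(2 * ρ / w) / (1 + ρ ^ 2 / w) ^ 2) = ρ * ((1 + ρ ^ 2 / w) ^ 2)⁻¹ := by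
      rw [div_eq_mul_inv (-(2 * ρ / w)), ← mul_assoc]
      congr 1
      field_simp
    rw [← h3]
    exact h2
  have hc : ContinuousWithinAt (fun ρ : ℝ => -(w / 2) * (1 + ρ ^ 2 / w)⁻¹) (Ici 0) 0 := by
    have : Continuous fun ρ : ℝ => -(w / 2) * (1 + ρ ^ 2 / w)⁻¹ :=
      continuous_const.mul (Continuous.inv₀ (by fun_prop) fun ρ => (hpos ρ).ne')
    exact this.continuousWithinAt
  have ht : Tendsto (fun ρ : ℝ => -(w / 2) * (1 + ρ ^ 2 / w)⁻¹) atTop (𝓝 0) := by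
    have h1 : Tendsto (fun ρ : ℝ => 1 + ρ ^ 2 / w) atTop atTop := by
      refine tendsto_atTop_add_const_left _ _ ?_
      exact (tendsto_pow_atTop two_ne_zero).atTop_div_const hw
    have := (tendsto_inv_atTop_zero.comp h1).const_mul (-(w / 2))
    simpa using this
  have hn : ∀ ρ ∈ Ioi (0 : ℝ), 0 ≤ ρ * ((1 + ρ ^ 2 / w) ^ 2)⁻¹ := fun ρ hρ => by
    have : (0 : ℝ) < ρ := hρ
    positivity
  have h1 := integral_Ioi_of_hasDerivAt_of_nonneg hc hd hn ht
  have h2 := integrableOn_Ioi_deriv_of_nonneg hc hd hn ht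
  rw [← ofReal_integral_eq_lintegral_ofReal h2
    ((ae_restrict_iff' measurableSet_Ioi).2 (Eventually.of_forall hn)), h1]
  congr 1
  simp

/-- **The weighted integral over the punctured plane**, for a function `g` on the circles. -/
theorem lintegral_weight {w c : ℝ} (hw : 0 < w) :
    ∫⁻ ρ in Ioi (0 : ℝ), ENNReal.ofReal ρ *
      (ENNReal.ofReal ((1 + ρ ^ 2 / w) ^ 2)⁻¹ * ENNReal.ofReal (2 * π * c)) =
      ENNReal.ofReal (π * w * c) := by
  have h1 : ∀ ρ ∈ Ioi (0 : ℝ), ENNReal.ofReal ρ *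
      (ENNReal.ofReal ((1 + ρ ^ 2 / w) ^ 2)⁻¹ * ENNReal.ofReal (2 * π * c)) =
      ENNReal.ofReal (ρ * ((1 + ρ ^ 2 / w) ^ 2)⁻¹) * ENNReal.ofReal (2 * π * c) := by
    intro ρ hρ
    have : (0 : ℝ) < ρ := hρ
    rw [← mul_assoc, ← ENNReal.ofReal_mul this.le]
  rw [setLIntegral_congr_fun measurableSet_Ioi h1, lintegral_mul_const' _ _ ENNReal.ofReal_ne_top,
    lintegral_radial hw, ← ENNReal.ofReal_mul (by positivity)]
  congr 1
  ring

theorem measurable_of_diff {F : ℂ → ℂ} (hF : ContinuousOn F {0}ᶜ) : Measurable F :=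
  measurable_of_continuousOn_compl_singleton 0 hF

/-- **The component of degree `m`**: the square of the distance of `u` to the coefficient `lc m F`
is at most the weighted square integral of `u ξ ^ m - F`. -/
theorem le_lintegral {m : ℕ} {F : ℂ → ℂ} (hF : DifferentiableOn ℂ F {0}ᶜ) (u : ℂ) {w : ℝ}
    (hw : 0 < w) : ENNReal.ofReal (π * w ^ (m + 1) * ‖u - lc m F‖ ^ 2) ≤
      ∫⁻ ξ : ℂ, ENNReal.ofReal (‖u * ξ ^ m - F ξ‖ ^ 2 * (w / ‖ξ‖ ^ 2) ^ m *
        ((1 + ‖ξ‖ ^ 2 / w) ^ 2)⁻¹) := by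
  have hd := differentiableOn_mul_inv (m := m) hF
  have hmeas : Measurable fun ξ : ℂ => ENNReal.ofReal (‖u * ξ ^ m - F ξ‖ ^ 2 * (w / ‖ξ‖ ^ 2) ^ m *
        ((1 + ‖ξ‖ ^ 2 / w) ^ 2)⁻¹) := by
    have hFm := measurable_of_diff hF.continuousOn
    refine ENNReal.measurable_ofReal.comp ?_
    fun_prop
  rw [lintegral_polar hmeas]
  have h0 : ENNReal.ofReal (π * w ^ (m + 1) * ‖u - lc m F‖ ^ 2) =
      ∫⁻ ρ in Ioi (0 : ℝ), ENNReal.ofReal ρ * (ENNReal.ofReal ((1 + ρ ^ 2 / w) ^ 2)⁻¹ *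
        ENNReal.ofReal (2 * π * (w ^ m * ‖u - lc m F‖ ^ 2))) := by
    rw [lintegral_weight hw]
    congr 1
    ring
  rw [h0]
  refine setLIntegral_mono' measurableSet_Ioi fun ρ hρ => ?_
  have hρ0 : (0 : ℝ) < ρ := hρ
  refine mul_le_mul_right ?_ _
  have hg : ContinuousOn (fun t : ℂ => ‖u - (t ^ m)⁻¹ * F t‖ ^ 2) {0}ᶜ :=
    ((continuousOn_const.sub hd.continuousOn).norm).pow 2
  have h1 : ∀ θ : ℝ, ENNReal.ofReal (‖u * (circleMap 0 ρ θ) ^ m - F (circleMap 0 ρ θ)‖ ^ 2 *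
      (w / ‖circleMap 0 ρ θ‖ ^ 2) ^ m * ((1 + ‖circleMap 0 ρ θ‖ ^ 2 / w) ^ 2)⁻¹) =
      ENNReal.ofReal (w ^ m * ((1 + ρ ^ 2 / w) ^ 2)⁻¹) *
        ENNReal.ofReal (‖u - ((circleMap 0 ρ θ) ^ m)⁻¹ * F (circleMap 0 ρ θ)‖ ^ 2) := by
    intro θ
    have hne := circleMap_ne hρ0 θ
    have hn : ‖circleMap 0 ρ θ‖ = ρ := by rw [norm_circleMap_zero, abs_of_pos hρ0]
    generalize circleMap 0 ρ θ = t at hne hn
    rw [← ENNReal.ofReal_mul (by positivity)]
    congr 1
    have h2 : ‖u - (t ^ m)⁻¹ * F t‖ = ‖u * t ^ m - F t‖ / ‖t‖ ^ m := by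
      rw [← norm_pow, ← norm_div]
      congr 1
      field_simp
    rw [h2, hn, div_pow, div_pow, ← pow_mul, ← pow_mul]
    field_simp
    try ring
  calc ENNReal.ofReal ((1 + ρ ^ 2 / w) ^ 2)⁻¹ * ENNReal.ofReal (2 * π * (w ^ m * ‖u - lc m F‖ ^ 2))
      = ENNReal.ofReal (w ^ m * ((1 + ρ ^ 2 / w) ^ 2)⁻¹) *
          ENNReal.ofReal (2 * π * ‖u - lc m F‖ ^ 2) := by
        rw [← ENNReal.ofReal_mul (by positivity), ← ENNReal.ofReal_mul (by positivity)]
        congr 1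
        ring
    _ ≤ ENNReal.ofReal (w ^ m * ((1 + ρ ^ 2 / w) ^ 2)⁻¹) * ∫⁻ θ in Ioo (-π) π,
          ENNReal.ofReal (‖u - ((circleMap 0 ρ θ) ^ m)⁻¹ * F (circleMap 0 ρ θ)‖ ^ 2) := by
        refine mul_le_mul_right ?_ _
        rw [lintegral_Ioo_eq (g := fun t : ℂ => ‖u - (t ^ m)⁻¹ * F t‖ ^ 2) hg
          (fun _ => by positivity) hρ0]
        exact ENNReal.ofReal_le_ofReal (norm_sub_lc_sq_le hF hρ0 u)
    _ = _ := by
        rw [← lintegral_const_mul' _ _ ENNReal.ofReal_ne_top]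
        exact lintegral_congr fun θ => (h1 θ).symm

/-- the weighted integral of `B |ξ| ^ (2 m)` -/
theorem lintegral_eq_mul {m : ℕ} {w B : ℝ} (hw : 0 < w) (hB : 0 ≤ B) :
    ∫⁻ ξ : ℂ, ENNReal.ofReal (B * ‖ξ‖ ^ (2 * m) * (w / ‖ξ‖ ^ 2) ^ m * ((1 + ‖ξ‖ ^ 2 / w) ^ 2)⁻¹) =
      ENNReal.ofReal (π * w ^ (m + 1) * B) := by
  have hmeas : Measurable fun ξ : ℂ => ENNReal.ofReal (B * ‖ξ‖ ^ (2 * m) * (w / ‖ξ‖ ^ 2) ^ m *
      ((1 + ‖ξ‖ ^ 2 / w) ^ 2)⁻¹) := by
    refine ENNReal.measurable_ofReal.comp ?_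
    fun_prop
  rw [lintegral_polar hmeas]
  have h0 : ENNReal.ofReal (π * w ^ (m + 1) * B) =
      ∫⁻ ρ in Ioi (0 : ℝ), ENNReal.ofReal ρ * (ENNReal.ofReal ((1 + ρ ^ 2 / w) ^ 2)⁻¹ *
        ENNReal.ofReal (2 * π * (w ^ m * B))) := by
    rw [lintegral_weight hw]
    congr 1
    ring
  rw [h0]
  refine setLIntegral_congr_fun measurableSet_Ioi fun ρ hρ => ?_
  have hρ0 : (0 : ℝ) < ρ := hρ
  congr 1
  have h1 : ∀ θ : ℝ, ENNReal.ofReal (B * ‖circleMap 0 ρ θ‖ ^ (2 * m) *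
      (w / ‖circleMap 0 ρ θ‖ ^ 2) ^ m * ((1 + ‖circleMap 0 ρ θ‖ ^ 2 / w) ^ 2)⁻¹) =
      ENNReal.ofReal (w ^ m * B * ((1 + ρ ^ 2 / w) ^ 2)⁻¹) := by
    intro θ
    have hn : ‖circleMap 0 ρ θ‖ = ρ := by rw [norm_circleMap_zero, abs_of_pos hρ0]
    congr 1
    have h2 : ρ ^ (2 * m) * (w / ρ ^ 2) ^ m = w ^ m := by
      rw [pow_mul, ← mul_pow, mul_div_cancel₀ _ (by positivity : ρ ^ 2 ≠ 0)]
    rw [hn, mul_assoc B, h2]
    ring
  simp only [h1]
  rw [setLIntegral_const, Real.volume_Ioo, ← ENNReal.ofReal_mul (by positivity),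
    ← ENNReal.ofReal_mul (by positivity)]
  congr 1
  ring

end Pool.Agent.KRFKo

end

section

/-!
# The fibres of the canonical bundle: Laurent coefficients and the weight
-/

open scoped ContDiff Topology ENNReal
open Set MeasureTheory Filter Real Pool.Agent.ToricKRF Pool.Agent.ToricKRF.G Pool.Agent.KRFS
  Pool.Agent.KRFF Pool.Agent.KRFQ Pool.Agent.KRFZ

namespace Pool.Agent.KRFKo

theorem cm_eq_lc (m : ℕ) (b : ℂ → ℂ) : cm m b = lc m b := by
  rw [cm, lc, circleAverage_eq_circleIntegral one_ne_zero, smul_eq_mul]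
  congr 1
  refine circleIntegral.integral_congr zero_le_one fun t ht => ?_
  have ht0 : t ≠ 0 := by
    rintro rfl
    simp at ht
  have h1 : t ^ (-(m + 1 : ℤ)) = t⁻¹ * (t ^ m)⁻¹ := by
    rw [zpow_neg, ← mul_inv, mul_comm]
    exact_mod_cast congrArg (·⁻¹) (pow_succ t m)
  simp only [h1, sub_zero, smul_eq_mul, mul_assoc]

/-- the weight on a fibre -/
noncomputable def fw (m : ℕ) (t : ℝ) (ξ : ℂ) : ℝ :=
  Real.exp (-(m * (Real.log (‖ξ‖ ^ 2) - Real.log t) +
    2 * Real.log (1 + Real.exp (Real.log (‖ξ‖ ^ 2) - Real.log t))))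

/-- the weight in terms of `|ξ|^2 / t` -/
theorem fw_eq {m : ℕ} {t : ℝ} (ht : 0 < t) {ξ : ℂ} (hξ : ξ ≠ 0) :
    fw m t ξ = (t / ‖ξ‖ ^ 2) ^ m * ((1 + ‖ξ‖ ^ 2 / t) ^ 2)⁻¹ := by
  have hn : 0 < ‖ξ‖ ^ 2 := by positivity
  have h1 : Real.log (‖ξ‖ ^ 2) - Real.log t = Real.log (‖ξ‖ ^ 2 / t) :=
    (Real.log_div hn.ne' ht.ne').symm
  have h2 : 0 < ‖ξ‖ ^ 2 / t := by positivity
  have h3 : (0 : ℝ) < 1 + ‖ξ‖ ^ 2 / t := by positivity
  rw [fw, h1, Real.exp_log h2, neg_add, Real.exp_add]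
  congr 1
  · rw [← mul_neg, ← Real.log_inv, mul_comm, Real.exp_mul, Real.exp_log (by positivity),
      Real.rpow_natCast, inv_div]
  · rw [← mul_neg, ← Real.log_inv, mul_comm, Real.exp_mul, Real.exp_log (by positivity)]
    norm_cast
    rw [inv_pow]

theorem lintegral_congr_ne {f g : ℂ → ℝ≥0∞} (h : ∀ ξ : ℂ, ξ ≠ 0 → f ξ = g ξ) :
    ∫⁻ ξ : ℂ, f ξ = ∫⁻ ξ : ℂ, g ξ := by
  refine lintegral_congr_ae ?_
  have h1 : ∀ᵐ ξ : ℂ, ξ ≠ 0 := by
    rw [ae_iff]
    simp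
  filter_upwards [h1] with ξ hξ using h ξ hξ

/-- B3a (polar coordinates, Cauchy-Schwarz on every circle) -/
theorem fibre_le {b : ℂ → ℂ} (hb : DifferentiableOn ℂ b {0}ᶜ) (m : ℕ) (a : ℂ) {t : ℝ}
    (ht : 0 < t) :
    ENNReal.ofReal (Real.pi * t ^ (m + 1) * ‖a - cm m b‖ ^ 2) ≤
      ∫⁻ ξ : ℂ, ENNReal.ofReal (‖a * ξ ^ m - b ξ‖ ^ 2 * fw m t ξ) := by
  rw [cm_eq_lc]
  refine (le_lintegral (m := m) hb a ht).trans_eq (lintegral_congr_ne fun ξ hξ => ?_)
  rw [fw_eq ht hξ, mul_assoc]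

/-- B3a -/
theorem fibre_eq (m : ℕ) {t : ℝ} (ht : 0 < t) :
    ∫⁻ ξ : ℂ, ENNReal.ofReal (‖ξ‖ ^ (2 * m) * fw m t ξ) =
      ENNReal.ofReal (Real.pi * t ^ (m + 1)) := by
  have h1 := lintegral_eq_mul (m := m) (w := t) (B := 1) ht zero_le_one
  rw [mul_one] at h1
  rw [← h1]
  refine lintegral_congr_ne fun ξ hξ => ?_
  rw [fw_eq ht hξ, one_mul, mul_assoc]

/-- the rotation and dilation by `δ` -/
theorem lc_comp_mul {m : ℕ} {F : ℂ → ℂ} (hF : DifferentiableOn ℂ F {0}ᶜ) {δ : ℂ} (hδ : δ ≠ 0) :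
    lc m (fun ζ => F (δ * ζ)) = δ ^ m * lc m F := by
  have hρ : 0 < ‖δ‖ := norm_pos_iff.2 hδ
  have h0 : lc m F = (2 * π)⁻¹ • ∫ θ in (0 : ℝ)..2 * π,
      ((circleMap 0 ‖δ‖ (θ + Complex.arg δ)) ^ m)⁻¹ * F (circleMap 0 ‖δ‖ (θ + Complex.arg δ)) := by
    rw [← circleAverage_eq_lc hF hρ]
    exact circleAverage_eq_integral_add (Complex.arg δ)
  have h3 : ∫ θ in (0 : ℝ)..2 * π, ((circleMap 0 1 θ) ^ m)⁻¹ * F (δ * circleMap 0 1 θ) =
      δ ^ m * ∫ θ in (0 : ℝ)..2 * π,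
        ((circleMap 0 ‖δ‖ (θ + Complex.arg δ)) ^ m)⁻¹ * F (circleMap 0 ‖δ‖ (θ + Complex.arg δ)) := by
    rw [← intervalIntegral.integral_const_mul]
    refine intervalIntegral.integral_congr fun θ _ => ?_
    have h1 : circleMap 0 ‖δ‖ (θ + Complex.arg δ) = δ * circleMap 0 1 θ := by
      have h2 : (‖δ‖ : ℂ) * Complex.exp (Complex.arg δ * Complex.I) = δ :=
        Complex.norm_mul_exp_arg_mul_I δ
      simp only [circleMap, zero_add, Complex.ofReal_one, one_mul]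
      push_cast
      rw [add_mul, Complex.exp_add]
      linear_combination Complex.exp (θ * Complex.I) * h2
    have h2 := circleMap_ne one_pos θ
    simp only [h1]
    generalize circleMap 0 1 θ = t at h2
    rw [mul_pow]
    field_simp
  rw [h0, lc, circleAverage_def, h3, mul_smul_comm]

/-- B3a -/
theorem cm_mul {b : ℂ → ℂ} (hb : DifferentiableOn ℂ b {0}ᶜ) (m : ℕ) {a : ℂ} (ha : a ≠ 0) :
    cm m (fun ξ => b (a * ξ)) = a ^ m * cm m b := by
  rw [cm_eq_lc, cm_eq_lc, lc_comp_mul hb ha]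

end Pool.Agent.KRFKo

end

section

/-!
# The Laurent coefficients of a holomorphic function on the canonical bundle are holomorphic
-/

open scoped ContDiff Topology
open Set MeasureTheory Filter Pool.Agent.ToricKRF Pool.Agent.ToricKRF.G Pool.Agent.KRFS
  Pool.Agent.KRFF Pool.Agent.KRFQ Pool.Agent.KRFZ

namespace Pool.Agent.KRFKo

namespace Four

variable {n : ℕ}

/-- `(ξ, w)` as a vector with `n + 1` entries -/
noncomputable def cs (n : ℕ) : ℂ × (Fin n → ℂ) →L[ℂ] (Fin (n + 1) → ℂ) :=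
  ContinuousLinearMap.pi fun i => Fin.cases (ContinuousLinearMap.fst ℂ ℂ (Fin n → ℂ))
    (fun j => (ContinuousLinearMap.proj j).comp (ContinuousLinearMap.snd ℂ ℂ (Fin n → ℂ))) i

theorem iot_cs (ξ : ℂ) (w : Fin n → ℂ) : KRFLj.iot (n + 1) (cs n (ξ, w)) = jn ξ (KRFLj.iot n w) := by
  refine Prod.ext ?_ ?_ <;> funext i <;> refine Fin.cases ?_ (fun j => ?_) i <;>
    simp [cs, jn, KRFLj.iot]

/-- the complex coordinates of the point `x` on the zero section -/
noncomputable def zc (n : ℕ) : Cn n →L[ℝ] ℂ × (Fin n → ℂ) :=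
  (0 : Cn n →L[ℝ] ℂ).prod (ContinuousLinearMap.pi fun k => KRFQ.ccL k)

theorem zc_apply (x : Cn n) : zc n x = (0, KRFLj.ccv x) := rfl

theorem zc_J (x : Cn n) : zc n (J x) = Complex.I • zc n x := by
  refine Prod.ext (by simp [zc_apply]) ?_
  funext k
  apply Complex.ext <;> simp [zc_apply, KRFLj.ccv, cc, J]

theorem isOpen_dom {U : Set (Cn n)} (hU : IsOpen U) :
    IsOpen {y : Cn (n + 1) | tl y ∈ U ∧ hd y ≠ 0} :=
  (hU.preimage contDiff_tl.continuous).inter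
    (isOpen_compl_singleton.preimage contDiff_hd.continuous)

theorem differentiableAt_cs {b : Cn (n + 1) → ℂ} {U : Set (Cn n)} (hU : IsOpen U)
    (hb : NF.HolC b {y : Cn (n + 1) | tl y ∈ U ∧ hd y ≠ 0}) {q : ℂ × (Fin n → ℂ)}
    (h0 : q.1 ≠ 0) (h1 : KRFLj.iot n q.2 ∈ U) :
    DifferentiableAt ℂ (fun q : ℂ × (Fin n → ℂ) => b (jn q.1 (KRFLj.iot n q.2))) q := by
  have h2 := KRFLj.differentiableAt_of_holC (isOpen_dom hU) hb 0 (cs n) (w := q) (by
    rw [zero_add]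
    change KRFLj.iot (n + 1) (cs n (q.1, q.2)) ∈ _
    rw [iot_cs]
    exact ⟨by simpa using h1, by simpa using h0⟩)
  refine h2.congr_of_eventuallyEq (Eventually.of_forall fun q => ?_)
  simp only [zero_add]
  rw [← iot_cs]

end Four

open Four in
/-- B3b -/
theorem holC_cm {n : ℕ} {b : Cn (n + 1) → ℂ} {U : Set (Cn n)} (hU : IsOpen U)
    (hb : ContDiffOn ℝ ∞ b {y | tl y ∈ U ∧ hd y ≠ 0})
    (hb' : ∀ k, ∀ y, tl y ∈ U → hd y ≠ 0 → dzb k b y = 0) (m : ℕ) :
    NF.HolC (fun x => cm m fun ξ => b (jn ξ x)) U ∧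
      ∀ x ∈ U, DifferentiableOn ℂ (fun ξ => b (jn ξ x)) {0}ᶜ := by
  have hh : NF.HolC b {y : Cn (n + 1) | tl y ∈ U ∧ hd y ≠ 0} :=
    ⟨hb, fun y hy u => fderiv_J_of_dzb (fun k => hb' k y hy.1 hy.2) u⟩
  constructor
  · -- the set of the parameters
    set A : Set (ℂ × (Fin n → ℂ)) := {q | ‖q.1‖ < 1 ∧ KRFLj.iot n q.2 ∈ U} with hA
    set S : Set (ℂ × (Fin n → ℂ)) := {q | q.1 ≠ 0 ∧ KRFLj.iot n q.2 ∈ U} with hS
    have hAo : IsOpen A := by
      refine IsOpen.inter ?_ (hU.preimage (by fun_prop))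
      exact isOpen_lt (continuous_norm.comp continuous_fst) continuous_const
    have hSo : IsOpen S := by
      refine IsOpen.inter ?_ (hU.preimage (by fun_prop))
      exact isOpen_compl_singleton.preimage continuous_fst
    set Ψ : ℂ × (Fin n → ℂ) → ℂ := fun q => q.1 ^ (-(m + 1 : ℤ)) * b (jn q.1 (KRFLj.iot n q.2))
      with hΨ
    have hΨd : DifferentiableOn ℂ Ψ S := by
      intro q hq
      refine DifferentiableAt.differentiableWithinAt ?_
      refine DifferentiableAt.mul ?_ (differentiableAt_cs hU hh hq.1 hq.2)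
      exact differentiableAt_fst.zpow (Or.inl hq.1)
    have hG : DifferentiableOn ℂ (fun z => ∮ t in C(0, 1), Ψ (z + t • ((1 : ℂ), (0 : Fin n → ℂ)))) A := by
      refine KRFLj.differentiableOn_circle hSo hAo hΨd zero_le_one fun z hz t ht => ⟨?_, ?_⟩
      · intro h1
        have h2 : z.1 + t * 1 = 0 := h1
        rw [mul_one] at h2
        have h3 : ‖z.1‖ = 1 := by
          rw [eq_neg_of_add_eq_zero_left h2, norm_neg, ht]
        exact absurd hz.1 (by rw [h3]; exact lt_irrefl 1)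
      · have h1 : (z + t • ((1 : ℂ), (0 : Fin n → ℂ))).2 = z.2 := by simp
        rw [h1]
        exact hz.2
    set G : ℂ × (Fin n → ℂ) → ℂ := fun z => ∮ t in C(0, 1), Ψ (z + t • ((1 : ℂ), (0 : Fin n → ℂ)))
      with hGdef
    have hGc : ContDiffOn ℂ (∞ : WithTop ℕ∞) G A := SCV.contDiffOn_of_differentiableOn hAo hG (n := ⊤)
    have hmem : ∀ x ∈ U, zc n x ∈ A := by
      intro x hx
      rw [zc_apply]
      refine ⟨by simp, ?_⟩
      simp only [KRFLj.iot_ccv]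
      exact hx
    have heq : (fun x => cm m fun ξ => b (jn ξ x)) =
        fun x => (2 * Real.pi * Complex.I)⁻¹ * G (zc n x) := by
      funext x
      rw [cm, hGdef]
      congr 1
      simp only [hΨ, zc_apply, Prod.smul_mk, smul_eq_mul, mul_one, smul_zero, Prod.mk_add_mk,
        zero_add, add_zero, KRFLj.iot_ccv]
    rw [heq]
    refine ⟨?_, ?_⟩
    · refine contDiffOn_const.mul ?_
      exact (hGc.restrict_scalars ℝ).comp (zc n).contDiff.contDiffOn fun x hx => hmem x hx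
    · intro x hx u
      have h1 : HasFDerivAt G (fderiv ℂ G (zc n x)) (zc n x) :=
        (hG.differentiableAt (hAo.mem_nhds (hmem x hx))).hasFDerivAt
      have h2 : HasFDerivAt (fun x => G (zc n x))
          (((fderiv ℂ G (zc n x)).restrictScalars ℝ).comp (zc n)) x :=
        (h1.restrictScalars ℝ).comp x (zc n).hasFDerivAt
      have h3 := h2.const_mul ((2 * Real.pi * Complex.I)⁻¹ : ℂ)
      rw [h3.fderiv]
      simp only [smul_apply, ContinuousLinearMap.comp_apply,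
        ContinuousLinearMap.coe_restrictScalars', zc_J, map_smul, smul_eq_mul]
      ring
  · intro x hx ξ hξ
    refine DifferentiableAt.differentiableWithinAt ?_
    have h1 := differentiableAt_cs (q := (ξ, KRFLj.ccv x)) hU hh hξ (by
      rw [KRFLj.iot_ccv]
      exact hx)
    have h2 : DifferentiableAt ℂ (fun ξ : ℂ => ((ξ, KRFLj.ccv x) : ℂ × (Fin n → ℂ))) ξ :=
      differentiableAt_id.prodMk (differentiableAt_const _)
    have h3 := h1.comp ξ h2
    refine h3.congr_of_eventuallyEq (Eventually.of_forall fun ξ' => ?_)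
    simp only [Function.comp_apply, KRFLj.iot_ccv]

end Pool.Agent.KRFKo

end

section

/-!
# The section of a holomorphic function on the canonical bundle
-/

open scoped ContDiff Topology ENNReal
open Set MeasureTheory Filter Pool.Agent.ToricKRF Pool.Agent.ToricKRF.G Pool.Agent.KRFS
  Pool.Agent.KRFF Pool.Agent.KRFQ

namespace Pool.Agent.KRFKo

section

variable {M P : Type} [TopologicalSpace M] [TopologicalSpace P] {n : ℕ} {κ : Type}
  {e : κ → OpenPartialHomeomorph M (Cn n)} {π : P → M}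
  {E : κ → OpenPartialHomeomorph P (Cn (n + 1))}

/-- the Laurent coefficients of a holomorphic function on the bundle -/
theorem holC_bun (hb : IsKBun e π E) (he : IsAtlas e) {V : Set M} (hV : IsOpen V)
    (hVp : IsOpen (Vp E π V)) {b : P → ℂ}
    (hb1 : ∀ c, ContDiffOn ℝ ∞ (pb (rs E hVp) c b) (rs E hVp c).target ∧
      ∀ k, ∀ y ∈ (rs E hVp c).target, dzb k (pb (rs E hVp) c b) y = 0) (m : ℕ) (c : κ) :
    NF.HolC (fun x => cm m fun ξ => b ((E c).symm (jn ξ x))) (rs e hV c).target ∧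
      ∀ x ∈ (rs e hV c).target, DifferentiableOn ℂ (fun ξ => b ((E c).symm (jn ξ x))) {0}ᶜ := by
  have hset : {y | tl y ∈ (rs e hV c).target ∧ hd y ≠ 0} = (rs E hVp c).target := by
    ext y
    exact (hb.mem_target he hV hVp c y).symm
  refine holC_cm (b := fun y => b ((E c).symm y)) (rs e hV c).open_target ?_ ?_ m
  · rw [hset]
    exact (hb1 c).1
  · intro k y hy h0
    exact (hb1 c).2 k y ((hb.mem_target he hV hVp c y).2 ⟨hy, h0⟩)

theorem isSect_cm (hb : IsKBun e π E) (he : IsAtlas e) {V : Set M} (hV : IsOpen V)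
    (hVp : IsOpen (Vp E π V)) {b : P → ℂ}
    (hb1 : ∀ c, ContDiffOn ℝ ∞ (pb (rs E hVp) c b) (rs E hVp c).target ∧
      ∀ k, ∀ y ∈ (rs E hVp c).target, dzb k (pb (rs E hVp) c b) y = 0) (m : ℕ) :
    IsSect (rs e hV) m fun c x => cm m fun ξ => b ((E c).symm (jn ξ x)) := by
  have key := holC_bun hb he hV hVp hb1 m
  refine ⟨fun c => (key c).1, fun c c' z hz => ?_⟩
  have hz' : z ∈ dom e c c' := dom_rs hV c c' hz
  set D := (Jm (tr (rs e hV) c c') z).det with hD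
  have hD0 : D ≠ 0 := by
    intro h
    have h1 := Jm_tr_mul he.holo hz'
    have h2 := congrArg Matrix.det h1
    rw [Matrix.det_mul, Matrix.det_one] at h2
    rw [hD, tr_rs] at h
    rw [h, mul_zero] at h2
    exact zero_ne_one h2
  have h1 : (fun ξ => b ((E c').symm (jn ξ (tr (rs e hV) c c' z)))) =
      fun ξ => (fun ζ => b ((E c).symm (jn ζ z))) (D * ξ) := by
    funext ξ
    have hy : jn (D * ξ) z ∈ dom E c c' := (hb.mem_dom c c' _).2 (by simpa using hz')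
    have h2 := hb.tr_eq c c' (jn (D * ξ) z) (by simpa using hz')
    rw [hd_jn, tl_jn, ← tr_rs hV, ← hD, mul_div_cancel_left₀ _ hD0] at h2
    change b ((E c').symm (jn ξ (tr (rs e hV) c c' z))) = b ((E c).symm (jn (D * ξ) z))
    rw [← h2, symm_tr hy]
  change cm m (fun ξ => b ((E c').symm (jn ξ (tr (rs e hV) c c' z)))) = _
  rw [h1]
  exact cm_mul ((key c).2 z hz.1) m hD0

end

end Pool.Agent.KRFKo

end
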