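import Pool.Agent.Work.MP_a2bf38_gt.Fu.H.BoundLin
import Pool.Agent.Work.MP_a2bf38_gt.Fu.Ko.Defs

section

/-!
# The Levi form of `φ ∘ f` for a function `φ` of one real variable
-/

open scoped ContDiff Topology
open Set Filter Pool.Agent.ToricKRF Pool.Agent.ToricKRF.G Pool.Agent.KRFS

namespace Pool.Agent.KRFKo

section

variable {n : ℕ} {φ φ₁ φ₂ : ℝ → ℝ} {f : Cn n → ℝ} {S : Set (Cn n)}

theorem D_fcomp {r : ℝ} {z : Cn n} (hφ : HasDerivAt φ r (f z)) (hf : DifferentiableAt ℝ f z)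
    (u : Cn n) : D u (fun x => φ (f x)) z = r * D u f z := by
  have h1 := (hφ.comp_hasFDerivAt z hf.hasFDerivAt).fderiv
  unfold D
  change fderiv ℝ (φ ∘ f) z u = _
  rw [h1]
  simp

/-- `i ∂ ∂bar φ(f) = φ'(f) i ∂ ∂bar f + φ''(f) i ∂ f ∧ ∂bar f` -/
theorem levz_fcomp (hφ : ∀ x ∈ S, HasDerivAt φ (φ₁ (f x)) (f x))
    (hφ₁ : ∀ x ∈ S, HasDerivAt φ₁ (φ₂ (f x)) (f x)) (hS : IsOpen S) (hf : ContDiffOn ℝ ∞ f S)
    {z : Cn n} (hz : z ∈ S) (u : Cn n) :
    levz (fun x => φ (f x)) u z = φ₁ (f z) * levz f u z +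
      φ₂ (f z) * ((D u f z ^ 2 + D (J u) f z ^ 2) / 4) := by
  have hd : ∀ x ∈ S, DifferentiableAt ℝ f x := fun x hx =>
    (hf.differentiableOn (by simp)).differentiableAt (hS.mem_nhds hx)
  have hDd : ∀ v : Cn n, DifferentiableAt ℝ (D v f) z := by
    intro v
    have h1 : ContDiffOn ℝ ∞ (fderiv ℝ f) S :=
      ((contDiffOn_infty_iff_fderiv_of_isOpen hS).1 hf).2
    have h2 : DifferentiableAt ℝ (fderiv ℝ f) z :=
      (h1.differentiableOn (by simp)).differentiableAt (hS.mem_nhds hz)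
    exact h2.clm_apply (differentiableAt_const v)
  have key : ∀ v : Cn n, D v (D v (fun x => φ (f x))) z =
      φ₁ (f z) * D v (D v f) z + φ₂ (f z) * D v f z ^ 2 := by
    intro v
    have h1 : D v (fun x => φ (f x)) =ᶠ[𝓝 z] fun x => φ₁ (f x) * D v f x := by
      filter_upwards [hS.mem_nhds hz] with x hx
      exact D_fcomp (hφ x hx) (hd x hx) v
    have h2 : HasFDerivAt (fun x => φ₁ (f x)) (φ₂ (f z) • fderiv ℝ f z) z :=
      (hφ₁ z hz).comp_hasFDerivAt z (hd z hz).hasFDerivAt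
    have h3 := (h2.fun_mul (hDd v).hasFDerivAt).fderiv
    have h4 : D v (D v (fun x => φ (f x))) z = fderiv ℝ (fun x => φ₁ (f x) * D v f x) z v := by
      rw [← h1.fderiv_eq]
      rfl
    rw [h4, h3]
    simp only [add_apply, smul_apply, smul_eq_mul]
    unfold D
    ring
  unfold levz
  rw [key, key]
  ring

end

end Pool.Agent.KRFKo

end

section

/-!
# Levi forms of functions on the canonical bundle
-/

open scoped ContDiff Topology
open Set MeasureTheory Filter Pool.Agent.ToricKRF Pool.Agent.ToricKRF.G Pool.Agent.KRFS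
  Pool.Agent.KRFF Pool.Agent.KRFQ

namespace Pool.Agent.KRFKo

variable {n : ℕ} {κ : Type}

theorem fderiv_tl (y : Cn (n + 1)) : fderiv ℝ (tl : Cn (n + 1) → Cn n) y = tlL :=
  (tlL (n := n)).fderiv

theorem fderiv_hd (y : Cn (n + 1)) : fderiv ℝ (hd : Cn (n + 1) → ℂ) y = hdL :=
  (hdL (n := n)).fderiv

theorem holOn_tl (S : Set (Cn (n + 1))) : HolOn (tl : Cn (n + 1) → Cn n) S := by
  refine ⟨contDiff_tl.contDiffOn, fun z _ u => ?_⟩
  rw [fderiv_tl, tlL_apply, tlL_apply, tl_J]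

theorem holC_hd (S : Set (Cn (n + 1))) : NF.HolC (hd : Cn (n + 1) → ℂ) S := by
  refine ⟨contDiff_hd.contDiffOn, fun z _ u => ?_⟩
  rw [fderiv_hd, hdL_apply, hdL_apply, hd_J]

theorem isOpen_tl {U : Set (Cn n)} (hU : IsOpen U) : IsOpen {y : Cn (n + 1) | tl y ∈ U} :=
  hU.preimage contDiff_tl.continuous

/-- B2a -/
theorem levz_tl {f : Cn n → ℝ} {U : Set (Cn n)} (hU : IsOpen U) (hf : ContDiffOn ℝ ∞ f U)
    {y : Cn (n + 1)} (hy : tl y ∈ U) (v : Cn (n + 1)) :
    levz (fun y => f (tl y)) v y = levz f (tl v) (tl y) := by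
  have h := levz_comp hU hf isOpen_univ (holOn_tl univ) (mem_univ y) hy v
  rwa [fderiv_tl, tlL_apply] at h

/-- B2a: the Levi form of the norm -/
theorem levz_nr {w : κ → Cn n → ℝ} {c : κ} {U : Set (Cn n)} (hU : IsOpen U)
    (hw : ContDiffOn ℝ ∞ (w c) U) (hw0 : ∀ x ∈ U, 0 < w c x) {y : Cn (n + 1)} (hy : tl y ∈ U)
    (h0 : hd y ≠ 0) (v : Cn (n + 1)) : levz (nr w c) v y = levz (kf w c) (tl v) (tl y) := by
  have hk : ContDiffOn ℝ ∞ (kf w c) U := (hw.log fun x hx => (hw0 x hx).ne').neg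
  have e : nr w c = fun y => Real.log (Complex.normSq (hd y)) + kf w c (tl y) := by
    funext y
    rw [nr, kf, Complex.normSq_eq_norm_sq]
    ring
  have hN : Complex.normSq (hd y) ≠ 0 := by
    rw [ne_eq, Complex.normSq_eq_zero]
    exact h0
  have h1 : ContDiffAt ℝ 2 (fun y : Cn (n + 1) => Real.log (Complex.normSq (hd y))) y := by
    have h2 : ContDiff ℝ ∞ fun y : Cn (n + 1) => Complex.normSq (hd y) := by
      have : (fun y : Cn (n + 1) => Complex.normSq (hd y)) = fun y => ‖hd y‖ ^ 2 := by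
        funext y
        rw [Complex.normSq_eq_norm_sq]
      rw [this]
      exact contDiff_hd.norm_sq ℝ
    exact ((h2.contDiffAt).log hN).of_le (by norm_cast)
  have h2 : ContDiffAt ℝ 2 (fun y : Cn (n + 1) => kf w c (tl y)) y :=
    (((hk.contDiffAt (hU.mem_nhds hy)).of_le (by norm_cast)).comp y
      (contDiff_tl.contDiffAt.of_le (by norm_cast)))
  rw [e, Bd.levz_add h1 h2, NF.levz_log_normSq isOpen_univ (holC_hd univ) (mem_univ y) h0 v,
    zero_add, levz_tl hU hk hy v]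

/-- B2a -/
theorem levz_scomp {m : ℕ} {φ : ℝ → ℝ} (hφ : ContDiff ℝ ∞ φ) {f : Cn m → ℝ} {U : Set (Cn m)}
    (hU : IsOpen U) (hf : ContDiffOn ℝ ∞ f U) {y : Cn m} (hy : y ∈ U) (v : Cn m) :
    levz (fun y => φ (f y)) v y = deriv φ (f y) * levz f v y +
      deriv (deriv φ) (f y) * (((D v f y) ^ 2 + (D (J v) f y) ^ 2) / 4) := by
  have h1 : ContDiff ℝ ∞ (deriv φ) := (contDiff_infty_iff_deriv.1 hφ).2
  exact levz_fcomp (fun x _ => (hφ.differentiable (by simp)).differentiableAt.hasDerivAt)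
    (fun x _ => (h1.differentiable (by simp)).differentiableAt.hasDerivAt) hU hf hy v

theorem hasDerivAt_Uf (r : ℝ) : HasDerivAt Uf (Real.arctan r + Real.pi / 2) r := by
  have h0 : (1 : ℝ) + r ^ 2 ≠ 0 := by positivity
  have h1 : HasDerivAt (fun r : ℝ => r * Real.arctan r) (1 * Real.arctan r + r * (1 / (1 + r ^ 2)))
      r := (hasDerivAt_id r).mul (Real.hasDerivAt_arctan r)
  have h2 : HasDerivAt (fun r : ℝ => 1 + r ^ 2) (2 * r) r := by
    simpa using ((hasDerivAt_pow 2 r).const_add (1 : ℝ))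
  have h3 := (h2.log h0).div_const 2
  have h4 : HasDerivAt (fun r : ℝ => Real.pi / 2 * r) (Real.pi / 2 * 1) r :=
    (hasDerivAt_id r).const_mul _
  have h5 := (h1.sub h3).add h4
  have e : Uf = fun r : ℝ => r * Real.arctan r - Real.log (1 + r ^ 2) / 2 + Real.pi / 2 * r := rfl
  rw [e]
  refine h5.congr_deriv ?_
  have h6 : r * (1 / (1 + r ^ 2)) - 2 * r / (1 + r ^ 2) / 2 = 0 := by
    field_simp
    ring
  linear_combination h6

theorem deriv_Uf : deriv Uf = fun r => Real.arctan r + Real.pi / 2 :=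
  funext fun r => (hasDerivAt_Uf r).deriv

theorem deriv_deriv_Uf (r : ℝ) : deriv (deriv Uf) r = 1 / (1 + r ^ 2) := by
  rw [deriv_Uf]
  exact ((Real.hasDerivAt_arctan r).add_const (Real.pi / 2)).deriv

/-- B2a -/
theorem Uf_facts : ContDiff ℝ ∞ Uf ∧ (∀ r, 0 < deriv Uf r) ∧
    ∀ r, deriv (deriv Uf) r = 1 / (1 + r ^ 2) := by
  refine ⟨?_, fun r => ?_, deriv_deriv_Uf⟩
  · have h1 : ContDiff ℝ ∞ fun r : ℝ => Real.log (1 + r ^ 2) :=
      (contDiff_const.add (contDiff_id.pow 2)).log fun r => by positivity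
    exact ((contDiff_id.mul Real.contDiff_arctan).sub (h1.div_const 2)).add
      (contDiff_const.mul contDiff_id)
  · rw [deriv_Uf]
    have := Real.neg_pi_div_two_lt_arctan r
    linarith

end Pool.Agent.KRFKo

end
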