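import Pool.Agent.Work.MP_a2bf38_gt.Fu.Ko.Defs
import Mathlib.Topology.FiberBundle.Basic
import Pool.Agent.Work.MP_a2bf38_gt.Fu.Ko.LevComp
import Pool.Agent.Work.MP_a2bf38_gt.Fu.Ko.FourierA

section

/-!
# The total space of the canonical bundle (helper70)
-/

open scoped ContDiff Topology
open Set MeasureTheory Filter Pool.Agent.ToricKRF Pool.Agent.ToricKRF.G Pool.Agent.KRFS
  Pool.Agent.KRFF Pool.Agent.KRFQ

namespace Pool.Agent.KRFKo

namespace KB

/-- the coordinates of `ℂ^(n+1)` -/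
noncomputable def jnH (n : ℕ) : Cn n × ℂ ≃ₜ Cn (n + 1) where
  toFun q := jn q.2 q.1
  invFun z := (tl z, hd z)
  left_inv q := by simp
  right_inv z := by simp
  continuous_toFun := contDiff_jn.continuous.comp (continuous_snd.prodMk continuous_fst)
  continuous_invFun := contDiff_tl.continuous.prodMk contDiff_hd.continuous

/-! ### The Jacobian determinants -/

section

variable {M : Type} [TopologicalSpace M] {n : ℕ} {κ : Type}
  {e : κ → OpenPartialHomeomorph M (Cn n)}

/-- the Jacobian determinant of the change of charts at the point `p` -/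
noncomputable def jd (e : κ → OpenPartialHomeomorph M (Cn n)) (c c' : κ) (p : M) : ℂ :=
  (Jm (tr e c c') (e c p)).det

theorem jd_comp (he : ∀ c c', HolOn (tr e c c') (dom e c c')) {i j k : κ} {p : M}
    (hi : p ∈ (e i).source) (hj : p ∈ (e j).source) (hk : p ∈ (e k).source) :
    jd e j k p * jd e i j p = jd e i k p := by
  have hij : e i p ∈ dom e i j := KRFQ.mem_dom hi hj
  have hjk : tr e i j (e i p) ∈ dom e j k := by
    rw [KRFQ.tr_apply hi]
    exact KRFQ.mem_dom hj hk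
  have h1 := Jm_comp (KRFQ.isOpen_dom i j) (he i j) (KRFQ.isOpen_dom j k) (he j k) hij hjk
  have h2 : (fun x => tr e j k (tr e i j x)) =ᶠ[𝓝 (e i p)] tr e i k := by
    filter_upwards [(KRFQ.isOpen_dom i j).mem_nhds hij] with x hx
    simp only [tr, (e j).left_inv hx.2]
  rw [Jm_congr h2] at h1
  rw [jd, jd, jd, h1, Matrix.det_mul, KRFQ.tr_apply hi]

theorem jd_self {i : κ} {p : M} (hi : p ∈ (e i).source) : jd e i i p = 1 := by
  have h1 : tr e i i =ᶠ[𝓝 (e i p)] fun x => x := by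
    filter_upwards [(e i).open_target.mem_nhds ((e i).map_source hi)] with x hx
    exact (e i).right_inv hx
  rw [jd, Jm_congr h1, Jm_id, Matrix.det_one]

theorem jd_ne (he : ∀ c c', HolOn (tr e c c') (dom e c c')) {i j : κ} {p : M}
    (hi : p ∈ (e i).source) (hj : p ∈ (e j).source) : jd e i j p ≠ 0 := by
  have h1 := jd_comp he hi hj hi
  rw [jd_self hi] at h1
  exact right_ne_zero_of_mul_eq_one h1

theorem continuousOn_jd (he : ∀ c c', HolOn (tr e c c') (dom e c c')) (i j : κ) :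
    ContinuousOn (jd e i j) ((e i).source ∩ (e j).source) := by
  have h1 : ContDiffOn ℝ ∞ (fun z => (Jm (tr e i j) z).det) (dom e i j) :=
    KRFQ.contDiffOn_det fun l k => contDiffOn_Jm (KRFQ.isOpen_dom i j) (he i j) l k
  exact h1.continuousOn.comp ((e i).continuousOn.mono inter_subset_left)
    fun p hp => KRFQ.mem_dom hp.1 hp.2

/-! ### The bundle -/

/-- the bundle of the `n`-forms -/
noncomputable def core (he : IsAtlas e) : FiberBundleCore κ M ℂ where
  baseSet c := (e c).source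
  isOpen_baseSet c := (e c).open_source
  indexAt p := (he.cover p).choose
  mem_baseSet_at p := (he.cover p).choose_spec
  coordChange c c' p ξ := ξ / jd e c c' p
  coordChange_self i p hp ξ := by
    rw [jd_self hp, div_one]
  continuousOn_coordChange i j := by
    have h1 : ContinuousOn (fun q : M × ℂ => jd e i j q.1)
        (((e i).source ∩ (e j).source) ×ˢ univ) :=
      (continuousOn_jd he.holo i j).comp continuousOn_fst fun q hq => hq.1
    exact continuousOn_snd.div h1 fun q hq => jd_ne he.holo hq.1.1 hq.1.2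
  coordChange_comp i j k p hp ξ := by
    rw [← jd_comp he.holo hp.1.1 hp.1.2 hp.2, div_div, mul_comm (jd e i j p)]

/-- the charts of the bundle -/
noncomputable def chart (he : IsAtlas e) (c : κ) :
    OpenPartialHomeomorph (core he).TotalSpace (Cn (n + 1)) :=
  (((core he).localTriv c).toOpenPartialHomeomorph.trans
    ((e c).prod (OpenPartialHomeomorph.refl ℂ))).trans (jnH n).toOpenPartialHomeomorph

theorem chart_source (he : IsAtlas e) (c : κ) :
    (chart he c).source = (core he).proj ⁻¹' (e c).source := by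
  ext v
  constructor
  · intro h
    exact h.1.1
  · intro h
    exact ⟨⟨h, h, mem_univ _⟩, mem_univ _⟩

theorem chart_target (he : IsAtlas e) (c : κ) :
    (chart he c).target = {z | tl z ∈ (e c).target} := by
  ext z
  constructor
  · intro h
    exact h.2.1.1
  · intro h1
    refine ⟨mem_univ _, ⟨h1, mem_univ _⟩, ?_⟩
    change ((e c).symm (tl z), hd z) ∈ ((core he).localTriv c).target
    rw [FiberBundleCore.mem_localTriv_target]
    exact (e c).map_target h1

theorem tr_chart (he : IsAtlas e) (c c' : κ) {z : Cn (n + 1)}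
    (hz : tl z ∈ dom e c c') : tr (chart he) c c' z =
      jn (hd z / (Jm (tr e c c') (tl z)).det) (tr e c c' (tl z)) := by
  set p : M := (e c).symm (tl z) with hp
  have h3 : p ∈ (e c).source := (e c).map_target hz.1
  have h4 : tr (chart he) c c' z = jn ((core he).coordChange ((core he).indexAt p) c' p
      ((core he).coordChange c ((core he).indexAt p) p (hd z))) (e c' p) := rfl
  rw [h4, (core he).coordChange_comp c _ c' p ⟨⟨h3, (core he).mem_baseSet_at p⟩, hz.2⟩]
  have h5 : (core he).coordChange c c' p (hd z) = hd z / (Jm (tr e c c') (tl z)).det := by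
    change hd z / jd e c c' p = _
    rw [jd, hp, (e c).right_inv hz.1]
  rw [h5]
  rfl

theorem t2 [T2Space M] (he : IsAtlas e) : T2Space (core he).TotalSpace := by
  refine ⟨fun v w hvw => ?_⟩
  by_cases h : (core he).proj v = (core he).proj w
  · obtain ⟨c, hc⟩ := he.cover ((core he).proj v)
    have hv : v ∈ (chart he c).source := by
      rw [chart_source]
      exact hc
    have hw : w ∈ (chart he c).source := by
      rw [chart_source]
      change (core he).proj w ∈ (e c).source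
      rw [← h]
      exact hc
    obtain ⟨A, B, hA, hB, hvA, hwB, hAB⟩ := t2_separation fun h1 =>
      hvw ((chart he c).injOn hv hw h1)
    refine ⟨(chart he c).source ∩ chart he c ⁻¹' A, (chart he c).source ∩ chart he c ⁻¹' B,
      (chart he c).isOpen_inter_preimage hA, (chart he c).isOpen_inter_preimage hB,
      ⟨hv, hvA⟩, ⟨hw, hwB⟩, ?_⟩
    rw [Set.disjoint_left]
    rintro q ⟨-, hq⟩ ⟨-, hq'⟩
    exact Set.disjoint_left.1 hAB hq hq'
  · exact separated_by_continuous (FiberBundle.continuous_proj ℂ (core he).Fiber) h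

end

end KB

section

variable {M : Type} [TopologicalSpace M] {n : ℕ} {κ : Type}
  {e : κ → OpenPartialHomeomorph M (Cn n)}

theorem exists_kbun [T2Space M] (he : IsAtlas e) : ∃ (P : Type) (_ : TopologicalSpace P) (_ : T2Space P) (π : P → M)
    (E : κ → OpenPartialHomeomorph P (Cn (n + 1))), IsKBun e π E :=
  ⟨(KB.core he).TotalSpace, inferInstance, KB.t2 he, (KB.core he).proj, KB.chart he,
    { cont := FiberBundle.continuous_proj ℂ (KB.core he).Fiber
      source := KB.chart_source he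
      target := KB.chart_target he
      tl_eq := fun _ _ _ => rfl
      tr_eq := fun c c' _ hz => KB.tr_chart he c c' hz }⟩

end

end Pool.Agent.KRFKo

end

section

/-!
# Theorem G on the total space of the canonical bundle
-/

open scoped ContDiff Topology
open Set MeasureTheory Filter Pool.Agent.ToricKRF Pool.Agent.ToricKRF.G Pool.Agent.KRFS
  Pool.Agent.KRFF Pool.Agent.KRFQ

namespace Pool.Agent.KRFKo

section

variable {M : Type} [TopologicalSpace M] {n : ℕ} {κ : Type}
  {e : κ → OpenPartialHomeomorph M (Cn n)} {V : Set M} {w g : κ → Cn n → ℝ}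

/-- Countably many charts cover `V` if there is an exhaustion. -/
theorem exists_seq_charts [Nonempty κ] (hcov : ∀ p ∈ V, ∃ c, p ∈ (e c).source) {ψ : M → ℝ}
    (hψ : IsExh e V g ψ) : ∃ s : ℕ → κ, V ⊆ ⋃ i, (e (s i)).source := by
  have h1 : ∀ k : ℕ, ∃ t : Finset κ, {p | p ∈ V ∧ ψ p ≤ (k : ℝ)} ⊆ ⋃ c ∈ t, (e c).source :=
    fun k => (hψ.cpt k).elim_finite_subcover (fun c => (e c).source) (fun c => (e c).open_source)
      fun p hp => by
        obtain ⟨c, hc⟩ := hcov p hp.1
        exact mem_iUnion.2 ⟨c, hc⟩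
  choose t ht using h1
  have hc : (⋃ k, (t k : Set κ)).Countable := countable_iUnion fun k => (t k).countable_toSet
  obtain ⟨c₀⟩ := ‹Nonempty κ›
  obtain ⟨s, hs⟩ := (hc.insert c₀).exists_eq_range (insert_nonempty _ _)
  refine ⟨s, fun p hp => ?_⟩
  obtain ⟨k, hk⟩ := exists_nat_ge (ψ p)
  obtain ⟨c, hct, hpc⟩ := mem_iUnion₂.1 (ht k ⟨hp, hk⟩)
  have h2 : c ∈ range s := by
    rw [← hs]
    exact mem_insert_of_mem _ (mem_iUnion.2 ⟨k, hct⟩)
  obtain ⟨i, rfl⟩ := h2
  exact mem_iUnion.2 ⟨i, hpc⟩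

/-- The densities of a measure matter only on the targets of the charts. -/
theorem isDens_congr [MeasurableSpace M] {w' : κ → Cn n → ℝ} {μ : Measure M} (h : IsDens e w μ)
    (hw : ∀ c, ∀ z ∈ (e c).target, w' c z = w c z) : IsDens e w' μ where
  eq c := by
    rw [h.eq c]
    congr 1
    refine withDensity_congr_ae ?_
    filter_upwards [ae_restrict_mem (e c).open_target.measurableSet] with z hz
    rw [hw c z hz]

end

section

variable {M P : Type} [TopologicalSpace M] [TopologicalSpace P] {n : ℕ} {κ : Type}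
  {e : κ → OpenPartialHomeomorph M (Cn n)} {π : P → M}
  {E : κ → OpenPartialHomeomorph P (Cn (n + 1))}

theorem tl_mem_of_mem (hb : IsKBun e π E) {V : Set M} (hV : IsOpen V) (hVp : IsOpen (Vp E π V))
    {c : κ} {y : Cn (n + 1)} (hy : y ∈ (rs E hVp c).target) : tl y ∈ (rs e hV c).target := by
  obtain ⟨h1, h2⟩ := (mem_rs_target hVp c).1 hy
  have h3 : tl y ∈ (e c).target := by
    rw [hb.target c] at h1
    exact h1
  refine (mem_rs_target hV c).2 ⟨h3, ?_⟩
  have h4 : (E c).symm y ∈ (E c).source := (E c).map_target h1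
  have h5 := hb.tl_eq c _ h4
  rw [(E c).right_inv h1] at h5
  have h6 : π ((E c).symm y) ∈ (e c).source := by
    rw [hb.source c] at h4
    exact h4
  rw [h5, (e c).left_inv h6]
  exact h2.1

end

section

variable {M P : Type} [TopologicalSpace M] [TopologicalSpace P] {n : ℕ} {κ : Type}
  {e : κ → OpenPartialHomeomorph M (Cn n)} {π : P → M}
  {E : κ → OpenPartialHomeomorph P (Cn (n + 1))}

/-- B2e, from the metric data `l2d_bun`, `exh_bun` and `wtP_facts` -/
theorem exists_hol_of [T2Space P] [MeasurableSpace P] [BorelSpace P] [Nonempty κ]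
    (hb : IsKBun e π E) {V : Set M} (hV : IsOpen V)
    (hVp : IsOpen (Vp E π V)) {w : κ → Cn n → ℝ} (h0 : L2D (rs e hV) V w (kf w))
    {G : κ → Cn (n + 1) → ℝ} (hL : L2D (rs E hVp) (Vp E π V) (fun _ _ => 1) G) {ψ' : P → ℝ}
    (hψ' : IsExh (rs E hVp) (Vp E π V) G ψ') {m : ℕ} {W : M → ℝ} {ρ : P → ℝ}
    (hρ : ∀ c, ∀ y ∈ (rs E hVp c).target,
      pb (rs E hVp) c ρ y = wtP (rs e hV) w m W c y)
    (hwt : ∀ c, ContDiffOn ℝ ∞ (wtP (rs e hV) w m W c) (rs E hVp c).target ∧
      ∀ y ∈ (rs E hVp c).target, ∀ v,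
        levz (kf w c) (tl v) (tl y) ≤ levz (wtP (rs e hV) w m W c) v y) :
    ∃ μ : Measure P, IsDens (rs E hVp) (fun c y => Real.exp (-wtP (rs e hV) w m W c y)) μ ∧
      μ (Vp E π V)ᶜ = 0 ∧
      ∀ (χ : P → ℂ) (B : P → ℝ), Sm (rs E hVp) χ → MemLp χ 2 μ → (∀ v, 0 ≤ B v) →
        Integrable B μ →
        (∀ c, ∀ y ∈ (rs E hVp c).target, ∀ v,
          ‖∑ j, dzb j (pb (rs E hVp) c χ) y * (starRingEnd ℂ) (cc v j)‖ ^ 2 ≤
            B ((rs E hVp c).symm y) * levz (kf w c) (tl v) (tl y)) →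
        ∃ b : P → ℂ, (∀ c, ContDiffOn ℝ ∞ (pb (rs E hVp) c b) (rs E hVp c).target ∧
          ∀ k, ∀ y ∈ (rs E hVp c).target, dzb k (pb (rs E hVp) c b) y = 0) ∧
          MemLp b 2 μ ∧ ∫ v, ‖χ v - b v‖ ^ 2 ∂μ ≤ ∫ v, B v ∂μ := by
  have hρs : ∀ c, ContDiffOn ℝ ∞ (pb (rs E hVp) c ρ) (rs E hVp c).target := fun c =>
    (hwt c).1.congr fun y hy => hρ c y hy
  have hL' := hL.mul_exp hρs
  obtain ⟨s, hs⟩ := exists_seq_charts hL'.cover hψ'
  obtain ⟨μ, hμV, hμ⟩ := hL'.exists_measure s hs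
  have hD : IsDens (rs E hVp) (fun c z => 1 * Real.exp (-pb (rs E hVp) c ρ z)) μ := ⟨hμ⟩
  refine ⟨μ, isDens_congr hD fun c z hz => ?_, hμV, ?_⟩
  · rw [one_mul, hρ c z hz]
  intro χ B hχ hχ2 hB0 hBi hB
  have hkf : ∀ c, ContDiffOn ℝ ∞ (kf w c) (rs e hV c).target := h0.g_smooth
  have hlev : ∀ c, ∀ z ∈ (rs E hVp c).target, ∀ u,
      levz (fun y => kf w c (tl y)) u z = levz (kf w c) (tl u) (tl z) := fun c z hz u =>
    levz_tl (rs e hV c).open_target (hkf c) (tl_mem_of_mem hb hV hVp hz) u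
  obtain ⟨b, hb1, hb2, hle⟩ := hD.hormander hL' hψ' s hs hμV (k := fun c y => kf w c (tl y))
    (c₀ := 1) one_pos (fun c z hz u => by
      rw [hlev c z hz u]
      by_cases hu : tl u = 0
      · rw [hu, levz_zero_vec]
      · exact (h0.g_pos c _ (tl_mem_of_mem hb hV hVp hz) _ hu).le)
    (fun c z hz u => by
      have h1 : (fun x => -Real.log (1 * Real.exp (-pb (rs E hVp) c ρ x))) =ᶠ[𝓝 z]
          wtP (rs e hV) w m W c := by
        filter_upwards [(rs E hVp c).open_target.mem_nhds hz] with x hx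
        rw [one_mul, Real.log_exp, neg_neg, hρ c x hx]
      rw [one_mul, hlev c z hz u, Bd.levz_congr h1 u]
      exact (hwt c).2 z hz u)
    hχ hχ2 hB0 hBi (fun c z hz u => by
      rw [hlev c z hz u]
      exact hB c z hz u)
  refine ⟨b, hb1, hb2, ?_⟩
  rwa [inv_one, one_mul] at hle

end

end Pool.Agent.KRFKo

end

section

/-!
# The metric and the weight on the canonical bundle
-/

open scoped ContDiff Topology
open Set Filter Pool.Agent.ToricKRF Pool.Agent.ToricKRF.G Pool.Agent.KRFS Pool.Agent.KRFF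
  Pool.Agent.KRFQ

namespace Pool.Agent.KRFKo

section

variable {M P : Type} [TopologicalSpace M] [TopologicalSpace P] {n : ℕ} {κ : Type}
  {e : κ → OpenPartialHomeomorph M (Cn n)} {π : P → M}
  {E : κ → OpenPartialHomeomorph P (Cn (n + 1))}

theorem isOpen_tlhd {U : Set (Cn n)} (hU : IsOpen U) :
    IsOpen {y : Cn (n + 1) | tl y ∈ U ∧ hd y ≠ 0} :=
  (hU.preimage contDiff_tl.continuous).inter (isOpen_ne.preimage contDiff_hd.continuous)

theorem contDiffOn_tlf {f : Cn n → ℝ} {U : Set (Cn n)} (hf : ContDiffOn ℝ ∞ f U) :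
    ContDiffOn ℝ ∞ (fun y => f (tl y)) {y : Cn (n + 1) | tl y ∈ U ∧ hd y ≠ 0} :=
  hf.comp contDiff_tl.contDiffOn fun _ hy => hy.1

theorem contDiffOn_nr {w : κ → Cn n → ℝ} {c : κ} {U : Set (Cn n)}
    (hw : ContDiffOn ℝ ∞ (w c) U) (hw0 : ∀ x ∈ U, 0 < w c x) :
    ContDiffOn ℝ ∞ (nr w c) {y : Cn (n + 1) | tl y ∈ U ∧ hd y ≠ 0} := by
  have h1 : ContDiffOn ℝ ∞ (fun y : Cn (n + 1) => Real.log (‖hd y‖ ^ 2))
      {y | tl y ∈ U ∧ hd y ≠ 0} := by
    refine ContDiffOn.log ((contDiff_norm_sq ℝ).comp contDiff_hd).contDiffOn fun y hy => ?_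
    have : 0 < ‖hd y‖ := norm_pos_iff.2 hy.2
    positivity
  exact h1.sub (contDiffOn_tlf (hw.log fun x hx => (hw0 x hx).ne'))

/-- the charts of the bundle without the zero section -/
theorem IsKBun.mem_dom_rs (hb : IsKBun e π E) (he : IsAtlas e) {V : Set M} (hV : IsOpen V)
    (hVp : IsOpen (Vp E π V)) {c c' : κ} {y : Cn (n + 1)} (hy : y ∈ dom (rs E hVp) c c') :
    tl y ∈ dom (rs e hV) c c' ∧ hd y ≠ 0 := by
  obtain ⟨h1, h2⟩ := (hb.mem_target he hV hVp c y).1 hy.1
  have h3 := (hb.mem_dom c c' y).1 (dom_rs hVp c c' hy)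
  refine ⟨⟨h1, ?_⟩, h2⟩
  rw [rs_source]
  exact ⟨h3.2, ((mem_rs_target hV c).1 h1).2⟩

theorem IsKBun.tl_tr (hb : IsKBun e π E) {c c' : κ} {y : Cn (n + 1)}
    (hy : tl y ∈ dom e c c') : tl (tr E c c' y) = tr e c c' (tl y) := by
  rw [hb.tr_eq c c' y hy, tl_jn]

/-- the derivative of the base coordinates of the change of charts -/
theorem IsKBun.tl_fderiv (hb : IsKBun e π E) (he : IsAtlas e) {c c' : κ} {y : Cn (n + 1)}
    (hy : tl y ∈ dom e c c') (v : Cn (n + 1)) :
    tl (fderiv ℝ (tr E c c') y v) = fderiv ℝ (tr e c c') (tl y) (tl v) := by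
  have hy' : y ∈ dom E c c' := (hb.mem_dom c c' y).2 hy
  have h1 : HasFDerivAt (tr E c c') (fderiv ℝ (tr E c c') y) y :=
    (HolOn.differentiableAt (KRFQ.isOpen_dom c c') (hb.holo he c c') hy').hasFDerivAt
  have h2 : HasFDerivAt (tr e c c') (fderiv ℝ (tr e c c') (tl y)) (tl y) :=
    (HolOn.differentiableAt (KRFQ.isOpen_dom c c') (he.holo c c') hy).hasFDerivAt
  have h3 := ((tlL (n := n)).hasFDerivAt.comp y h1).fderiv
  have h4 : fderiv ℝ (tr e c c' ∘ ⇑(tlL (n := n))) y =
      (fderiv ℝ (tr e c c') (tl y)).comp tlL :=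
    (HasFDerivAt.comp (g := tr e c c') (f := ⇑(tlL (n := n))) y h2
      (tlL (n := n)).hasFDerivAt).fderiv
  have h5 : (⇑(tlL (n := n)) ∘ tr E c c') =ᶠ[𝓝 y] (tr e c c' ∘ ⇑(tlL (n := n))) := by
    filter_upwards [(KRFQ.isOpen_dom c c').mem_nhds hy'] with x hx
    exact hb.tl_tr ((hb.mem_dom c c' x).1 hx)
  rw [h5.fderiv_eq, h4] at h3
  exact (DFunLike.congr_fun h3 v).symm

theorem L2D.w_smooth_rs {V : Set M} {w g : κ → Cn n → ℝ} (h : L2D e V w g) (c : κ) :
    ContDiffOn ℝ ∞ (kf w c) (e c).target :=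
  ((h.w_smooth c).log fun z hz => (h.w_pos c z hz).ne').neg

/-- the metric on the bundle -/
theorem levz_bun {w g : κ → Cn n → ℝ} {U : Set (Cn n)} {c : κ} (hU : IsOpen U)
    (hw : ContDiffOn ℝ ∞ (w c) U) (hw0 : ∀ x ∈ U, 0 < w c x) (hg : ContDiffOn ℝ ∞ (g c) U)
    {y : Cn (n + 1)} (hy : tl y ∈ U) (h0 : hd y ≠ 0) (v : Cn (n + 1)) :
    levz (fun y => g c (tl y) + Uf (nr w c y)) v y = levz (g c) (tl v) (tl y) +
      (deriv Uf (nr w c y) * levz (kf w c) (tl v) (tl y) + 1 / (1 + nr w c y ^ 2) *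
        (((D v (nr w c) y) ^ 2 + (D (J v) (nr w c) y) ^ 2) / 4)) := by
  have hn := (isOpen_tlhd hU).mem_nhds (show y ∈ {y | tl y ∈ U ∧ hd y ≠ 0} from ⟨hy, h0⟩)
  rw [Bd.levz_add, levz_tl hU hg hy, levz_scomp Uf_facts.1 (isOpen_tlhd hU) (contDiffOn_nr hw hw0)
    ⟨hy, h0⟩, levz_nr hU hw hw0 hy h0, Uf_facts.2.2]
  · exact ((contDiffOn_tlf hg).contDiffAt hn).of_le two_le_infty
  · exact ((Uf_facts.1.comp_contDiffOn (contDiffOn_nr hw hw0)).contDiffAt hn).of_le two_le_infty

theorem D_log_hd {y : Cn (n + 1)} (h0 : hd y ≠ 0) (v : Cn (n + 1)) :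
    D v (fun y : Cn (n + 1) => Real.log (‖hd y‖ ^ 2)) y =
      2 * ((starRingEnd ℂ) (hd y) * hd v).re / ‖hd y‖ ^ 2 := by
  have h1 : HasFDerivAt (fun y : Cn (n + 1) => hd y) (hdL (n := n)) y := (hdL (n := n)).hasFDerivAt
  have h2 := (h1.norm_sq.log (by positivity)).fderiv
  unfold D
  rw [h2]
  simp only [smul_apply, ContinuousLinearMap.comp_apply, innerSL_apply_apply, hdL_apply,
    smul_eq_mul, nsmul_eq_mul, Complex.inner]
  push_cast
  rw [mul_comm (hd v)]
  ring

/-- the derivative of the norm along the fibres -/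
theorem D_nr_pos {w : κ → Cn n → ℝ} {c : κ} {y v : Cn (n + 1)}
    (hw : DifferentiableAt ℝ (kf w c) (tl y)) (h0 : hd y ≠ 0) (hv : tl v = 0) (hv0 : v ≠ 0) :
    0 < ((D v (nr w c) y) ^ 2 + (D (J v) (nr w c) y) ^ 2) / 4 := by
  have h1 : ∀ u : Cn (n + 1), tl u = 0 → D u (nr w c) y =
      2 * ((starRingEnd ℂ) (hd y) * hd u).re / ‖hd y‖ ^ 2 := by
    intro u hu
    rw [← D_log_hd h0]
    have h2 : HasFDerivAt (fun y : Cn (n + 1) => kf w c (tl y))
        ((fderiv ℝ (kf w c) (tl y)).comp tlL) y :=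
      HasFDerivAt.comp (g := kf w c) (f := ⇑(tlL (n := n))) y hw.hasFDerivAt
        (tlL (n := n)).hasFDerivAt
    have h3 : DifferentiableAt ℝ (fun y : Cn (n + 1) => Real.log (‖hd y‖ ^ 2)) y := by
      have h4 : HasFDerivAt (fun y : Cn (n + 1) => hd y) (hdL (n := n)) y :=
        (hdL (n := n)).hasFDerivAt
      exact (h4.norm_sq.log (by positivity)).differentiableAt
    have h5 := (h3.hasFDerivAt.add h2).fderiv
    have h6 : nr w c = (fun y : Cn (n + 1) => Real.log (‖hd y‖ ^ 2)) + fun y => kf w c (tl y) := by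
      funext y
      simp only [nr, kf, Pi.add_apply]
      ring
    unfold D
    rw [h6, h5, add_apply, ContinuousLinearMap.comp_apply, tlL_apply, hu, map_zero, add_zero]
  have h2 : tl (J v) = 0 := by
    rw [tl_J, hv]
    simp [J]
  have h3 : hd v ≠ 0 := by
    intro h4
    apply hv0
    rw [← jn_hd_tl v, h4, hv]
    refine Prod.ext ?_ ?_ <;> funext i <;> refine Fin.cases ?_ (fun j => ?_) i <;> rfl
  rw [h1 v hv, h1 _ h2, hd_J]
  have h5 : (2 * ((starRingEnd ℂ) (hd y) * hd v).re / ‖hd y‖ ^ 2) ^ 2 +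
      (2 * ((starRingEnd ℂ) (hd y) * (Complex.I * hd v)).re / ‖hd y‖ ^ 2) ^ 2 =
      4 * (‖hd v‖ ^ 2 / ‖hd y‖ ^ 2) := by
    have h6 : 0 < ‖hd y‖ ^ 2 := by positivity
    have h7 : ((starRingEnd ℂ) (hd y) * (Complex.I * hd v)).re =
        -((starRingEnd ℂ) (hd y) * hd v).im := by
      simp only [Complex.mul_re, Complex.mul_im, Complex.I_re, Complex.I_im, Complex.conj_re,
        Complex.conj_im]
      ring
    have h8 : ((starRingEnd ℂ) (hd y) * hd v).re ^ 2 + ((starRingEnd ℂ) (hd y) * hd v).im ^ 2 =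
        ‖hd y‖ ^ 2 * ‖hd v‖ ^ 2 := by
      rw [← mul_pow, ← Complex.norm_conj (hd y), ← norm_mul, Complex.sq_norm, Complex.normSq_apply]
      ring
    rw [h7]
    field_simp
    linear_combination 4 * h8
  rw [h5]
  have h6 : 0 < ‖hd v‖ := norm_pos_iff.2 h3
  have h7 : 0 < ‖hd y‖ := norm_pos_iff.2 h0
  positivity

/-- B2b -/
theorem l2d_bun (hb : IsKBun e π E) (he : IsAtlas e) {V : Set M} (hV : IsOpen V)
    (hVp : IsOpen (Vp E π V)) {w g : κ → Cn n → ℝ} (h0 : L2D (rs e hV) V w (kf w))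
    (h : L2D (rs e hV) V w g) :
    L2D (rs E hVp) (Vp E π V) (fun _ _ => 1) (fun c y => g c (tl y) + Uf (nr w c y)) where
  sub c v hv := by
    rw [rs_source] at hv
    exact hv.2
  cover v hv := by
    obtain ⟨c, hc, -⟩ := hv.2
    exact ⟨c, by rw [rs_source]; exact ⟨hc, hv⟩⟩
  holo c c' := ⟨(hb.holo he c c').1.mono (dom_rs hVp c c'),
    fun z hz u => (hb.holo he c c').2 z (dom_rs hVp c c' hz) u⟩
  w_smooth c := contDiffOn_const
  w_pos c z hz := one_pos
  w_compat c c' z hz := by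
    rw [mul_one]
    exact (hb.det_one he c c' (dom_rs hVp c c' hz)).symm
  w_lev c c' z hz u := by
    simp only [Bd.levz_const]
  g_smooth c := by
    have h1 : (rs E hVp c).target = {y | tl y ∈ (rs e hV c).target ∧ hd y ≠ 0} := by
      ext y
      exact hb.mem_target he hV hVp c y
    rw [h1]
    exact (contDiffOn_tlf (h.g_smooth c)).add
      (Uf_facts.1.comp_contDiffOn (contDiffOn_nr (h.w_smooth c) (h.w_pos c)))
  g_pos c y hy v hv := by
    obtain ⟨h1, h2⟩ := (hb.mem_target he hV hVp c y).1 hy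
    rw [levz_bun (rs e hV c).open_target (h.w_smooth c) (h.w_pos c) (h.g_smooth c) h1 h2]
    have h3 := Uf_facts.2.1 (nr w c y)
    have h4 : 0 ≤ 1 / (1 + nr w c y ^ 2) *
        (((D v (nr w c) y) ^ 2 + (D (J v) (nr w c) y) ^ 2) / 4) := by positivity
    by_cases h5 : tl v = 0
    · rw [h5, levz_zero_vec, levz_zero_vec, mul_zero, zero_add, zero_add]
      have hd1 : DifferentiableAt ℝ (kf w c) (tl y) :=
        ((h0.g_smooth c).differentiableOn (by simp)).differentiableAt
          ((rs e hV c).open_target.mem_nhds h1)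
      have h6 := D_nr_pos hd1 h2 h5 hv
      positivity
    · have h6 := h.g_pos c _ h1 _ h5
      have h7 := h0.g_pos c _ h1 _ h5
      positivity
  g_compat c c' y hy v := by
    obtain ⟨h1, h2⟩ := hb.mem_dom_rs he hV hVp hy
    have h1' : tl y ∈ dom e c c' := dom_rs hV c c' h1
    have hyt := (hb.mem_target he hV hVp c y).1 hy.1
    have hyt' := (hb.mem_target he hV hVp c' _).1 (tr_mem_target hy)
    have hyd : y ∈ dom (rs E hVp) c c' := hy
    have hn := (isOpen_tlhd (rs e hV c).open_target).mem_nhds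
      (show y ∈ {y | tl y ∈ (rs e hV c).target ∧ hd y ≠ 0} from hyt)
    have hn' := (isOpen_tlhd (rs e hV c').open_target).mem_nhds
      (show tr (rs E hVp) c c' y ∈ {y | tl y ∈ (rs e hV c').target ∧ hd y ≠ 0} from hyt')
    have hs : ∀ c, ContDiffOn ℝ ∞ (fun y => Uf (nr w c y))
        {y | tl y ∈ (rs e hV c).target ∧ hd y ≠ 0} := fun c =>
      Uf_facts.1.comp_contDiffOn (contDiffOn_nr (h.w_smooth c) (h.w_pos c))
    rw [Bd.levz_add (((contDiffOn_tlf (h.g_smooth c)).contDiffAt hn).of_le two_le_infty)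
      (((hs c).contDiffAt hn).of_le two_le_infty),
      Bd.levz_add (((contDiffOn_tlf (h.g_smooth c')).contDiffAt hn').of_le two_le_infty)
      (((hs c').contDiffAt hn').of_le two_le_infty),
      levz_tl (rs e hV c).open_target (h.g_smooth c) hyt.1,
      levz_tl (rs e hV c').open_target (h.g_smooth c') hyt'.1]
    congr 1
    · rw [h.g_compat c c' _ h1]
      change _ = levz (g c') (tl (fderiv ℝ (tr E c c') y v)) (tl (tr E c c' y))
      rw [hb.tl_fderiv he h1', hb.tl_tr h1']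
      rfl
    · have h3 : (fun y => Uf (nr w c y)) =ᶠ[𝓝 y]
          fun y => (fun y => Uf (nr w c' y)) (tr (rs E hVp) c c' y) := by
        filter_upwards [(KRFQ.isOpen_dom c c').mem_nhds hyd] with x hx
        obtain ⟨h4, h5⟩ := hb.mem_dom_rs he hV hVp hx
        change _ = Uf (nr w c' (tr E c c' x))
        rw [hb.nr_tr he hV h h4 h5]
      rw [Bd.levz_congr h3]
      refine levz_comp (isOpen_tlhd (rs e hV c').open_target) (hs c') (KRFQ.isOpen_dom c c')
        (S := dom (rs E hVp) c c') ?_ hyd hyt' v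
      exact ⟨(hb.holo he c c').1.mono (dom_rs hVp c c'),
        fun z hz u => (hb.holo he c c').2 z (dom_rs hVp c c' hz) u⟩

theorem contDiff_sp : ContDiff ℝ ∞ fun r : ℝ => Real.log (1 + Real.exp r) :=
  ContDiff.log (contDiff_const.add Real.contDiff_exp) fun r => by positivity

theorem hasDerivAt_sp (r : ℝ) :
    HasDerivAt (fun r => Real.log (1 + Real.exp r)) (Real.exp r / (1 + Real.exp r)) r := by
  have h0 : 1 + Real.exp r ≠ 0 := by positivity
  exact ((Real.hasDerivAt_exp r).const_add 1).log h0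

theorem hasDerivAt_sp₁ (r : ℝ) : HasDerivAt (fun r => Real.exp r / (1 + Real.exp r))
    (Real.exp r / (1 + Real.exp r) ^ 2) r := by
  have h0 : 1 + Real.exp r ≠ 0 := by positivity
  refine ((Real.hasDerivAt_exp r).fun_div ((Real.hasDerivAt_exp r).const_add 1) h0).congr_deriv ?_
  ring

/-- B2d: the weight -/
theorem wtP_facts (hb : IsKBun e π E) (he : IsAtlas e) {V : Set M} (hV : IsOpen V)
    (hVp : IsOpen (Vp E π V)) {w : κ → Cn n → ℝ} (h0 : L2D (rs e hV) V w (kf w)) {m : ℕ}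
    {W : M → ℝ} (hW : ∀ c, ContDiffOn ℝ ∞ (pb (rs e hV) c W) (rs e hV c).target)
    (hWl : ∀ c, ∀ z ∈ (rs e hV c).target, ∀ v,
      -((m : ℝ) - 1) * levz (kf w c) v z ≤ levz (pb (rs e hV) c W) v z) :
    (∃ ρ : P → ℝ, ∀ c, ∀ y ∈ (rs E hVp c).target,
      pb (rs E hVp) c ρ y = wtP (rs e hV) w m W c y) ∧
    ∀ c, ContDiffOn ℝ ∞ (wtP (rs e hV) w m W c) (rs E hVp c).target ∧
      ∀ y ∈ (rs E hVp c).target, ∀ v,
        levz (kf w c) (tl v) (tl y) ≤ levz (wtP (rs e hV) w m W c) v y := by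
  refine ⟨⟨fun v => (glob (rs E hVp) (fun c y => (wtP (rs e hV) w m W c y : ℂ)) v).re,
    fun c y hy => ?_⟩, fun c => ?_⟩
  · have h1 : ∀ c c', ∀ y ∈ dom (rs E hVp) c c', (wtP (rs e hV) w m W c' (tr (rs E hVp) c c' y) : ℂ) =
        (wtP (rs e hV) w m W c y : ℂ) := by
      intro c c' y hy
      obtain ⟨h2, h3⟩ := hb.mem_dom_rs he hV hVp hy
      have h2' : tl y ∈ dom e c c' := dom_rs hV c c' h2
      congr 1
      change wtP (rs e hV) w m W c' (tr E c c' y) = _
      unfold wtP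
      rw [hb.nr_tr he hV h0 h2 h3, hb.tl_tr h2']
      congr 2
      exact symm_tr h2
    have h2 := pb_glob (F := fun c y => (wtP (rs e hV) w m W c y : ℂ)) h1 hy
    have h3 : pb (rs E hVp) c (fun v => (glob (rs E hVp)
        (fun c y => (wtP (rs e hV) w m W c y : ℂ)) v).re) y =
        (pb (rs E hVp) c (glob (rs E hVp) (fun c y => (wtP (rs e hV) w m W c y : ℂ))) y).re := rfl
    rw [h3, h2, Complex.ofReal_re]
  · have ht : (rs E hVp c).target = {y | tl y ∈ (rs e hV c).target ∧ hd y ≠ 0} := by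
      ext y
      exact hb.mem_target he hV hVp c y
    rw [ht]
    have hr := contDiffOn_nr (w := w) (h0.w_smooth c) (h0.w_pos c)
    have hs := contDiff_sp.comp_contDiffOn hr
    have h1 : ContDiffOn ℝ ∞ (fun y => (m : ℝ) * nr w c y)
      {y | tl y ∈ (rs e hV c).target ∧ hd y ≠ 0} := contDiffOn_const.mul hr
    have h2 : ContDiffOn ℝ ∞ (fun y => 2 * Real.log (1 + Real.exp (nr w c y)))
      {y | tl y ∈ (rs e hV c).target ∧ hd y ≠ 0} := contDiffOn_const.mul hs
    have h3 : ContDiffOn ℝ ∞ (fun y => pb (rs e hV) c W (tl y))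
      {y | tl y ∈ (rs e hV c).target ∧ hd y ≠ 0} := contDiffOn_tlf (hW c)
    have heq : wtP (rs e hV) w m W c = fun y => (m : ℝ) * nr w c y +
        2 * Real.log (1 + Real.exp (nr w c y)) + pb (rs e hV) c W (tl y) := rfl
    refine ⟨(h1.add h2).add h3, fun y hy v => ?_⟩
    have hn := (isOpen_tlhd (rs e hV c).open_target).mem_nhds hy
    have k0 := (hr.contDiffAt hn).of_le two_le_infty
    have k1 := (h1.contDiffAt hn).of_le two_le_infty
    have k2 := (h2.contDiffAt hn).of_le two_le_infty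
    have k3 := (h3.contDiffAt hn).of_le two_le_infty
    have k4 : ContDiffAt ℝ 2 (fun y => Real.log (1 + Real.exp (nr w c y))) y :=
      (hs.contDiffAt hn).of_le two_le_infty
    have h5 : levz (fun y => Real.log (1 + Real.exp (nr w c y))) v y =
        Real.exp (nr w c y) / (1 + Real.exp (nr w c y)) * levz (nr w c) v y +
        Real.exp (nr w c y) / (1 + Real.exp (nr w c y)) ^ 2 *
          ((D v (nr w c) y ^ 2 + D (J v) (nr w c) y ^ 2) / 4) :=
      levz_fcomp (φ := fun r => Real.log (1 + Real.exp r))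
        (φ₁ := fun r => Real.exp r / (1 + Real.exp r))
        (φ₂ := fun r => Real.exp r / (1 + Real.exp r) ^ 2) (fun x _ => hasDerivAt_sp _)
        (fun x _ => hasDerivAt_sp₁ _) (isOpen_tlhd (rs e hV c).open_target) hr hy v
    rw [heq, Bd.levz_add (k1.add k2) k3, Bd.levz_add k1 k2, Bd.levz_const_mul _ k0,
      Bd.levz_const_mul _ k4, h5, levz_nr (rs e hV c).open_target (h0.w_smooth c) (h0.w_pos c)
        hy.1 hy.2, levz_tl (rs e hV c).open_target (hW c) hy.1]
    have h6 := hWl c _ hy.1 (tl v)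
    have h7 : 0 ≤ levz (kf w c) (tl v) (tl y) := by
      by_cases h8 : tl v = 0
      · rw [h8, levz_zero_vec]
      · exact (h0.g_pos c _ hy.1 _ h8).le
    have h8 : 0 ≤ Real.exp (nr w c y) / (1 + Real.exp (nr w c y)) *
        levz (kf w c) (tl v) (tl y) := by positivity
    have h9 : 0 ≤ Real.exp (nr w c y) / (1 + Real.exp (nr w c y)) ^ 2 *
        ((D v (nr w c) y ^ 2 + D (J v) (nr w c) y ^ 2) / 4) := by positivity
    linarith

end

end Pool.Agent.KRFKo

end

section

/-!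
# An exhaustion function of the canonical bundle without the zero section
-/

open scoped ContDiff Topology
open Set MeasureTheory Filter Pool.Agent.ToricKRF Pool.Agent.ToricKRF.G Pool.Agent.KRFS
  Pool.Agent.KRFF Pool.Agent.KRFQ

namespace Pool.Agent.KRFKo

section Aux

variable {n : ℕ} {κ : Type} {w : κ → Cn n → ℝ} {c : κ} {U : Set (Cn n)}

theorem px_isOpen (hU : IsOpen U) : IsOpen {y : Cn (n + 1) | tl y ∈ U ∧ hd y ≠ 0} :=
  (isOpen_tl hU).inter (isOpen_ne.preimage contDiff_hd.continuous)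

theorem px_contDiffOn_nr (hw : ContDiffOn ℝ ∞ (w c) U) (hw0 : ∀ x ∈ U, 0 < w c x) :
    ContDiffOn ℝ ∞ (nr w c) {y | tl y ∈ U ∧ hd y ≠ 0} := by
  have h1 : ContDiffOn ℝ ∞ (fun y : Cn (n + 1) => Real.log (‖hd y‖ ^ 2))
      {y | tl y ∈ U ∧ hd y ≠ 0} :=
    (contDiff_hd.norm_sq ℝ).contDiffOn.log fun y hy => by
      have := norm_pos_iff.2 hy.2
      positivity
  have h2 : ContDiffOn ℝ ∞ (fun y : Cn (n + 1) => Real.log (w c (tl y)))
      {y | tl y ∈ U ∧ hd y ≠ 0} :=
    (hw.log fun x hx => (hw0 x hx).ne').comp contDiff_tl.contDiffOn fun y hy => hy.1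
  exact h1.sub h2

theorem px_log_smooth : ContDiff ℝ ∞ fun r : ℝ => Real.log (1 + r ^ 2) :=
  (contDiff_const.add (contDiff_id.pow 2)).log fun r => by positivity

theorem px_log_deriv (r : ℝ) :
    HasDerivAt (fun r : ℝ => Real.log (1 + r ^ 2)) (2 * r / (1 + r ^ 2)) r := by
  have h0 : (1 : ℝ) + r ^ 2 ≠ 0 := by positivity
  have h2 : HasDerivAt (fun r : ℝ => 1 + r ^ 2) (2 * r) r := by
    simpa using ((hasDerivAt_pow 2 r).const_add (1 : ℝ))
  exact h2.log h0

/-- the algebra of the gradient estimate -/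
theorem px_alg (a b r : ℝ) :
    ((a + 2 * r / (1 + r ^ 2) * b) / 3) ^ 2 ≤ a ^ 2 + 1 / (1 + r ^ 2) * b ^ 2 := by
  have h0 : (0 : ℝ) < 1 + r ^ 2 := by positivity
  have h1 : (2 * r / (1 + r ^ 2)) ^ 2 ≤ 4 * (1 / (1 + r ^ 2)) := by
    rw [div_pow, div_le_iff₀ (by positivity)]
    have : 4 * (1 / (1 + r ^ 2)) * (1 + r ^ 2) ^ 2 = 4 * (1 + r ^ 2) := by
      field_simp
    rw [this]
    nlinarith
  have h2 : (2 * r / (1 + r ^ 2) * b) ^ 2 ≤ 4 * (1 / (1 + r ^ 2)) * b ^ 2 := by
    rw [mul_pow]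
    exact mul_le_mul_of_nonneg_right h1 (sq_nonneg b)
  have h3 : 0 ≤ 1 / (1 + r ^ 2) * b ^ 2 := by positivity
  nlinarith [sq_nonneg (a - 2 * r / (1 + r ^ 2) * b), sq_nonneg a]

/-- compact sets of points `(ξ, x)` -/
theorem px_compact {A : Set (Cn n)} (hA : IsCompact A) (a b : ℝ) :
    IsCompact {y : Cn (n + 1) | tl y ∈ A ∧ a ≤ ‖hd y‖ ∧ ‖hd y‖ ≤ b} := by
  have h1 : IsCompact {ξ : ℂ | a ≤ ‖ξ‖ ∧ ‖ξ‖ ≤ b} := by
    have h2 : {ξ : ℂ | a ≤ ‖ξ‖ ∧ ‖ξ‖ ≤ b} = Metric.closedBall 0 b ∩ {ξ : ℂ | a ≤ ‖ξ‖} := by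
      ext ξ
      simp only [mem_ofPred_eq, mem_inter_iff, mem_closedBall_zero_iff]
      exact and_comm
    rw [h2]
    exact (isCompact_closedBall 0 b).inter_right (isClosed_le continuous_const continuous_norm)
  have h3 : {y : Cn (n + 1) | tl y ∈ A ∧ a ≤ ‖hd y‖ ∧ ‖hd y‖ ≤ b} =
      (fun p : ℂ × Cn n => jn p.1 p.2) '' ({ξ : ℂ | a ≤ ‖ξ‖ ∧ ‖ξ‖ ≤ b} ×ˢ A) := by
    ext y
    constructor
    · rintro ⟨hy, h4⟩
      exact ⟨(hd y, tl y), ⟨h4, hy⟩, jn_hd_tl y⟩
    · rintro ⟨⟨ξ, x⟩, ⟨h4, h5⟩, rfl⟩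
      exact ⟨by simpa using h5, by simpa using h4⟩
  rw [h3]
  exact (h1.prod hA).image contDiff_jn.continuous

end Aux

section Grad

variable {n : ℕ} {κ : Type} {w : κ → Cn n → ℝ} {c : κ} {U : Set (Cn n)}

theorem px_D_tl {f : Cn n → ℝ} {y : Cn (n + 1)} (hf : DifferentiableAt ℝ f (tl y))
    (u : Cn (n + 1)) : D u (fun y => f (tl y)) y = D (tl u) f (tl y) := by
  have h1 : HasFDerivAt (tl : Cn (n + 1) → Cn n) (tlL (n := n)) y := (tlL (n := n)).hasFDerivAt
  have h2 := (hf.hasFDerivAt.comp y h1).fderiv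
  unfold D
  change fderiv ℝ (f ∘ tl) y u = _
  rw [h2]
  rfl

/-- the gradient of the exhaustion function -/
theorem px_grad (hU : IsOpen U) {f g : Cn n → ℝ} (hf : ContDiffOn ℝ ∞ f U)
    (hg : ContDiffOn ℝ ∞ g U) (hw : ContDiffOn ℝ ∞ (w c) U) (hw0 : ∀ x ∈ U, 0 < w c x)
    (hk : ∀ x ∈ U, ∀ u, 0 ≤ levz (kf w c) u x)
    (hgr : ∀ x ∈ U, ∀ u, ((D u f x) ^ 2 + (D (J u) f x) ^ 2) / 4 ≤ levz g u x)
    {y : Cn (n + 1)} (hy : tl y ∈ U) (h0 : hd y ≠ 0) (u : Cn (n + 1)) :
    ((D u (fun y => (f (tl y) + Real.log (1 + nr w c y ^ 2)) / 3) y) ^ 2 +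
      (D (J u) (fun y => (f (tl y) + Real.log (1 + nr w c y ^ 2)) / 3) y) ^ 2) / 4 ≤
      levz (fun y => g (tl y) + Uf (nr w c y)) u y := by
  have hS := px_isOpen hU
  have hyS : y ∈ {y : Cn (n + 1) | tl y ∈ U ∧ hd y ≠ 0} := ⟨hy, h0⟩
  have hnr := px_contDiffOn_nr (n := n) hw hw0
  have hnrd : DifferentiableAt ℝ (nr w c) y :=
    (hnr.differentiableOn (by simp)).differentiableAt (hS.mem_nhds hyS)
  have hfd : DifferentiableAt ℝ f (tl y) :=
    (hf.differentiableOn (by simp)).differentiableAt (hU.mem_nhds hy)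
  have hfd' : DifferentiableAt ℝ (fun y => f (tl y)) y :=
    hfd.comp y (contDiff_tl.differentiable (by simp) y)
  have hld : DifferentiableAt ℝ (fun y => Real.log (1 + nr w c y ^ 2)) y :=
    (px_log_smooth.differentiable (by simp) _).comp y hnrd
  have hD : ∀ v, D v (fun y => (f (tl y) + Real.log (1 + nr w c y ^ 2)) / 3) y =
      (D (tl v) f (tl y) + 2 * nr w c y / (1 + nr w c y ^ 2) * D v (nr w c) y) / 3 := by
    intro v
    have h1 : (fun y => (f (tl y) + Real.log (1 + nr w c y ^ 2)) / 3) =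
        fun y => ((fun y => f (tl y)) y + (fun y => Real.log (1 + nr w c y ^ 2)) y) * (3 : ℝ)⁻¹ := by
      funext y
      rw [div_eq_mul_inv]
    rw [h1]
    have h2 := (((hfd'.hasFDerivAt.fun_add hld.hasFDerivAt).mul_const (3 : ℝ)⁻¹)).fderiv
    have h3 := px_D_tl hfd v
    have h4 := D_fcomp (px_log_deriv (nr w c y)) hnrd v
    unfold D at h3 h4 ⊢
    rw [h2]
    simp only [smul_apply, add_apply, smul_eq_mul]
    rw [h3, h4]
    ring
  have h2 : ContDiffAt ℝ 2 (fun y => g (tl y)) y :=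
    ((hg.contDiffAt (hU.mem_nhds hy)).of_le (by norm_cast)).comp y
      (contDiff_tl.contDiffAt.of_le (by norm_cast))
  have h3 : ContDiffAt ℝ 2 (fun y => Uf (nr w c y)) y :=
    (Uf_facts.1.contDiffAt.of_le (by norm_cast)).comp y
      ((hnr.contDiffAt (hS.mem_nhds hyS)).of_le (by norm_cast))
  rw [Bd.levz_add h2 h3, levz_tl hU hg hy, levz_scomp Uf_facts.1 hS hnr hyS,
    levz_nr hU hw hw0 hy h0, Uf_facts.2.2, hD, hD, tl_J]
  have h4 := hgr (tl y) hy (tl u)
  have h5 := mul_nonneg (Uf_facts.2.1 (nr w c y)).le (hk (tl y) hy (tl u))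
  have h6 := px_alg (D (tl u) f (tl y)) (D u (nr w c) y) (nr w c y)
  have h7 := px_alg (D (J (tl u)) f (tl y)) (D (J u) (nr w c) y) (nr w c y)
  nlinarith

end Grad

section Bun

variable {M P : Type} [TopologicalSpace M] [TopologicalSpace P] {n : ℕ} {κ : Type}
  {e : κ → OpenPartialHomeomorph M (Cn n)} {π : P → M}
  {E : κ → OpenPartialHomeomorph P (Cn (n + 1))}

open Classical in
/-- the exhaustion function `(ψ ∘ π + log (1 + r^2)) / 3` -/
noncomputable def px (E : κ → OpenPartialHomeomorph P (Cn (n + 1))) (π : P → M)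
    (w : κ → Cn n → ℝ) (ψ : M → ℝ) (v : P) : ℝ :=
  if h : ∃ c, v ∈ (E c).source ∧ hd (E c v) ≠ 0 then
    (ψ (π v) + Real.log (1 + nr w h.choose (E h.choose v) ^ 2)) / 3 else 0

theorem px_eq (hb : IsKBun e π E) (he : IsAtlas e) {V : Set M} (hV : IsOpen V)
    (hVp : IsOpen (Vp E π V)) {w g : κ → Cn n → ℝ} (h : L2D (rs e hV) V w g) (ψ : M → ℝ)
    {c : κ} {v : P} (hv : v ∈ (rs E hVp c).source) :
    px E π w ψ v = (ψ (π v) + Real.log (1 + nr w c (E c v) ^ 2)) / 3 := by
  have hv1 : v ∈ (E c).source ∧ v ∈ Vp E π V := by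
    rw [rs_source] at hv
    exact hv
  have hex : ∃ c, v ∈ (E c).source ∧ hd (E c v) ≠ 0 := hv1.2.2
  rw [px, dif_pos hex]
  have h1 := hex.choose_spec
  set c' := hex.choose
  have hy : E c v ∈ (rs E hVp c).target := (rs E hVp c).map_source hv
  have h2 := (hb.mem_target he hV hVp c (E c v)).1 hy
  have h3 : (E c).symm (E c v) = v := (E c).left_inv hv1.1
  have h4 : (e c).symm (tl (E c v)) = π v := by
    rw [← hb.pi_symm (rs_target_sub hV c h2.1), h3]
  have h5 : tl (E c v) ∈ dom (rs e hV) c c' := by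
    refine ⟨h2.1, ?_⟩
    rw [rs_symm, h4, rs_source]
    refine ⟨?_, hv1.2.1⟩
    have := h1.1
    rw [hb.source] at this
    exact this
  have h6 := hb.nr_tr he hV h h5 h2.2
  have h7 : tr E c c' (E c v) = E c' v := by
    unfold tr
    rw [h3]
  rw [h7] at h6
  rw [h6]

theorem px_pb (hb : IsKBun e π E) (he : IsAtlas e) {V : Set M} (hV : IsOpen V)
    (hVp : IsOpen (Vp E π V)) {w g : κ → Cn n → ℝ} (h : L2D (rs e hV) V w g) (ψ : M → ℝ)
    {c : κ} {y : Cn (n + 1)} (hy : y ∈ (rs E hVp c).target) :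
    pb (rs E hVp) c (px E π w ψ) y =
      (pb (rs e hV) c ψ (tl y) + Real.log (1 + nr w c y ^ 2)) / 3 := by
  have h1 := (hb.mem_target he hV hVp c y).1 hy
  have h2 : (E c).symm y ∈ (rs E hVp c).source := (rs E hVp c).map_target hy
  have h3 : E c ((E c).symm y) = y := (E c).right_inv (rs_target_sub hVp c hy)
  unfold pb
  rw [rs_symm, rs_symm, px_eq hb he hV hVp h ψ h2, hb.pi_symm (rs_target_sub hV c h1.1), h3]

theorem px_continuousOn {V : Set M} (hV : IsOpen V) {w g : κ → Cn n → ℝ}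
    (h : L2D (rs e hV) V w g) {ψ : M → ℝ} (hψ : IsExh (rs e hV) V g ψ) : ContinuousOn ψ V := by
  intro p hp
  obtain ⟨c, hc⟩ := h.cover p hp
  have h1 : ContinuousAt (pb (rs e hV) c ψ) ((rs e hV c) p) :=
    (hψ.smooth c).continuousOn.continuousAt
      ((rs e hV c).open_target.mem_nhds ((rs e hV c).map_source hc))
  have h2 : ContinuousAt (rs e hV c) p := (rs e hV c).continuousAt hc
  have h3 := h1.comp h2
  refine (h3.congr ?_).continuousWithinAt
  filter_upwards [(rs e hV c).open_source.mem_nhds hc] with q hq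
  simp only [Function.comp, pb]
  rw [(rs e hV c).left_inv hq]

/-- B2c: `ψ' = (ψ ∘ π + log (1 + r^2)) / 3` -/
theorem exh_bun [T2Space P] (hb : IsKBun e π E) (he : IsAtlas e) {V : Set M} (hV : IsOpen V)
    (hVp : IsOpen (Vp E π V)) {w g : κ → Cn n → ℝ} (h0 : L2D (rs e hV) V w (kf w))
    (h : L2D (rs e hV) V w g) {ψ : M → ℝ} (hψ : IsExh (rs e hV) V g ψ) :
    ∃ ψ' : P → ℝ, IsExh (rs E hVp) (Vp E π V) (fun c y => g c (tl y) + Uf (nr w c y)) ψ' := by
  have hS : ∀ c, (rs E hVp c).target = {y | tl y ∈ (rs e hV c).target ∧ hd y ≠ 0} := by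
    intro c
    ext y
    exact hb.mem_target he hV hVp c y
  have hnr : ∀ c, ContDiffOn ℝ ∞ (nr w c) {y | tl y ∈ (rs e hV c).target ∧ hd y ≠ 0} := fun c =>
    px_contDiffOn_nr (h.w_smooth c) (h.w_pos c)
  have hG : ∀ c, ContDiffOn ℝ ∞
      (fun y => (pb (rs e hV) c ψ (tl y) + Real.log (1 + nr w c y ^ 2)) / 3)
      {y | tl y ∈ (rs e hV c).target ∧ hd y ≠ 0} := by
    intro c
    have h1 : ContDiffOn ℝ ∞ (fun y => pb (rs e hV) c ψ (tl y))
        {y | tl y ∈ (rs e hV c).target ∧ hd y ≠ 0} :=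
      (hψ.smooth c).comp contDiff_tl.contDiffOn fun y hy => hy.1
    have h2 : ContDiffOn ℝ ∞ (fun y => Real.log (1 + nr w c y ^ 2))
        {y | tl y ∈ (rs e hV c).target ∧ hd y ≠ 0} :=
      px_log_smooth.comp_contDiffOn (hnr c)
    exact (h1.add h2).div_const 3
  refine ⟨px E π w ψ, fun c => ?_, fun R => ?_, fun c z hz u => ?_⟩
  · have h1 := hG c
    rw [← hS c] at h1
    exact h1.congr fun y hy => px_pb hb he hV hVp h ψ hy
  · have hcψ := px_continuousOn hV h hψ
    obtain ⟨C₀, hC₀⟩ : ∃ C₀ : ℝ, ∀ p ∈ V, C₀ ≤ ψ p := by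
      obtain ⟨b, hb'⟩ := (hψ.cpt 0).bddBelow_image (hcψ.mono fun p hp => hp.1)
      refine ⟨min b 0, fun p hp => ?_⟩
      by_cases hp0 : ψ p ≤ 0
      · exact (min_le_left _ _).trans (hb' ⟨p, ⟨hp, hp0⟩, rfl⟩)
      · exact (min_le_right _ _).trans (not_le.1 hp0).le
    have hK := hψ.cpt (3 * R)
    have key : ∃ T : Set P, IsCompact T ∧ T ⊆ {v | v ∈ Vp E π V ∧ px E π w ψ v ≤ R} ∧
        ∀ v, v ∈ Vp E π V → px E π w ψ v ≤ R → π v ∈ {p | p ∈ V ∧ ψ p ≤ 3 * R} → v ∈ T := by
      refine hK.induction_on (p := fun s => ∃ T : Set P, IsCompact T ∧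
        T ⊆ {v | v ∈ Vp E π V ∧ px E π w ψ v ≤ R} ∧
        ∀ v, v ∈ Vp E π V → px E π w ψ v ≤ R → π v ∈ s → v ∈ T) ?_ ?_ ?_ ?_
      · exact ⟨∅, isCompact_empty, empty_subset _, fun v _ _ hv => hv.elim⟩
      · rintro s t hst ⟨T, h1, h2, h3⟩
        exact ⟨T, h1, h2, fun v hv hv' hs => h3 v hv hv' (hst hs)⟩
      · rintro s t ⟨T, h1, h2, h3⟩ ⟨T', h1', h2', h3'⟩
        refine ⟨T ∪ T', h1.union h1', union_subset h2 h2', fun v hv hv' hs => ?_⟩
        rcases hs with hs | hs
        · exact Or.inl (h3 v hv hv' hs)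
        · exact Or.inr (h3' v hv hv' hs)
      · rintro p ⟨hpV, hpR⟩
        obtain ⟨c, hc⟩ := h.cover p hpV
        have hx := (rs e hV c).map_source hc
        obtain ⟨r, hr, hA⟩ := Metric.nhds_basis_closedBall.mem_iff.1
          ((rs e hV c).open_target.mem_nhds hx)
        set A := Metric.closedBall ((rs e hV c) p) r with hAdef
        have hAc : IsCompact A := isCompact_closedBall _ _
        have hAne : A.Nonempty := ⟨_, Metric.mem_closedBall_self hr.le⟩
        have hwc : ContinuousOn (w c) A := (h.w_smooth c).continuousOn.mono hA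
        obtain ⟨x1, hx1, hmin⟩ := hAc.exists_isMinOn hAne hwc
        obtain ⟨x2, hx2, hmax⟩ := hAc.exists_isMaxOn hAne hwc
        have hw1 : 0 < w c x1 := h.w_pos c x1 (hA hx1)
        set ρ := Real.exp (3 * R - C₀) + 1 with hρ
        set a := √(w c x1 * Real.exp (-ρ)) with ha
        set b := w c x2 * Real.exp ρ + 1 with hb'
        have ha0 : 0 < a := Real.sqrt_pos.2 (mul_pos hw1 (Real.exp_pos _))
        set T0 := {y : Cn (n + 1) | tl y ∈ A ∧ a ≤ ‖hd y‖ ∧ ‖hd y‖ ≤ b} with hT0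
        have hT0c : IsCompact T0 := px_compact hAc a b
        have hT0s : T0 ⊆ {y | tl y ∈ (rs e hV c).target ∧ hd y ≠ 0} := by
          rintro y ⟨h1, h2, -⟩
          exact ⟨hA h1, norm_pos_iff.1 (ha0.trans_le h2)⟩
        set G := fun y => (pb (rs e hV) c ψ (tl y) + Real.log (1 + nr w c y ^ 2)) / 3 with hGd
        have hGc : ContinuousOn G T0 := (hG c).continuousOn.mono hT0s
        have hSc : IsCompact (T0 ∩ G ⁻¹' Iic R) :=
          hT0c.of_isClosed_subset (hGc.preimage_isClosed_of_isClosed hT0c.isClosed isClosed_Iic)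
            inter_subset_left
        have hmem : ∀ y ∈ T0, y ∈ (rs E hVp c).target := fun y hy => by
          rw [hS c]
          exact hT0s hy
        refine ⟨(rs e hV c).source ∩ (rs e hV c) ⁻¹' A, mem_nhdsWithin_of_mem_nhds ?_,
          (rs E hVp c).symm '' (T0 ∩ G ⁻¹' Iic R), ?_, ?_, ?_⟩
        · exact inter_mem ((rs e hV c).open_source.mem_nhds hc)
            ((rs e hV c).continuousAt hc (Metric.closedBall_mem_nhds _ hr))
        · exact hSc.image_of_continuousOn ((rs E hVp c).continuousOn_symm.mono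
            fun y hy => hmem y hy.1)
        · rintro v ⟨y, ⟨hy, hyR⟩, rfl⟩
          have h1 := (rs E hVp c).map_target (hmem y hy)
          rw [rs_source] at h1
          refine ⟨h1.2, ?_⟩
          have h2 := px_pb hb he hV hVp h ψ (hmem y hy)
          unfold pb at h2
          rw [h2]
          exact hyR
        · rintro v hv hvR ⟨hv1, hv2⟩
          have h1 : v ∈ (rs E hVp c).source := by
            rw [rs_source]
            refine ⟨?_, hv⟩
            rw [hb.source]
            rw [rs_source] at hv1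
            exact hv1.1
          have h2 : (rs E hVp c).symm ((rs E hVp c) v) = v := (rs E hVp c).left_inv h1
          have h3 := (rs E hVp c).map_source h1
          have h4 := (hb.mem_target he hV hVp c _).1 h3
          have h5 : v ∈ (E c).source := by
            rw [rs_source] at h1
            exact h1.1
          have h6 : tl ((rs E hVp c) v) = (rs e hV c) (π v) := hb.tl_eq c v h5
          have h7 := px_pb hb he hV hVp h ψ h3
          have h8 : pb (rs E hVp) c (px E π w ψ) ((rs E hVp c) v) = px E π w ψ v := by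
            unfold pb
            rw [h2]
          have h9 : pb (rs e hV) c ψ (tl ((rs E hVp c) v)) = ψ (π v) := by
            unfold pb
            rw [h6, (rs e hV c).left_inv hv1]
          refine ⟨(rs E hVp c) v, ⟨⟨?_, ?_⟩, ?_⟩, h2⟩
          · rw [h6]
            exact hv2
          · set y := (rs E hVp c) v
            rw [h8, h9] at h7
            have hlog : Real.log (1 + nr w c y ^ 2) ≤ 3 * R - C₀ := by
              have := hC₀ (π v) hv.1
              rw [h7] at hvR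
              linarith
            have hpos : (0 : ℝ) < 1 + nr w c y ^ 2 := by positivity
            have hle : 1 + nr w c y ^ 2 ≤ Real.exp (3 * R - C₀) :=
              (Real.log_le_iff_le_exp hpos).1 hlog
            have habs : |nr w c y| ≤ ρ := by
              rw [abs_le]
              constructor <;> nlinarith [sq_nonneg (nr w c y + 1), sq_nonneg (nr w c y - 1)]
            rw [abs_le] at habs
            have hwy : 0 < w c (tl y) := h.w_pos c _ h4.1
            have hny : 0 < ‖hd y‖ ^ 2 := by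
              have := norm_pos_iff.2 h4.2
              positivity
            have heq : ‖hd y‖ ^ 2 = w c (tl y) * Real.exp (nr w c y) := by
              unfold nr
              rw [Real.exp_sub, Real.exp_log hny, Real.exp_log hwy]
              field_simp
            have hyA : tl y ∈ A := by
              rw [h6]
              exact hv2
            have hm1 : w c x1 ≤ w c (tl y) := hmin hyA
            have hm2 : w c (tl y) ≤ w c x2 := hmax hyA
            constructor
            · rw [ha]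
              refine Real.sqrt_le_iff.2 ⟨norm_nonneg _, ?_⟩
              rw [heq]
              exact mul_le_mul hm1 (Real.exp_le_exp.2 habs.1) (Real.exp_pos _).le hwy.le
            · have h10 : ‖hd y‖ ^ 2 ≤ w c x2 * Real.exp ρ := by
                rw [heq]
                exact mul_le_mul hm2 (Real.exp_le_exp.2 habs.2) (Real.exp_pos _).le
                  (hwy.le.trans hm2)
              rw [hb']
              nlinarith [sq_nonneg (‖hd y‖ - 1), norm_nonneg (hd y)]
          · change G _ ≤ R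
            rw [h8] at h7
            rw [hGd]
            change (pb (rs e hV) c ψ (tl ((rs E hVp c) v)) +
              Real.log (1 + nr w c ((rs E hVp c) v) ^ 2)) / 3 ≤ R
            rw [← h7]
            exact hvR
    obtain ⟨T, h1, h2, h3⟩ := key
    have h4 : {v | v ∈ Vp E π V ∧ px E π w ψ v ≤ R} = T := by
      refine Subset.antisymm (fun v hv => ?_) h2
      refine h3 v hv.1 hv.2 ⟨hv.1.1, ?_⟩
      obtain ⟨c, hc⟩ := hv.1.2
      have h5 : v ∈ (rs E hVp c).source := by
        rw [rs_source]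
        exact ⟨hc.1, hv.1⟩
      have h6 := px_eq hb he hV hVp h ψ h5
      have h7 : 0 ≤ Real.log (1 + nr w c (E c v) ^ 2) :=
        Real.log_nonneg (by nlinarith [sq_nonneg (nr w c (E c v))])
      have h8 := hv.2
      rw [h6] at h8
      linarith
    rw [h4]
    exact h1
  · have hz' := (hb.mem_target he hV hVp c z).1 hz
    have h1 : pb (rs E hVp) c (px E π w ψ) =ᶠ[𝓝 z]
        fun y => (pb (rs e hV) c ψ (tl y) + Real.log (1 + nr w c y ^ 2)) / 3 := by
      filter_upwards [(rs E hVp c).open_target.mem_nhds hz] with y hy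
      exact px_pb hb he hV hVp h ψ hy
    have h2 : ∀ v, D v (pb (rs E hVp) c (px E π w ψ)) z =
        D v (fun y => (pb (rs e hV) c ψ (tl y) + Real.log (1 + nr w c y ^ 2)) / 3) z := by
      intro v
      unfold D
      rw [h1.fderiv_eq]
    rw [h2, h2]
    refine px_grad (rs e hV c).open_target (hψ.smooth c) (h.g_smooth c) (h.w_smooth c)
      (h.w_pos c) (fun x hx u => ?_) (hψ.grad c) hz'.1 hz'.2 u
    by_cases hu : u = 0
    · rw [hu, levz_zero_vec]
    · exact (h0.g_pos c x hx u hu).le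

end Bun

end Pool.Agent.KRFKo

end

section

/-!
# Theorem G on the total space of the canonical bundle
-/

open scoped ContDiff Topology
open Set MeasureTheory Filter Pool.Agent.ToricKRF Pool.Agent.ToricKRF.G Pool.Agent.KRFS
  Pool.Agent.KRFF Pool.Agent.KRFQ

namespace Pool.Agent.KRFKo

section

variable {M P : Type} [TopologicalSpace M] [TopologicalSpace P] {n : ℕ} {κ : Type}
  {e : κ → OpenPartialHomeomorph M (Cn n)} {π : P → M}
  {E : κ → OpenPartialHomeomorph P (Cn (n + 1))}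

/-- B2e: Theorem G on the bundle -/
theorem exists_hol [T2Space P] [MeasurableSpace P] [BorelSpace P] [Nonempty κ]
    (hb : IsKBun e π E) (he : IsAtlas e) {V : Set M} (hV : IsOpen V)
    (hVp : IsOpen (Vp E π V)) {w g : κ → Cn n → ℝ} (h0 : L2D (rs e hV) V w (kf w))
    (h : L2D (rs e hV) V w g) {ψ : M → ℝ} (hψ : IsExh (rs e hV) V g ψ) {m : ℕ}
    {W : M → ℝ} (hW : ∀ c, ContDiffOn ℝ ∞ (pb (rs e hV) c W) (rs e hV c).target)
    (hWl : ∀ c, ∀ z ∈ (rs e hV c).target, ∀ v,
      -((m : ℝ) - 1) * levz (kf w c) v z ≤ levz (pb (rs e hV) c W) v z) :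
    ∃ μ : Measure P, IsDens (rs E hVp) (fun c y => Real.exp (-wtP (rs e hV) w m W c y)) μ ∧
      μ (Vp E π V)ᶜ = 0 ∧
      ∀ (χ : P → ℂ) (B : P → ℝ), Sm (rs E hVp) χ → MemLp χ 2 μ → (∀ v, 0 ≤ B v) →
        Integrable B μ →
        (∀ c, ∀ y ∈ (rs E hVp c).target, ∀ v,
          ‖∑ j, dzb j (pb (rs E hVp) c χ) y * (starRingEnd ℂ) (cc v j)‖ ^ 2 ≤
            B ((rs E hVp c).symm y) * levz (kf w c) (tl v) (tl y)) →
        ∃ b : P → ℂ, (∀ c, ContDiffOn ℝ ∞ (pb (rs E hVp) c b) (rs E hVp c).target ∧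
          ∀ k, ∀ y ∈ (rs E hVp c).target, dzb k (pb (rs E hVp) c b) y = 0) ∧
          MemLp b 2 μ ∧ ∫ v, ‖χ v - b v‖ ^ 2 ∂μ ≤ ∫ v, B v ∂μ := by
  obtain ⟨⟨ρ, hρ⟩, hwt⟩ := wtP_facts hb he hV hVp h0 hW hWl
  obtain ⟨ψ', hψ'⟩ := exh_bun hb he hV hVp h0 h hψ
  exact exists_hol_of hb hV hVp h0 (l2d_bun hb he hV hVp h0 h) hψ' hρ hwt

end

end Pool.Agent.KRFKo

end

section

/-!
# The `∂bar`-equation for the sections of `-m K`
-/

open scoped ContDiff Topology ENNReal
open Set MeasureTheory Filter Pool.Agent.ToricKRF Pool.Agent.ToricKRF.G Pool.Agent.KRFS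
  Pool.Agent.KRFF Pool.Agent.KRFQ

namespace Pool.Agent.KRFKo

namespace Sc

section

variable {n : ℕ}

theorem continuous_hd : Continuous (hd : Cn (n + 1) → ℂ) := contDiff_hd.continuous

theorem continuous_tl : Continuous (tl : Cn (n + 1) → Cn n) := contDiff_tl.continuous

theorem volume_hd_zero : volume {y : Cn (n + 1) | hd y = 0} = 0 := by
  have h1 : {y : Cn (n + 1) | hd y = 0} = (LinearMap.ker (hdL (n := n)).toLinearMap :
      Submodule ℝ (Cn (n + 1))) := by
    ext y
    simp [hdL_apply]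
  rw [h1]
  have : (volume : Measure (Cn (n + 1))).IsAddHaarMeasure :=
    Measure.prod.instIsAddHaarMeasure _ _
  refine Measure.addHaar_submodule _ _ ?_
  intro h
  have h2 : jn 1 (0 : Cn n) ∈ LinearMap.ker (hdL (n := n)).toLinearMap := by
    rw [h]
    trivial
  have h3 : hd (jn 1 (0 : Cn n)) = 0 := h2
  rw [hd_jn] at h3
  exact one_ne_zero h3

theorem measurableSet_inter_preimage {X Y : Type*} [TopologicalSpace X] [MeasurableSpace X]
    [BorelSpace X] [TopologicalSpace Y] [MeasurableSpace Y] [BorelSpace Y] {S : Set X}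
    (hS : IsOpen S) {f : X → Y} (hf : ContinuousOn f S) {A : Set Y} (hA : MeasurableSet A) :
    MeasurableSet {x | x ∈ S ∧ f x ∈ A} := by
  have h1 : Continuous (S.domRestrict f) := continuousOn_iff_continuous_domRestrict.1 hf
  have h2 : MeasurableSet (((↑) : S → X) '' (S.domRestrict f ⁻¹' A)) :=
    hS.measurableSet.subtype_image (h1.measurable hA)
  have h3 : ((↑) : S → X) '' (S.domRestrict f ⁻¹' A) = {x | x ∈ S ∧ f x ∈ A} := by
    ext z
    simp only [mem_image, mem_preimage, Subtype.exists, mem_ofPred_eq]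
    constructor
    · rintro ⟨x, hx, h, rfl⟩
      exact ⟨hx, h⟩
    · rintro ⟨hz, h⟩
      exact ⟨z, hz, h, rfl⟩
  rwa [h3] at h2

end

section

variable {M P : Type} [TopologicalSpace M] [TopologicalSpace P] {n : ℕ} {κ : Type}
  {e : κ → OpenPartialHomeomorph M (Cn n)} {π : P → M}
  {E : κ → OpenPartialHomeomorph P (Cn (n + 1))}

theorem exp_wtP {V : Set M} (hV : IsOpen V) (w : κ → Cn n → ℝ) (m : ℕ) (W : M → ℝ) (c : κ)
    (ξ : ℂ) (x : Cn n) : Real.exp (-wtP (rs e hV) w m W c (jn ξ x)) =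
      fw m (w c x) ξ * Real.exp (-pb (rs e hV) c W x) := by
  rw [fw, ← Real.exp_add]
  congr 1
  simp only [wtP, nr, hd_jn, tl_jn, pb]
  ring

/-- integrals over a part of the bundle -/
theorem lintegral_bun [MeasurableSpace P] [BorelSpace P] (hb : IsKBun e π E) (he : IsAtlas e)
    {V : Set M} (hV : IsOpen V) (hVp : IsOpen (Vp E π V)) {w : κ → Cn n → ℝ} {m : ℕ}
    {W : M → ℝ} {μ : Measure P}
    (hμ : IsDens (rs E hVp) (fun c y => Real.exp (-wtP (rs e hV) w m W c y)) μ)
    {c : κ} (hw : ContinuousOn (wtP (rs e hV) w m W c) (rs E hVp c).target)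
    {A : Set (Cn n)} (hA : MeasurableSet A) (hAs : A ⊆ (rs e hV c).target) {f : P → ℝ≥0∞}
    (hf : ContinuousOn (fun y => f ((E c).symm y)) (rs E hVp c).target) :
    ∫⁻ v in {v | v ∈ (rs E hVp c).source ∧ tl (E c v) ∈ A}, f v ∂μ =
      ∫⁻ x in A, ∫⁻ ξ : ℂ, ENNReal.ofReal (fw m (w c x) ξ *
        Real.exp (-pb (rs e hV) c W x)) * f ((E c).symm (jn ξ x)) := by
  classical
  set S := (rs E hVp c).source with hS
  set X := {v | v ∈ S ∧ tl (E c v) ∈ A} with hX
  set T := (rs E hVp c).target with hT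
  have hTo : IsOpen T := (rs E hVp c).open_target
  have hTm := hTo.measurableSet
  have hcE : ContinuousOn (fun v => tl (E c v)) S :=
    continuous_tl.comp_continuousOn (rs E hVp c).continuousOn
  have hXm : MeasurableSet X :=
    measurableSet_inter_preimage (rs E hVp c).open_source hcE hA
  have hexp : ContinuousOn (fun y => Real.exp (-wtP (rs e hV) w m W c y)) T := hw.neg.rexp
  have hfS : ContinuousOn f S := by
    have h1 : ContinuousOn (fun v => f ((E c).symm (E c v))) S :=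
      hf.comp (rs E hVp c).continuousOn fun v hv => (rs E hVp c).map_source hv
    refine h1.congr fun v hv => ?_
    exact congrArg f ((rs E hVp c).left_inv hv).symm
  rw [lintegral_chart hμ hexp hXm (fun v hv => hv.1)
    ((hfS.aemeasurable (rs E hVp c).open_source.measurableSet).mono_measure
      (Measure.restrict_mono (fun v hv => hv.1) le_rfl))]
  -- the integrand
  set F : Cn (n + 1) → ℝ≥0∞ := fun y =>
    ENNReal.ofReal (Real.exp (-wtP (rs e hV) w m W c y)) * f ((E c).symm y) with hF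
  have hFT : AEMeasurable F (volume.restrict T) :=
    ((hexp.aemeasurable hTm).ennreal_ofReal).mul (hf.aemeasurable hTm)
  have hTA : T ∩ {y | tl y ∈ A} = {y | tl y ∈ A} \ {y | hd y = 0} := by
    ext y
    simp only [hT, mem_inter_iff, hb.mem_target he hV hVp c y, mem_ofPred_eq, Set.mem_sdiff]
    exact ⟨fun h => ⟨h.2, h.1.2⟩, fun h => ⟨⟨hAs h.1, h.2⟩, h.1⟩⟩
  have hAm : MeasurableSet {y : Cn (n + 1) | tl y ∈ A} := continuous_tl.measurable hA
  have hae : ({y : Cn (n + 1) | tl y ∈ A} \ {y | hd y = 0} : Set (Cn (n + 1))) =ᵐ[volume]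
      {y | tl y ∈ A} := sdiff_null_ae_eq_self volume_hd_zero
  have h1 : ∫⁻ z in T, ENNReal.ofReal (Real.exp (-wtP (rs e hV) w m W c z)) *
      X.indicator f ((rs E hVp c).symm z) = ∫⁻ y in {y | tl y ∈ A}, F y := by
    rw [← setLIntegral_congr hae, ← hTA, inter_comm, ← Measure.restrict_restrict hAm,
      ← lintegral_indicator hAm]
    refine setLIntegral_congr_fun hTm fun y hy => ?_
    have h2 : (rs E hVp c).symm y ∈ X ↔ tl y ∈ A := by
      have h3 : tl (E c ((rs E hVp c).symm y)) = tl y :=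
        congrArg tl ((rs E hVp c).right_inv hy)
      simp only [hX, mem_ofPred_eq, h3]
      exact ⟨fun h => h.2, fun h => ⟨(rs E hVp c).map_target hy, h⟩⟩
    by_cases hyA : tl y ∈ A
    · rw [indicator_of_mem (h2.2 hyA), indicator_of_mem (show y ∈ {y | tl y ∈ A} from hyA)]
      rfl
    · rw [indicator_of_notMem (fun h => hyA (h2.1 h)),
        indicator_of_notMem (show y ∉ {y | tl y ∈ A} from hyA), mul_zero]
  rw [h1, lintegral_jn hA]
  · refine setLIntegral_congr_fun hA fun x hx => ?_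
    refine lintegral_congr fun ξ => ?_
    simp only [hF]
    rw [exp_wtP]
  · have h4 : (volume.restrict {y : Cn (n + 1) | tl y ∈ A}) =
        (volume.restrict T).restrict {y | tl y ∈ A} := by
      rw [Measure.restrict_restrict hAm, inter_comm, hTA]
      exact (Measure.restrict_congr_set hae).symm
    rw [h4]
    exact hFT.mono_measure Measure.restrict_le_self

/-- the distance to a holomorphic function is at least the distance to its section -/
theorem le_lintegral [MeasurableSpace P] [BorelSpace P] (hb : IsKBun e π E) (he : IsAtlas e)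
    {V : Set M} (hV : IsOpen V) (hVp : IsOpen (Vp E π V)) {w : κ → Cn n → ℝ} {m : ℕ}
    {W : M → ℝ} {μ : Measure P}
    (hμ : IsDens (rs E hVp) (fun c y => Real.exp (-wtP (rs e hV) w m W c y)) μ)
    {c : κ} (hw : ContinuousOn (wtP (rs e hV) w m W c) (rs E hVp c).target)
    (hw0 : ∀ x ∈ (rs e hV c).target, 0 < w c x)
    {A : Set (Cn n)} (hA : MeasurableSet A) (hAs : A ⊆ (rs e hV c).target) {χ b : P → ℂ}
    (hχ : ContinuousOn (fun y => χ ((E c).symm y)) (rs E hVp c).target)
    (hb0 : ContinuousOn (fun y => b ((E c).symm y)) (rs E hVp c).target)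
    (hbd : ∀ x ∈ A, DifferentiableOn ℂ (fun ξ => b ((E c).symm (jn ξ x))) {0}ᶜ)
    {a : Cn n → ℂ} (ha : ∀ x ∈ A, ∀ ξ : ℂ, ξ ≠ 0 → χ ((E c).symm (jn ξ x)) = a x * ξ ^ m) :
    ENNReal.ofReal Real.pi * ∫⁻ x in A, ENNReal.ofReal
      (‖a x - cm m fun ξ => b ((E c).symm (jn ξ x))‖ ^ 2 * w c x ^ (m + 1) *
        Real.exp (-pb (rs e hV) c W x)) ≤ ∫⁻ v, ENNReal.ofReal (‖χ v - b v‖ ^ 2) ∂μ := by
  refine le_trans ?_ (setLIntegral_le_lintegral
    {v | v ∈ (rs E hVp c).source ∧ tl (E c v) ∈ A} _)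
  rw [lintegral_bun hb he hV hVp hμ hw hA hAs
    (ENNReal.continuous_ofReal.comp_continuousOn ((hχ.sub hb0).norm.pow 2)),
    ← lintegral_const_mul' _ _ ENNReal.ofReal_ne_top]
  refine setLIntegral_mono' hA fun x hx => ?_
  have h1 : ∫⁻ ξ : ℂ, ENNReal.ofReal (fw m (w c x) ξ * Real.exp (-pb (rs e hV) c W x)) *
      ENNReal.ofReal (‖χ ((E c).symm (jn ξ x)) - b ((E c).symm (jn ξ x))‖ ^ 2) =
      ENNReal.ofReal (Real.exp (-pb (rs e hV) c W x)) * ∫⁻ ξ : ℂ, ENNReal.ofReal
        (‖a x * ξ ^ m - b ((E c).symm (jn ξ x))‖ ^ 2 * fw m (w c x) ξ) := by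
    rw [← lintegral_const_mul' _ _ ENNReal.ofReal_ne_top]
    refine lintegral_congr_ae ?_
    have h2 : ∀ᵐ ξ : ℂ, ξ ≠ 0 := by
      exact (Countable.ae_notMem (countable_singleton (0 : ℂ)) volume).mono fun ξ h => h
    filter_upwards [h2] with ξ hξ
    rw [ha x hx ξ hξ, ← ENNReal.ofReal_mul (by unfold fw; positivity),
      ← ENNReal.ofReal_mul (by positivity)]
    congr 1
    ring
  rw [h1]
  refine le_trans ?_ (mul_le_mul_right (fibre_le (hbd x hx) m (a x) (hw0 x (hAs hx)))
    (ENNReal.ofReal (Real.exp (-pb (rs e hV) c W x))))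
  rw [← ENNReal.ofReal_mul Real.pi_pos.le, ← ENNReal.ofReal_mul (Real.exp_pos _).le]
  refine (ENNReal.ofReal_le_ofReal (le_of_eq ?_))
  ring

/-- the integral of a function `B(x) |ξ|^(2m)` -/
theorem lintegral_eq [MeasurableSpace P] [BorelSpace P] (hb : IsKBun e π E) (he : IsAtlas e)
    {V : Set M} (hV : IsOpen V) (hVp : IsOpen (Vp E π V)) {w : κ → Cn n → ℝ} {m : ℕ}
    {W : M → ℝ} {μ : Measure P}
    (hμ : IsDens (rs E hVp) (fun c y => Real.exp (-wtP (rs e hV) w m W c y)) μ)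
    {c : κ} (hw : ContinuousOn (wtP (rs e hV) w m W c) (rs E hVp c).target)
    (hw0 : ∀ x ∈ (rs e hV c).target, 0 < w c x) {B : Cn n → ℝ} (hB : Continuous B)
    (hB0 : ∀ x, 0 ≤ B x) :
    ∫⁻ v, ENNReal.ofReal ((rs E hVp c).source.indicator
        (fun v => B (tl (E c v)) * ‖hd (E c v)‖ ^ (2 * m)) v) ∂μ =
      ENNReal.ofReal Real.pi * ∫⁻ x in (rs e hV c).target, ENNReal.ofReal
        (B x * w c x ^ (m + 1) * Real.exp (-pb (rs e hV) c W x)) := by
  classical
  set S := (rs E hVp c).source with hS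
  have hset : {v | v ∈ S ∧ tl (E c v) ∈ (rs e hV c).target} = S := by
    ext v
    refine ⟨fun h => h.1, fun h => ⟨h, ?_⟩⟩
    have h1 := (rs E hVp c).map_source h
    exact ((hb.mem_target he hV hVp c _).1 h1).1
  have h1 : ∫⁻ v, ENNReal.ofReal (S.indicator
        (fun v => B (tl (E c v)) * ‖hd (E c v)‖ ^ (2 * m)) v) ∂μ =
      ∫⁻ v in S, ENNReal.ofReal (B (tl (E c v)) * ‖hd (E c v)‖ ^ (2 * m)) ∂μ := by
    rw [← lintegral_indicator (rs E hVp c).open_source.measurableSet]
    refine lintegral_congr fun v => ?_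
    by_cases hv : v ∈ S
    · rw [indicator_of_mem hv, indicator_of_mem hv]
    · rw [indicator_of_notMem hv, indicator_of_notMem hv, ENNReal.ofReal_zero]
  rw [h1, ← hset]
  have hcont : ContinuousOn (fun y => ENNReal.ofReal (B (tl (E c ((E c).symm y))) *
      ‖hd (E c ((E c).symm y))‖ ^ (2 * m))) (rs E hVp c).target := by
    have h2 : Continuous fun y : Cn (n + 1) => ENNReal.ofReal (B (tl y) * ‖hd y‖ ^ (2 * m)) :=
      ENNReal.continuous_ofReal.comp
        ((hB.comp continuous_tl).mul ((continuous_norm.comp continuous_hd).pow _))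
    refine h2.continuousOn.congr fun y hy => ?_
    have h3 : E c ((E c).symm y) = y := (rs E hVp c).right_inv hy
    simp only [h3]
  rw [lintegral_bun hb he hV hVp hμ hw (rs e hV c).open_target.measurableSet subset_rfl hcont,
    ← lintegral_const_mul' _ _ ENNReal.ofReal_ne_top]
  refine setLIntegral_congr_fun (rs e hV c).open_target.measurableSet fun x hx => ?_
  have h4 : ∀ ξ : ℂ, ξ ≠ 0 → E c ((E c).symm (jn ξ x)) = jn ξ x := fun ξ hξ =>
    (rs E hVp c).right_inv ((hb.mem_target he hV hVp c _).2 ⟨by simpa using hx, by simpa using hξ⟩)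
  have h5 : ∫⁻ ξ : ℂ, ENNReal.ofReal (fw m (w c x) ξ * Real.exp (-pb (rs e hV) c W x)) *
      ENNReal.ofReal (B (tl (E c ((E c).symm (jn ξ x)))) *
        ‖hd (E c ((E c).symm (jn ξ x)))‖ ^ (2 * m)) =
      ENNReal.ofReal (B x * Real.exp (-pb (rs e hV) c W x)) * ∫⁻ ξ : ℂ, ENNReal.ofReal
        (‖ξ‖ ^ (2 * m) * fw m (w c x) ξ) := by
    rw [← lintegral_const_mul' _ _ ENNReal.ofReal_ne_top]
    refine lintegral_congr_ae ?_
    filter_upwards [(Countable.ae_notMem (countable_singleton (0 : ℂ)) volume)] with ξ hξ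
    have := hB0 x
    rw [h4 ξ hξ, tl_jn, hd_jn, ← ENNReal.ofReal_mul (by unfold fw; positivity),
      ← ENNReal.ofReal_mul (by positivity)]
    congr 1
    ring
  rw [h5, fibre_eq m (hw0 x hx)]
  have := hB0 x
  rw [← ENNReal.ofReal_mul (by positivity), ← ENNReal.ofReal_mul Real.pi_pos.le]
  congr 1
  ring

/-- the function `G` of the coordinates in the chart `c` -/
noncomputable def xt {F : Type*} [Zero F] {V : Set M} (E : κ → OpenPartialHomeomorph P (Cn (n + 1)))
    (hVp : IsOpen (Vp E π V)) (c : κ) (G : Cn (n + 1) → F) : P → F :=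
  (rs E hVp c).source.indicator fun v => G (E c v)

theorem xt_ev [T2Space M] {F : Type*} [Zero F] (hb : IsKBun e π E) {V : Set M}
    (hV : IsOpen V) (hVp : IsOpen (Vp E π V)) {c : κ} {G : Cn (n + 1) → F} {K : Set (Cn n)}
    (hK : IsCompact K) (hKt : K ⊆ (rs e hV c).target) (hG : ∀ y, tl y ∉ K → G y = 0) {v : P}
    (hv : v ∈ Vp E π V) (hvS : v ∉ (rs E hVp c).source) :
    ∀ᶠ v' in 𝓝 v, xt E hVp c G v' = 0 := by
  have h1 : IsCompact ((e c).symm '' K) :=
    hK.image_of_continuousOn ((e c).continuousOn_symm.mono fun x hx =>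
      rs_target_sub hV c (hKt hx))
  have h2 : v ∉ π ⁻¹' ((e c).symm '' K) := by
    rintro ⟨x, hx, hxv⟩
    apply hvS
    rw [rs_source, hb.source]
    refine ⟨?_, hv⟩
    change π v ∈ (e c).source
    rw [← hxv]
    exact (e c).map_target (rs_target_sub hV c (hKt hx))
  have h3 : (π ⁻¹' ((e c).symm '' K))ᶜ ∈ 𝓝 v :=
    (h1.isClosed.preimage hb.cont).isOpen_compl.mem_nhds h2
  filter_upwards [h3] with v' hv'
  unfold xt
  by_cases hS : v' ∈ (rs E hVp c).source
  · rw [indicator_of_mem hS]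
    refine hG _ fun hm => hv' ?_
    have h4 : v' ∈ (E c).source := by
      rw [rs_source] at hS
      exact hS.1
    have h5 : π v' ∈ (e c).source := by
      have := h4
      rw [hb.source] at this
      exact this
    refine ⟨_, hm, ?_⟩
    rw [hb.tl_eq c v' h4, (e c).left_inv h5]
  · exact indicator_of_notMem hS _

omit [TopologicalSpace M] in
theorem xt_chart {F : Type*} [Zero F] {V : Set M} (hVp : IsOpen (Vp E π V)) {c c' : κ}
    {G : Cn (n + 1) → F} {y : Cn (n + 1)} (hy : y ∈ dom (rs E hVp) c' c) :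
    pb (rs E hVp) c' (xt E hVp c G) =ᶠ[𝓝 y] fun y' => G (tr E c' c y') := by
  filter_upwards [(KRFQ.isOpen_dom c' c).mem_nhds hy] with y' hy'
  change (rs E hVp c).source.indicator (fun v => G (E c v)) ((rs E hVp c').symm y') = _
  rw [indicator_of_mem hy'.2]
  rfl

theorem xt_smooth [T2Space M] {F : Type*} [NormedAddCommGroup F] [NormedSpace ℝ F]
    (hb : IsKBun e π E) (he : IsAtlas e) {V : Set M} (hV : IsOpen V) (hVp : IsOpen (Vp E π V))
    {c : κ} {G : Cn (n + 1) → F} (hGs : ContDiff ℝ ∞ G) {K : Set (Cn n)} (hK : IsCompact K)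
    (hKt : K ⊆ (rs e hV c).target) (hG : ∀ y, tl y ∉ K → G y = 0) (c' : κ) :
    ContDiffOn ℝ ∞ (pb (rs E hVp) c' (xt E hVp c G)) (rs E hVp c').target := by
  intro y hy
  refine ContDiffAt.contDiffWithinAt ?_
  by_cases hq : (rs E hVp c').symm y ∈ (rs E hVp c).source
  · have hdm : y ∈ dom (rs E hVp) c' c := ⟨hy, hq⟩
    have h1 : ContDiffAt ℝ ∞ (fun y' => G (tr E c' c y')) y :=
      hGs.contDiffAt.comp y ((hb.holo he c' c).1.contDiffAt
        ((KRFQ.isOpen_dom c' c).mem_nhds (dom_rs hVp c' c hdm)))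
    exact h1.congr_of_eventuallyEq (xt_chart hVp hdm)
  · have hv : (rs E hVp c').symm y ∈ Vp E π V := by
      have := (rs E hVp c').map_target hy
      rw [rs_source] at this
      exact this.2
    have h1 := ((rs E hVp c').symm.continuousAt hy).eventually
      (xt_ev hb hV hVp hK hKt hG hv hq)
    refine (contDiffAt_const (c := (0 : F))).congr_of_eventuallyEq ?_
    filter_upwards [h1] with x hx
    exact hx

theorem xt_cont [T2Space M] {F : Type*} [NormedAddCommGroup F]
    (hb : IsKBun e π E) {V : Set M} (hV : IsOpen V) (hVp : IsOpen (Vp E π V))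
    {c : κ} {G : Cn (n + 1) → F} (hGs : Continuous G) {K : Set (Cn n)} (hK : IsCompact K)
    (hKt : K ⊆ (rs e hV c).target) (hG : ∀ y, tl y ∉ K → G y = 0) :
    ContinuousOn (xt E hVp c G) (Vp E π V) := by
  intro v hv
  refine ContinuousAt.continuousWithinAt ?_
  by_cases hq : v ∈ (rs E hVp c).source
  · have h1 : ContinuousAt (fun v' => G (E c v')) v :=
      hGs.continuousAt.comp ((rs E hVp c).continuousAt hq)
    refine h1.congr ?_
    filter_upwards [(rs E hVp c).open_source.mem_nhds hq] with v' hv'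
    change _ = (rs E hVp c).source.indicator (fun v => G (E c v)) v'
    rw [indicator_of_mem hv']
  · have h1 := xt_ev hb hV hVp hK hKt hG hv hq
    exact (continuousAt_const (y := (0 : F))).congr (h1.mono fun _ h => h.symm)

/-- `∂bar` of `u(x) ξ^m` -/
theorem dbar_xt [T2Space M] (hb : IsKBun e π E) (he : IsAtlas e) {V : Set M} (hV : IsOpen V)
    (hVp : IsOpen (Vp E π V)) {w : κ → Cn n → ℝ} (h0 : L2D (rs e hV) V w (kf w)) {m : ℕ}
    {c : κ} {u : Cn n → ℂ} {B : Cn n → ℝ} (hu : ContDiff ℝ ∞ u) (huc : HasCompactSupport u)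
    (hus : tsupport u ⊆ (rs e hV c).target)
    (hdb : ∀ z ∈ (rs e hV c).target, ∀ v,
        ‖∑ j, dzb j u z * (starRingEnd ℂ) (cc v j)‖ ^ 2 ≤ B z * levz (kf w c) v z)
    (c' : κ) {y : Cn (n + 1)} (hy : y ∈ (rs E hVp c').target) (v : Cn (n + 1)) :
    ‖∑ j, dzb j (pb (rs E hVp) c' (xt E hVp c fun y => u (tl y) * hd y ^ m)) y *
        (starRingEnd ℂ) (cc v j)‖ ^ 2 ≤
      xt E hVp c (fun y => B (tl y) * ‖hd y‖ ^ (2 * m)) ((rs E hVp c').symm y) *
        levz (kf w c') (tl v) (tl y) := by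
  have hyt := (hb.mem_target he hV hVp c' y).1 hy
  have hlev : 0 ≤ levz (kf w c') (tl v) (tl y) := by
    by_cases h : tl v = 0
    · rw [h, levz_zero_vec]
    · exact (h0.g_pos c' _ hyt.1 _ h).le
  rw [← dbar_apply]
  by_cases hq : (rs E hVp c').symm y ∈ (rs E hVp c).source
  · have hd' : y ∈ dom (rs E hVp) c' c := ⟨hy, hq⟩
    have hdE : y ∈ dom E c' c := dom_rs hVp c' c hd'
    have hde : tl y ∈ dom (rs e hV) c' c := by
      refine ⟨hyt.1, ?_⟩
      have h1 := (hb.mem_target he hV hVp c _).1 (tr_mem_target hd')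
      have h2 : (rs E hVp c').symm y ∈ (E c).source := hdE.2
      rw [hb.source] at h2
      have h3 : π ((E c').symm y) = (e c').symm (tl y) :=
        hb.pi_symm (rs_target_sub hV c' hyt.1)
      rw [rs_source]
      refine ⟨?_, ?_⟩
      · change (e c').symm (tl y) ∈ (e c).source
        rw [← h3]
        exact h2
      · exact ((mem_rs_target hV c').1 hyt.1).2
    have hho := hb.holo he c' c
    have hopE : IsOpen (dom E c' c) := KRFQ.isOpen_dom c' c
    have hope : IsOpen (dom e c' c) := KRFQ.isOpen_dom c' c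
    -- the transition on the base
    have htl : ∀ᶠ y' in 𝓝 y, tl (tr E c' c y') = tr e c' c (tl y') := by
      filter_upwards [hopE.mem_nhds hdE] with y' hy'
      rw [hb.tr_eq c' c y' ((hb.mem_dom c' c y').1 hy'), tl_jn]
    have hdtr : DifferentiableAt ℝ (tr E c' c) y :=
      KRFQ.HolOn.differentiableAt hopE hho hdE
    have hdte : DifferentiableAt ℝ (tr e c' c) (tl y) :=
      KRFQ.HolOn.differentiableAt hope (he.holo c' c) (dom_rs hV c' c hde)
    set H := fderiv ℝ (tr E c' c) y with hH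
    set H' := fderiv ℝ (tr e c' c) (tl y) with hH'
    have hHJ : ∀ v, H (J v) = J (H v) := fun v => hho.2 y hdE v
    have htlH : ∀ v, tl (H v) = H' (tl v) := by
      intro v
      have h1 : HasFDerivAt (fun y' => tl (tr E c' c y')) (tlL.comp H) y :=
        (tlL (n := n)).hasFDerivAt.comp y hdtr.hasFDerivAt
      have h2 : HasFDerivAt (fun y' => tr e c' c (tl y')) (H'.comp tlL) y :=
        HasFDerivAt.comp (g := tr e c' c) (f := tl) y hdte.hasFDerivAt
          (tlL (n := n)).hasFDerivAt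
      have h3 := (h1.congr_of_eventuallyEq (htl.mono fun _ h => h.symm)).unique h2
      exact DFunLike.congr_fun h3 v
    -- the function
    set y₁ := tr E c' c y with hy₁
    have hy₁' : tl y₁ = tr e c' c (tl y) := htl.self_of_nhds
    have hu1 : HasFDerivAt u (fderiv ℝ u (tl y₁)) (tl y₁) :=
      (hu.differentiable (by simp)).differentiableAt.hasFDerivAt
    have hf1 : HasFDerivAt (fun y' : Cn (n + 1) => u (tl y') * hd y' ^ m)
        (u (tl y₁) • ((m • hd y₁ ^ (m - 1)) • (hdL : Cn (n + 1) →L[ℝ] ℂ)) +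
          (hd y₁ ^ m) • (fderiv ℝ u (tl y₁)).comp tlL) y₁ := by
      have h1 : HasFDerivAt (fun y' : Cn (n + 1) => u (tl y')) ((fderiv ℝ u (tl y₁)).comp tlL)
          y₁ := HasFDerivAt.comp (g := u) (f := tl) y₁ hu1 (tlL (n := n)).hasFDerivAt
      have h2 : HasFDerivAt (fun y' : Cn (n + 1) => hd y' ^ m)
          ((m • hd y₁ ^ (m - 1)) • (hdL : Cn (n + 1) →L[ℝ] ℂ)) y₁ :=
        (hdL (n := n)).hasFDerivAt.pow m
      exact h1.mul h2
    have hf2 : HasFDerivAt (pb (rs E hVp) c' (xt E hVp c fun y => u (tl y) * hd y ^ m))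
        ((u (tl y₁) • ((m • hd y₁ ^ (m - 1)) • (hdL : Cn (n + 1) →L[ℝ] ℂ)) +
          (hd y₁ ^ m) • (fderiv ℝ u (tl y₁)).comp tlL).comp H) y :=
      (HasFDerivAt.comp y hf1 hdtr.hasFDerivAt).congr_of_eventuallyEq (xt_chart hVp hd')
    have hval : ∀ v, (fderiv ℝ (pb (rs E hVp) c' (xt E hVp c fun y => u (tl y) * hd y ^ m)) y v) =
        u (tl y₁) * ((m * hd y₁ ^ (m - 1)) * hd (H v)) +
          hd y₁ ^ m * fderiv ℝ u (tl y₁) (H' (tl v)) := by
      intro v
      rw [hf2.fderiv, ← htlH, ← nsmul_eq_mul]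
      rfl
    have hbx : xt E hVp c (fun y => B (tl y) * ‖hd y‖ ^ (2 * m)) ((rs E hVp c').symm y) =
        B (tl y₁) * ‖hd y₁‖ ^ (2 * m) := indicator_of_mem hq _
    rw [hval, hval, hHJ, hd_J, tl_J, hbx]
    have hH'J : H' (J (tl v)) = J (H' (tl v)) :=
      (he.holo c' c).2 _ (dom_rs hV c' c hde) _
    rw [hH'J]
    have h5 := hdb (tl y₁) (by
      have h1 := (hb.mem_target he hV hVp c _).1 (tr_mem_target hd')
      exact h1.1) (H' (tl v))
    rw [← dbar_apply] at h5
    have h6 : levz (kf w c') (tl v) (tl y) = levz (kf w c) (H' (tl v)) (tl y₁) := by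
      rw [hy₁']
      exact h0.g_compat c' c _ hde (tl v)
    have h7 : (u (tl y₁) * ((m * hd y₁ ^ (m - 1)) * hd (H v)) +
          hd y₁ ^ m * fderiv ℝ u (tl y₁) (H' (tl v)) +
        Complex.I * (u (tl y₁) * ((m * hd y₁ ^ (m - 1)) * (Complex.I * hd (H v))) +
          hd y₁ ^ m * fderiv ℝ u (tl y₁) (J (H' (tl v))))) / 2 =
        hd y₁ ^ m * ((fderiv ℝ u (tl y₁) (H' (tl v)) +
          Complex.I * fderiv ℝ u (tl y₁) (J (H' (tl v)))) / 2) := by
      have hI : Complex.I * Complex.I = -1 := Complex.I_mul_I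
      linear_combination (u (tl y₁) * (m * hd y₁ ^ (m - 1)) * hd (H v) / 2) * hI
    rw [h7, norm_mul, mul_pow, norm_pow, ← pow_mul, h6, mul_comm m 2]
    calc ‖hd y₁‖ ^ (2 * m) * _ ≤ ‖hd y₁‖ ^ (2 * m) *
          (B (tl y₁) * levz (kf w c) (H' (tl v)) (tl y₁)) :=
          mul_le_mul_of_nonneg_left h5 (by positivity)
      _ = _ := by ring
  · have hv : (rs E hVp c').symm y ∈ Vp E π V := by
      have := (rs E hVp c').map_target hy
      rw [rs_source] at this
      exact this.2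
    have h1 := ((rs E hVp c').symm.continuousAt hy).eventually
      (xt_ev hb hV hVp huc.isCompact hus (G := fun y => u (tl y) * hd y ^ m)
        (fun y hy => by rw [image_eq_zero_of_notMem_tsupport hy, zero_mul]) hv hq)
    have h2 : pb (rs E hVp) c' (xt E hVp c fun y => u (tl y) * hd y ^ m) =ᶠ[𝓝 y] fun _ => 0 :=
      h1
    rw [h2.fderiv_eq]
    have h3 : xt E hVp c (fun y => B (tl y) * ‖hd y‖ ^ (2 * m)) ((rs E hVp c').symm y) = 0 :=
      indicator_of_notMem hq _
    rw [h3]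
    simp


/-- continuous functions with compact support in a chart are integrable -/
theorem lintegral_ne_top {V : Set M} (hV : IsOpen V) {w : κ → Cn n → ℝ} {m : ℕ} {W : M → ℝ}
    {c : κ} (hw : ContinuousOn (w c) (rs e hV c).target)
    (hW : ContinuousOn (pb (rs e hV) c W) (rs e hV c).target) {G : Cn n → ℝ} (hG : Continuous G)
    (hGc : HasCompactSupport G) (hGs : tsupport G ⊆ (rs e hV c).target) :
    ∫⁻ x in (rs e hV c).target, ENNReal.ofReal
      (G x * w c x ^ (m + 1) * Real.exp (-pb (rs e hV) c W x)) ≠ ⊤ := by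
  have h1 : ContinuousOn (fun x => G x * w c x ^ (m + 1) * Real.exp (-pb (rs e hV) c W x))
      (tsupport G) :=
    (hG.continuousOn.mul ((hw.mono hGs).pow _)).mul (hW.mono hGs).neg.rexp
  have h2 : IntegrableOn (fun x => G x * w c x ^ (m + 1) * Real.exp (-pb (rs e hV) c W x))
      (tsupport G) := h1.integrableOn_compact hGc
  have h3 : ∫⁻ x in (rs e hV c).target, ENNReal.ofReal
      (G x * w c x ^ (m + 1) * Real.exp (-pb (rs e hV) c W x)) =
      ∫⁻ x in tsupport G, ENNReal.ofReal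
        (G x * w c x ^ (m + 1) * Real.exp (-pb (rs e hV) c W x)) := by
    rw [← lintegral_indicator (rs e hV c).open_target.measurableSet,
      ← lintegral_indicator (isClosed_tsupport G).measurableSet]
    refine lintegral_congr fun x => ?_
    by_cases hx : x ∈ tsupport G
    · rw [indicator_of_mem hx, indicator_of_mem (hGs hx)]
    · rw [indicator_of_notMem hx]
      by_cases hx' : x ∈ (rs e hV c).target
      · rw [indicator_of_mem hx', image_eq_zero_of_notMem_tsupport hx]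
        simp
      · rw [indicator_of_notMem hx']
  rw [h3]
  exact h2.lintegral_lt_top.ne

theorem integrable_xt [T2Space M] [MeasurableSpace P] [BorelSpace P] (hb : IsKBun e π E)
    (he : IsAtlas e)
    {V : Set M} (hV : IsOpen V) (hVp : IsOpen (Vp E π V)) {w : κ → Cn n → ℝ} {m : ℕ}
    {W : M → ℝ} {μ : Measure P}
    (hμ : IsDens (rs E hVp) (fun c y => Real.exp (-wtP (rs e hV) w m W c y)) μ)
    (hμ0 : μ (Vp E π V)ᶜ = 0)
    {c : κ} (hwt : ContinuousOn (wtP (rs e hV) w m W c) (rs E hVp c).target)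
    (hw : ContinuousOn (w c) (rs e hV c).target)
    (hW : ContinuousOn (pb (rs e hV) c W) (rs e hV c).target)
    (hw0 : ∀ x ∈ (rs e hV c).target, 0 < w c x) {B : Cn n → ℝ} (hB : Continuous B)
    (hBc : HasCompactSupport B) (hBs : tsupport B ⊆ (rs e hV c).target) (hB0 : ∀ x, 0 ≤ B x) :
    Integrable (xt E hVp c fun y => B (tl y) * ‖hd y‖ ^ (2 * m)) μ := by
  have hnn : ∀ v, 0 ≤ xt E hVp c (fun y => B (tl y) * ‖hd y‖ ^ (2 * m)) v := fun v => by
    refine indicator_nonneg (fun v _ => ?_) v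
    have := hB0 (tl (E c v))
    positivity
  have hcont : ContinuousOn (xt E hVp c fun y => B (tl y) * ‖hd y‖ ^ (2 * m)) (Vp E π V) :=
    xt_cont hb hV hVp ((hB.comp continuous_tl).mul ((continuous_norm.comp continuous_hd).pow _))
      hBc.isCompact hBs fun y hy => by rw [image_eq_zero_of_notMem_tsupport hy, zero_mul]
  have hmeas : AEStronglyMeasurable (xt E hVp c fun y => B (tl y) * ‖hd y‖ ^ (2 * m)) μ := by
    have h1 := hcont.aestronglyMeasurable (μ := μ) hVp.measurableSet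
    rwa [Measure.restrict_eq_self_of_ae_mem
      (by rw [ae_iff]; exact hμ0)] at h1
  refine ⟨hmeas, ?_⟩
  rw [hasFiniteIntegral_iff_ofReal (Eventually.of_forall hnn)]
  have h2 := lintegral_eq hb he hV hVp hμ hwt hw0 hB hB0
  change ∫⁻ v, ENNReal.ofReal ((rs E hVp c).source.indicator
        (fun v => B (tl (E c v)) * ‖hd (E c v)‖ ^ (2 * m)) v) ∂μ < ⊤
  rw [h2]
  exact ENNReal.mul_lt_top ENNReal.ofReal_lt_top
    (lintegral_ne_top hV hw hW hB hBc hBs).lt_top

end

end Sc

open Sc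

/-- **The `∂bar`-equation for the sections of `-m K`.** -/
theorem hasSec {M : Type} [TopologicalSpace M] [T2Space M] {n : ℕ} {κ : Type}
    {e : κ → OpenPartialHomeomorph M (Cn n)} (he : IsAtlas e) {V : Set M} (hV : IsOpen V)
    {w g : κ → Cn n → ℝ} (h0 : L2D (rs e hV) V w (kf w)) (h : L2D (rs e hV) V w g) {ψ : M → ℝ}
    (hψ : IsExh (rs e hV) V g ψ) : HasSec (rs e hV) w := by
  intro m W hW hWl c u B hu huc hus hB hBc hBs hB0 hdb
  have : Nonempty κ := ⟨c⟩
  obtain ⟨P, tP, t2P, π, E, hb⟩ := exists_kbun he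
  let _ : MeasurableSpace P := borel P
  have : BorelSpace P := ⟨rfl⟩
  have hVp := hb.isOpen_Vp hV
  obtain ⟨μ, hμ, hμ0, H⟩ := exists_hol hb he hV hVp h0 h hψ hW hWl
  have hwt : ∀ c, ContinuousOn (wtP (rs e hV) w m W c) (rs E hVp c).target := fun c =>
    ((wtP_facts hb he hV hVp h0 hW hWl).2 c).1.continuousOn
  have hw : ∀ c, ContinuousOn (w c) (rs e hV c).target := fun c =>
    (h0.w_smooth c).continuousOn
  have hWc : ∀ c, ContinuousOn (pb (rs e hV) c W) (rs e hV c).target := fun c =>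
    (hW c).continuousOn
  set χ : P → ℂ := xt E hVp c fun y => u (tl y) * hd y ^ m with hχ
  set BB : P → ℝ := xt E hVp c fun y => B (tl y) * ‖hd y‖ ^ (2 * m) with hBB
  have hBBn : ∀ v, 0 ≤ BB v := fun v => by
    refine indicator_nonneg (fun v _ => ?_) v
    have := hB0 (tl (E c v))
    positivity
  have hBBi : Integrable BB μ :=
    integrable_xt hb he hV hVp hμ hμ0 (hwt c) (hw c) (hWc c) (h0.w_pos c) hB hBc hBs hB0
  have hG : ContDiff ℝ ∞ fun y : Cn (n + 1) => u (tl y) * hd y ^ m :=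
    (hu.comp contDiff_tl).mul (contDiff_hd.pow m)
  have hG0 : ∀ y : Cn (n + 1), tl y ∉ tsupport u → u (tl y) * hd y ^ m = 0 := fun y hy => by
    rw [image_eq_zero_of_notMem_tsupport hy, zero_mul]
  have hχs : Sm (rs E hVp) χ := fun c' =>
    xt_smooth hb he hV hVp hG huc.isCompact hus hG0 c'
  have hχc : ContinuousOn χ (Vp E π V) :=
    xt_cont hb hV hVp hG.continuous huc.isCompact hus hG0
  have hself : μ.restrict (Vp E π V) = μ :=
    Measure.restrict_eq_self_of_ae_mem (by rw [ae_iff]; exact hμ0)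
  have hχm : AEStronglyMeasurable χ μ := by
    have h1 := hχc.aestronglyMeasurable (μ := μ) hVp.measurableSet
    rwa [hself] at h1
  have hχ2 : MemLp χ 2 μ := by
    rw [memLp_two_iff_integrable_sq_norm hχm]
    have h1 := integrable_xt hb he hV hVp hμ hμ0 (hwt c) (hw c) (hWc c) (h0.w_pos c)
      (B := fun x => ‖u x‖ ^ 2) (hu.continuous.norm.pow 2)
      (huc.comp_left (g := fun a : ℂ => ‖a‖ ^ 2) (by simp)) ?_ (fun x => by positivity)
    · refine h1.congr (Eventually.of_forall fun v => ?_)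
      simp only [hχ, xt]
      by_cases hv : v ∈ (rs E hVp c).source
      · rw [indicator_of_mem hv, indicator_of_mem hv, norm_mul, mul_pow, norm_pow, ← pow_mul,
          mul_comm m 2]
      · rw [indicator_of_notMem hv, indicator_of_notMem hv]
        simp
    · refine Subset.trans ?_ hus
      refine closure_mono fun x hx => ?_
      simp only [Function.mem_support] at hx ⊢
      intro h
      exact hx (by simp [h])
  obtain ⟨b, hb1, hb2, hb3⟩ := H χ BB hχs hχ2 hBBn hBBi fun c' y hy v =>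
    dbar_xt hb he hV hVp h0 hu huc hus hdb c' hy v
  have hcsymm : ∀ c' (f : P → ℂ), Sm (rs E hVp) f →
      ContinuousOn (fun y => f ((E c').symm y)) (rs E hVp c').target := fun c' f hf =>
    (hf c').continuousOn
  -- the estimate on the bundle
  set R : ℝ≥0∞ := ∫⁻ z in (rs e hV c).target, ENNReal.ofReal
    (B z * w c z ^ (m + 1) * Real.exp (-pb (rs e hV) c W z)) with hR
  have key : ∫⁻ v, ENNReal.ofReal (‖χ v - b v‖ ^ 2) ∂μ ≤ ENNReal.ofReal Real.pi * R := by
    have h1 : Integrable (fun v => ‖χ v - b v‖ ^ 2) μ :=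
      (memLp_two_iff_integrable_sq_norm (hχ2.sub hb2).1).1 (hχ2.sub hb2)
    rw [← ofReal_integral_eq_lintegral_ofReal h1 (Eventually.of_forall fun v => by positivity)]
    refine le_trans (ENNReal.ofReal_le_ofReal hb3) ?_
    rw [ofReal_integral_eq_lintegral_ofReal hBBi (Eventually.of_forall hBBn), hR]
    exact (lintegral_eq hb he hV hVp hμ (hwt c) (h0.w_pos c) hB hB0).le
  have hπ0 : ENNReal.ofReal Real.pi ≠ 0 := by
    rw [Ne, ENNReal.ofReal_eq_zero, not_le]
    exact Real.pi_pos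
  have hcan : ∀ X : ℝ≥0∞, ENNReal.ofReal Real.pi * X ≤ ENNReal.ofReal Real.pi * R → X ≤ R :=
    fun X hX => (ENNReal.mul_le_mul_iff_right hπ0 ENNReal.ofReal_ne_top).1 hX
  refine ⟨fun c x => cm m fun ξ => b ((E c).symm (jn ξ x)), isSect_cm hb he hV hVp hb1 m,
    hcan _ ?_, fun c' A hA hAs hAd => hcan _ ?_⟩
  · refine le_trans ?_ key
    refine Sc.le_lintegral hb he hV hVp hμ (hwt c) (h0.w_pos c) (rs e hV c).open_target.measurableSet
      subset_rfl (hcsymm c χ hχs) (hcsymm c b fun c' => (hb1 c').1)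
      (fun x hx => (holC_bun hb he hV hVp hb1 m c).2 x hx) fun x hx ξ hξ => ?_
    have h1 : jn ξ x ∈ (rs E hVp c).target :=
      (hb.mem_target he hV hVp c _).2 ⟨by simpa using hx, by simpa using hξ⟩
    have h2 : (E c).symm (jn ξ x) ∈ (rs E hVp c).source := (rs E hVp c).map_target h1
    have h3 : E c ((E c).symm (jn ξ x)) = jn ξ x := (rs E hVp c).right_inv h1
    simp only [hχ, xt]
    rw [indicator_of_mem h2, h3, tl_jn, hd_jn]
  · refine le_trans ?_ key
    have h4 := Sc.le_lintegral hb he hV hVp hμ (hwt c') (h0.w_pos c') hA.measurableSet hAs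
      (hcsymm c' χ hχs) (hcsymm c' b fun c' => (hb1 c').1)
      (fun x hx => (holC_bun hb he hV hVp hb1 m c').2 x (hAs hx)) (a := fun _ => 0)
      fun x hx ξ hξ => ?_
    · simpa only [zero_sub, norm_neg] using h4
    rw [zero_mul]
    simp only [hχ, xt]
    by_cases hv : (E c').symm (jn ξ x) ∈ (rs E hVp c).source
    · rw [indicator_of_mem hv]
      have h5 : (E c').symm (jn ξ x) ∈ (E c).source ∧ (E c').symm (jn ξ x) ∈ Vp E π V := by
        rwa [rs_source] at hv
      have h6 : π ((E c').symm (jn ξ x)) = (e c').symm x := by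
        have := hb.pi_symm (c := c') (y := jn ξ x)
          (by simpa using rs_target_sub hV c' (hAs hx))
        simpa using this
      have h7 : (e c').symm x ∈ (rs e hV c).source := by
        rw [rs_source]
        refine ⟨?_, ?_⟩
        · have := h5.1
          rw [hb.source] at this
          rw [← h6]
          exact this
        · rw [← h6]
          exact h5.2.1
      have h8 := hAd x hx h7
      refine hG0 _ ?_
      rw [hb.tl_eq c _ h5.1, h6]
      exact h8
    · exact indicator_of_notMem hv _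

end Pool.Agent.KRFKo

end
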