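import Pool.Agent.Work.MP_a2bf38_gt.Fu.Ko.Defs
import Pool.Agent.Work.MP_a2bf38_gt.Fu.K.NatSub
import Pool.Agent.Work.MP_a2bf38_gt.Fu.Z.Pole
import Pool.Agent.Work.MP_a2bf38_gt.Fu.L.Defs
import Pool.Agent.Work.MP_a2bf38_gt.Fu.Q.Weyl
import Pool.Agent.Work.MP_a2bf38_gt.Fu.X.NatMono

section

/-!
# KRF VIII, B7b: finite sets of sections that embed a compact set
-/

open scoped ContDiff Topology
open Set MeasureTheory Filter Pool.Agent.ToricKRF Pool.Agent.ToricKRF.G Pool.Agent.KRFS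
  Pool.Agent.KRFF Pool.Agent.KRFQ Pool.Agent.KRFZ

namespace Pool.Agent.KRFKo

section Sets

variable {M : Type} [TopologicalSpace M] {n : ℕ} {κ : Type}
  {e : κ → OpenPartialHomeomorph M (Cn n)}

/-! ### sets of sections -/

/-- the sections in `A` have no common zero at `x` and are immersive there -/
def Loc (e : κ → OpenPartialHomeomorph M (Cn n)) (A : Set (κ → Cn n → ℂ)) (x : M) : Prop :=
  ∀ c, ∀ z ∈ (e c).target, (e c).symm z = x → (∃ s ∈ A, s c z ≠ 0) ∧
    ∀ v, (∃ a : ℂ, ∀ s ∈ A, fderiv ℝ (s c) z v = a * s c z) → v = 0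

/-- the sections in `A` separate `x` and `x'` -/
def Sep (e : κ → OpenPartialHomeomorph M (Cn n)) (A : Set (κ → Cn n → ℂ)) (x x' : M) : Prop :=
  ∀ c, ∀ z ∈ (e c).target, (e c).symm z = x → ∀ c', ∀ z' ∈ (e c').target,
    (e c').symm z' = x' → (∃ a : ℂ, ∀ s ∈ A, s c z = a * s c' z') → x = x'

theorem Loc.mono {A B : Set (κ → Cn n → ℂ)} (h : A ⊆ B) {x : M} (hA : Loc e A x) :
    Loc e B x := by
  intro c z hz hx
  obtain ⟨⟨s, hs, hs0⟩, hi⟩ := hA c z hz hx
  exact ⟨⟨s, h hs, hs0⟩, fun v ⟨a, ha⟩ => hi v ⟨a, fun s hs => ha s (h hs)⟩⟩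

theorem Sep.mono {A B : Set (κ → Cn n → ℂ)} (h : A ⊆ B) {x x' : M} (hA : Sep e A x x') :
    Sep e B x x' :=
  fun c z hz hx c' z' hz' hx' ⟨a, ha⟩ => hA c z hz hx c' z' hz' hx' ⟨a, fun s hs => ha s (h hs)⟩

/-- finitely many sections as a family -/
theorem exists_family {m : ℕ} {K : Set M} {A : Set (κ → Cn n → ℂ)} (hA : A.Finite)
    (hs : ∀ s ∈ A, IsSect e m s) (h1 : ∀ x ∈ K, Loc e A x)
    (h2 : ∀ x ∈ K, ∀ x' ∈ K, Sep e A x x') :
    ∃ (L : ℕ) (s : Fin (L + 1) → κ → Cn n → ℂ), IsEmbK e K m s := by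
  classical
  have hz : IsSect e m (fun _ _ => 0) := ⟨fun c => NF.HolC.const 0 _, fun c c' z _ => by simp⟩
  set F : Finset (κ → Cn n → ℂ) := insert (fun _ _ => 0) hA.toFinset with hF
  have hcard : F.card ≠ 0 := Finset.card_ne_zero_of_mem (Finset.mem_insert_self _ _)
  obtain ⟨L, hL⟩ := Nat.exists_eq_succ_of_ne_zero hcard
  set φ := F.equivFinOfCardEq hL
  have hall : ∀ s ∈ A, ∃ i, (φ.symm i : κ → Cn n → ℂ) = s := fun s hs =>
    ⟨φ ⟨s, Finset.mem_insert_of_mem (hA.mem_toFinset.2 hs)⟩, by simp⟩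
  refine ⟨L, fun i => φ.symm i, ?_, ?_, ?_, ?_⟩
  · intro i
    rcases Finset.mem_insert.1 (φ.symm i).2 with h | h
    · rw [h]
      exact hz
    · exact hs _ (hA.mem_toFinset.1 h)
  · intro c z hz hx
    obtain ⟨⟨s, hs, hs0⟩, -⟩ := h1 _ hx c z hz rfl
    obtain ⟨i, rfl⟩ := hall s hs
    exact ⟨i, hs0⟩
  · intro c z hz hx v ⟨a, ha⟩
    refine (h1 _ hx c z hz rfl).2 v ⟨a, fun s hs => ?_⟩
    obtain ⟨i, rfl⟩ := hall s hs
    exact ha i
  · intro c z hz hx c' z' hz' hx' ⟨a, ha⟩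
    refine h2 _ hx _ hx' c z hz rfl c' z' hz' rfl ⟨a, fun s hs => ?_⟩
    obtain ⟨i, rfl⟩ := hall s hs
    exact ha i

/-- Two sections separate two points if their determinant is not `0`. -/
theorem sep_pair {m : ℕ} {s t : κ → Cn n → ℂ} (hs : IsSect e m s) (ht : IsSect e m t)
    {c c' : κ} {x x' : M} (hx : x ∈ (e c).source) (hx' : x' ∈ (e c').source)
    (hD : s c (e c x) * t c' (e c' x') - s c' (e c' x') * t c (e c x) ≠ 0) :
    Sep e {s, t} x x' := by
  intro d z hz hzx d' z' hz' hzx' ⟨a, ha⟩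
  subst hzx hzx'
  exfalso
  apply hD
  have e1 := hs.compat d c z ⟨hz, hx⟩
  have e2 := ht.compat d c z ⟨hz, hx⟩
  have e3 := hs.compat d' c' z' ⟨hz', hx'⟩
  have e4 := ht.compat d' c' z' ⟨hz', hx'⟩
  have a1 := ha s (by simp)
  have a2 := ha t (by simp)
  change s c (tr e d c z) * t c' (tr e d' c' z') - s c' (tr e d' c' z') * t c (tr e d c z) = 0
  rw [e1, e2, e3, e4, a1, a2]
  ring

/-- the values of a section in a chart are continuous -/
theorem IsSect.tendsto {m : ℕ} {s : κ → Cn n → ℂ} (hs : IsSect e m s) {c : κ} {p : M}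
    (hp : p ∈ (e c).source) : Tendsto (fun x => s c (e c x)) (𝓝 p) (𝓝 (s c (e c p))) :=
  ContinuousAt.comp (f := fun x => e c x) (g := s c)
    ((hs.holo c).1.continuousOn.continuousAt
      ((e c).open_target.mem_nhds ((e c).map_source hp))) ((e c).continuousAt hp)

/-- The determinant is not `0` for almost diagonal values. -/
theorem det_ne {a b c d : ℂ} (ha : ‖a - 1‖ ≤ 1 / 4) (hb : ‖b - 1‖ ≤ 1 / 4) (hc : ‖c‖ ≤ 1 / 4)
    (hd : ‖d‖ ≤ 1 / 4) : a * b - c * d ≠ 0 := by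
  intro h
  have h1 : ‖a‖ * ‖b‖ = ‖c‖ * ‖d‖ := by
    rw [← norm_mul, ← norm_mul, sub_eq_zero.1 h]
  have h2 := norm_sub_le a (a - 1)
  have h3 := norm_sub_le b (b - 1)
  rw [sub_sub_cancel, norm_one] at h2 h3
  have h4 : ‖c‖ * ‖d‖ ≤ 1 / 4 * (1 / 4) := mul_le_mul hc hd (norm_nonneg _) (by norm_num)
  have h5 : 3 / 4 * (3 / 4) ≤ ‖a‖ * ‖b‖ :=
    mul_le_mul (by linarith) (by linarith) (by norm_num) (norm_nonneg _)
  linarith

/-- Two sections with determinant `≠ 0` separate all nearby points. -/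
theorem sep_nhds {m : ℕ} {s t : κ → Cn n → ℂ} (hs : IsSect e m s) (ht : IsSect e m t)
    {c c' : κ} {p p' : M} (hp : p ∈ (e c).source) (hp' : p' ∈ (e c').source)
    (hD : s c (e c p) * t c' (e c' p') - s c' (e c' p') * t c (e c p) ≠ 0) :
    {q : M × M | Sep e {s, t} q.1 q.2} ∈ 𝓝 (p, p') := by
  have f1 : Tendsto (fun q : M × M => q.1) (𝓝 (p, p')) (𝓝 p) := continuousAt_fst
  have f2 : Tendsto (fun q : M × M => q.2) (𝓝 (p, p')) (𝓝 p') := continuousAt_snd
  have c1 : Tendsto (fun q : M × M => s c (e c q.1)) (𝓝 (p, p')) (𝓝 (s c (e c p))) :=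
    (hs.tendsto hp).comp f1
  have c2 : Tendsto (fun q : M × M => t c (e c q.1)) (𝓝 (p, p')) (𝓝 (t c (e c p))) :=
    (ht.tendsto hp).comp f1
  have c3 : Tendsto (fun q : M × M => s c' (e c' q.2)) (𝓝 (p, p')) (𝓝 (s c' (e c' p'))) :=
    (hs.tendsto hp').comp f2
  have c4 : Tendsto (fun q : M × M => t c' (e c' q.2)) (𝓝 (p, p')) (𝓝 (t c' (e c' p'))) :=
    (ht.tendsto hp').comp f2
  have hev := ((c1.mul c4).sub (c3.mul c2)).eventually_ne hD
  have hev1 : ∀ᶠ q : M × M in 𝓝 (p, p'), q.1 ∈ (e c).source :=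
    f1.eventually ((e c).open_source.mem_nhds hp)
  have hev2 : ∀ᶠ q : M × M in 𝓝 (p, p'), q.2 ∈ (e c').source :=
    f2.eventually ((e c').open_source.mem_nhds hp')
  filter_upwards [hev, hev1, hev2] with q hq hq1 hq2
  exact sep_pair hs ht hq1 hq2 hq

/-- A compact set is embedded by finitely many sections if there are sections with given jets and
the jets give local embeddings. -/
theorem exists_embed_of {m : ℕ} {K : Set M} (hK : IsCompact K) (Q : M → κ → Prop)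
    (hQ : ∀ p ∈ K, ∃ c, Q p c) (hQs : ∀ p c, Q p c → p ∈ (e c).source)
    (hjet : ∀ p c p' c', Q p c → Q p' c' → ∀ (a₀ : ℂ) (a : Fin n → ℂ) (δ : ℝ), 0 < δ →
      ∃ s, IsSect e m s ∧ ‖s c (e c p) - a₀‖ ≤ δ ∧ (∀ i, ‖dz i (s c) (e c p) - a i‖ ≤ δ) ∧
        (p ≠ p' → ‖s c' (e c' p')‖ ≤ δ))
    (hlocal : ∀ p c, p ∈ (e c).source → (∀ (a₀ : ℂ) (a : Fin n → ℂ) (δ : ℝ), 0 < δ →
      ∃ s, IsSect e m s ∧ ‖s c (e c p) - a₀‖ ≤ δ ∧ ∀ i, ‖dz i (s c) (e c p) - a i‖ ≤ δ) →
      ∃ (S : Set M) (s : Fin (n + 1) → κ → Cn n → ℂ), IsOpen S ∧ p ∈ S ∧ IsEmbK e S m s) :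
    ∃ (L : ℕ) (s : Fin (L + 1) → κ → Cn n → ℂ), IsEmbK e K m s := by
  classical
  have hloc : ∀ p ∈ K, ∃ (S : Set M) (A : Set (κ → Cn n → ℂ)), IsOpen S ∧ p ∈ S ∧ A.Finite ∧
      (∀ s ∈ A, IsSect e m s) ∧ (∀ x ∈ S, Loc e A x) ∧ ∀ x ∈ S, ∀ x' ∈ S, Sep e A x x' := by
    intro p hp
    obtain ⟨c, hW⟩ := hQ p hp
    obtain ⟨S, s, hS, hpS, hs⟩ := hlocal p c (hQs p c hW) fun a₀ a δ hδ => by
      obtain ⟨s, h1, h2, h3, -⟩ := hjet p c p c hW hW a₀ a δ hδ
      exact ⟨s, h1, h2, h3⟩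
    refine ⟨S, range s, hS, hpS, finite_range s, ?_, ?_, ?_⟩
    · rintro _ ⟨i, rfl⟩
      exact hs.sect i
    · intro x hx c z hz hzx
      subst hzx
      obtain ⟨i, hi⟩ := hs.ne c z hz hx
      exact ⟨⟨s i, mem_range_self i, hi⟩, fun v ⟨a, ha⟩ =>
        hs.imm c z hz hx v ⟨a, fun i => ha _ (mem_range_self i)⟩⟩
    · intro x hx x' hx' c z hz hzx c' z' hz' hzx' ⟨a, ha⟩
      subst hzx hzx'
      exact hs.inj c z hz hx c' z' hz' hx' ⟨a, fun i => ha _ (mem_range_self i)⟩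
  obtain ⟨A₁, hA₁, hs₁, hl₁⟩ : ∃ A : Set (κ → Cn n → ℂ), A.Finite ∧
      (∀ s ∈ A, IsSect e m s) ∧ ∀ x ∈ K, Loc e A x := by
    refine hK.induction_on (p := fun T => ∃ A : Set (κ → Cn n → ℂ), A.Finite ∧
      (∀ s ∈ A, IsSect e m s) ∧ ∀ x ∈ T, Loc e A x) ?_ ?_ ?_ ?_
    · exact ⟨∅, finite_empty, by simp, by simp⟩
    · rintro T T' hT ⟨A, h1, h2, h3⟩
      exact ⟨A, h1, h2, fun x hx => h3 x (hT hx)⟩
    · rintro T T' ⟨A, h1, h2, h3⟩ ⟨A', h1', h2', h3'⟩
      refine ⟨A ∪ A', h1.union h1', ?_, ?_⟩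
      · rintro s (hs | hs)
        exacts [h2 s hs, h2' s hs]
      · rintro x (hx | hx)
        exacts [(h3 x hx).mono subset_union_left, (h3' x hx).mono subset_union_right]
    · intro p hp
      obtain ⟨S, A, hS, hpS, h1, h2, h3, -⟩ := hloc p hp
      exact ⟨S, mem_nhdsWithin_of_mem_nhds (hS.mem_nhds hpS), A, h1, h2, h3⟩
  obtain ⟨A₂, hA₂, hs₂, hl₂⟩ : ∃ A : Set (κ → Cn n → ℂ), A.Finite ∧
      (∀ s ∈ A, IsSect e m s) ∧ ∀ q ∈ K ×ˢ K, Sep e A q.1 q.2 := by
    refine (hK.prod hK).induction_on (p := fun T => ∃ A : Set (κ → Cn n → ℂ), A.Finite ∧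
      (∀ s ∈ A, IsSect e m s) ∧ ∀ q ∈ T, Sep e A q.1 q.2) ?_ ?_ ?_ ?_
    · exact ⟨∅, finite_empty, by simp, by simp⟩
    · rintro T T' hT ⟨A, h1, h2, h3⟩
      exact ⟨A, h1, h2, fun x hx => h3 x (hT hx)⟩
    · rintro T T' ⟨A, h1, h2, h3⟩ ⟨A', h1', h2', h3'⟩
      refine ⟨A ∪ A', h1.union h1', ?_, ?_⟩
      · rintro s (hs | hs)
        exacts [h2 s hs, h2' s hs]
      · rintro x (hx | hx)
        exacts [(h3 x hx).mono subset_union_left, (h3' x hx).mono subset_union_right]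
    · rintro ⟨p, p'⟩ ⟨hp, hp'⟩
      rcases eq_or_ne p p' with rfl | hne
      · obtain ⟨S, A, hS, hpS, h1, h2, -, h3⟩ := hloc p hp
        exact ⟨S ×ˢ S, mem_nhdsWithin_of_mem_nhds (prod_mem_nhds (hS.mem_nhds hpS)
          (hS.mem_nhds hpS)), A, h1, h2, fun q hq => h3 _ hq.1 _ hq.2⟩
      · obtain ⟨c, hW⟩ := hQ p hp
        obtain ⟨c', hW'⟩ := hQ p' hp'
        obtain ⟨s, hs, hs1, -, hs2⟩ := hjet p c p' c' hW hW' 1 0 (1 / 4) (by norm_num)
        obtain ⟨t, ht, ht1, -, ht2⟩ := hjet p' c' p c hW' hW 1 0 (1 / 4) (by norm_num)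
        have hD := det_ne hs1 ht1 (hs2 hne) (ht2 hne.symm)
        refine ⟨_, mem_nhdsWithin_of_mem_nhds
          (sep_nhds hs ht (hQs p c hW) (hQs p' c' hW') hD), {s, t},
          toFinite _, ?_, fun q hq => hq⟩
        rintro r (rfl | rfl)
        exacts [hs, ht]
  refine exists_family (hA₁.union hA₂) ?_ (fun x hx => (hl₁ x hx).mono subset_union_left)
    (fun x hx x' hx' => (hl₂ (x, x') ⟨hx, hx'⟩).mono subset_union_right)
  rintro s (hs | hs)
  exacts [hs₁ s hs, hs₂ s hs]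

end Sets

end Pool.Agent.KRFKo

end

section

/-!
# B5: functions with a logarithmic pole
-/

open scoped ContDiff Topology
open Set Filter Pool.Agent.ToricKRF Pool.Agent.ToricKRF.G Pool.Agent.KRFS Pool.Agent.KRFQ

namespace Pool.Agent.KRFKo

variable {M : Type} [TopologicalSpace M] [T2Space M] {n : ℕ} {κ : Type}
  {e : κ → OpenPartialHomeomorph M (Cn n)} {V : Set M} {w g : κ → Cn n → ℝ}

theorem exists_pole_of (h0 : L2D e V w (kf w)) {b C : ℝ} (hb : 0 < b) (hb1 : b ≤ 1) (hC : 0 ≤ C)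
    {C₁ : ℝ} (hC₁ : 0 ≤ C₁)
    (hl : ∀ (z₀ : Cn n) (ε : ℝ), 0 < ε → ∀ u z, -(C₁ * nsq u) ≤ levz (poleL (b / 2) b z₀ ε) u z)
    {p : M} {c : κ} (hc : GoodChart e (kf w) b C p c) :
    IsPole e V w ((n + 2) * (C₁ * C)) p c fun ε x => (n + 2) * poleM e b c p ε x where
  mem := hc.1
  smooth := fun ε hε c' => contDiffOn_const.mul (poleM_smooth h0 hb hc hε c')
  lev := fun ε hε _ c' z hz v => by
    have h1 := levz_poleM h0 hb hC hC₁ hl hc hε c' hz v
    have h2 : pb e c' (fun x => ((n : ℝ) + 2) * poleM e b c p ε x) =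
        fun x => ((n : ℝ) + 2) * pb e c' (poleM e b c p ε) x := rfl
    rw [h2, Bd.levz_const_mul _ (((poleM_smooth h0 hb hc hε c').contDiffAt
      ((e c').open_target.mem_nhds hz)).of_le two_le_infty)]
    have h3 : (0 : ℝ) ≤ (n : ℝ) + 2 := by positivity
    have h4 := mul_le_mul_of_nonneg_left h1 h3
    linarith
  le := fun ε hε _ x => by
    have h1 := poleM_nonpos (e := e) hb hb1 c p hε x
    have h2 : ((n : ℝ) + 2) * poleM e b c p ε x ≤ 0 :=
      mul_nonpos_of_nonneg_of_nonpos (by positivity) h1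
    refine h2.trans ?_
    positivity
  near := by
    refine ⟨b, -((n + 2) * Real.log (b / 2)), hb, fun ε hε _ z hz => ?_⟩
    have hz' := (hc.2 z hz.le).1
    refine ⟨hz', ?_⟩
    have h1 : pb e c (fun x => ((n : ℝ) + 2) * poleM e b c p ε x) z =
        ((n : ℝ) + 2) * poleL (b / 2) b (e c p) ε z := by
      rw [← pb_poleM hz']
      rfl
    rw [h1]
    have hs := arg_pos (e c p) z hε
    have h2 : poleL (b / 2) b (e c p) ε z ≤ Real.log (nsq (z - e c p) + ε ^ 2) -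
        Real.log (b / 2) := by
      unfold poleL
      rcases le_or_gt (nsq (z - e c p) + ε ^ 2) (b / 2) with h | h
      · rw [cutlog_of_le (by linarith) h]
        have := Real.log_nonpos (by positivity : (0 : ℝ) ≤ b / 2) (by linarith)
        linarith
      · refine (cutlog_nonpos (by linarith) hb1 hs).trans ?_
        rw [sub_nonneg]
        exact Real.log_le_log (by positivity) h.le
    have h3 : (0 : ℝ) ≤ (n : ℝ) + 2 := by positivity
    have h4 := mul_le_mul_of_nonneg_left h2 h3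
    linarith
  away := by
    intro S hS hpS
    have h1 : ∀ᶠ z in 𝓝 (e c p), z ∈ (e c).target ∧ (e c).symm z ∈ S := by
      have h2 : (e c).symm (e c p) ∈ S := by rwa [(e c).left_inv hc.1]
      have h3 := ((e c).symm.continuousAt ((e c).map_source hc.1)).eventually (hS.mem_nhds h2)
      filter_upwards [(e c).open_target.mem_nhds ((e c).map_source hc.1), h3] with z hz hz'
      exact ⟨hz, hz'⟩
    obtain ⟨ρ, hρ, hball⟩ := Metric.eventually_nhds_iff.1 h1
    refine ⟨-((n + 2) * min (Real.log (ρ ^ 2)) 0), fun ε hε _ x _ hx => ?_⟩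
    rw [neg_neg]
    refine mul_le_mul_of_nonneg_left ?_ (by positivity)
    by_cases hxs : x ∈ (e c).source
    · rw [poleM_of_mem hxs]
      have h2 : ρ ^ 2 ≤ nsq (e c x - e c p) + ε ^ 2 := by
        by_contra hlt
        push Not at hlt
        have h3 : nsq (e c x - e c p) < ρ ^ 2 := by
          have := sq_nonneg ε
          linarith
        have h4 : dist (e c x) (e c p) < ρ := by
          rw [dist_eq_norm]
          exact lt_of_pow_lt_pow_left₀ 2 hρ.le
            (lt_of_le_of_lt (Pool.Agent.KRFX.GA.norm_sq_le _) h3)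
        have h5 := (hball h4).2
        rw [(e c).left_inv hxs] at h5
        exact hx h5
      have hs := arg_pos (e c p) (e c x) hε
      rcases le_or_gt (nsq (e c x - e c p) + ε ^ 2) 1 with h | h
      · refine (min_le_left _ _).trans ?_
        exact (Real.log_le_log (by positivity) h2).trans (log_le_cutlog hs h)
      · refine (min_le_right _ _).trans ?_
        unfold poleL
        rw [cutlog_of_ge (by linarith) (hb1.trans h.le)]
    · rw [poleM_of_notMem hxs]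
      exact min_le_right _ _

/-- B5 -/
theorem exists_pole (h0 : L2D e V w (kf w)) {K : Set M} (hK : IsCompact K) (hKV : K ⊆ V) :
    ∃ C : ℝ, 0 ≤ C ∧ ∀ p ∈ K, ∃ c W, IsPole e V w C p c W := by
  obtain ⟨b, C, hb, hb1, hC, h⟩ := L2D.goodChart h0 hK hKV
  obtain ⟨C₁, hC₁, hl⟩ := exists_levz_poleL n (a := b / 2) (b := b) (by positivity) (by linarith)
  refine ⟨(n + 2) * (C₁ * C), by positivity, fun p hp => ?_⟩
  obtain ⟨c, hc⟩ := h p hp
  exact ⟨c, _, exists_pole_of h0 hb hb1 hC hC₁ hl hc⟩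

end Pool.Agent.KRFKo

end

section

/-!
# The isotropic pole with the exponent `n + 2`: values and first derivatives
-/

open scoped ContDiff Topology ENNReal
open Set MeasureTheory Filter Pool.Agent.ToricKRF Pool.Agent.ToricKRF.G Pool.Agent.KRFS
  Pool.Agent.KRFF Pool.Agent.KRFG Pool.Agent.KRFZ

namespace Pool.Agent.KRFKo

variable {n : ℕ}

/-- the volume of the unit ball -/
noncomputable def vol1 (n : ℕ) : ℝ := (volume {w : Cn n | nsq w ≤ 1}).toReal

theorem vol1_pos : 0 < vol1 n := Pole.volume_unit_pos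

/-- the constant of `jet_val` -/
noncomputable def jc (n : ℕ) (B o : ℝ) : ℝ := Real.exp B * 2 ^ (n + 2) * 2 ^ (2 * n) / (o * vol1 n)

theorem jc_pos {B o : ℝ} (ho : 0 < o) : 0 < jc n B o := by
  have := vol1_pos (n := n)
  unfold jc
  positivity

theorem nsq_add_le' {x y : Cn n} {r : ℝ} (hx : nsq x ≤ r ^ 2) (hy : nsq y ≤ r ^ 2) :
    nsq (x + y) ≤ (2 * r) ^ 2 := by
  have h2 : nsq (x + y) + nsq (x - y) = 2 * nsq x + 2 * nsq y := by
    simp only [nsq, Prod.fst_add, Prod.snd_add, Prod.fst_sub, Prod.snd_sub, add_dotProduct,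
      dotProduct_add, sub_dotProduct, dotProduct_sub]
    ring
  have h3 := Fb.nsq_nonneg (x - y)
  nlinarith

/-- values in the half ball -/
theorem jet_val {W Ω : Cn n → ℝ} {z₀ : Cn n} {ε B o : ℝ} (hε : 0 < ε) (ho : 0 < o)
    (hW : ∀ w, nsq (w - z₀) ≤ ε ^ 2 → W w ≤ (n + 2) * Real.log (nsq (w - z₀) + ε ^ 2) + B)
    (hΩ : ∀ w, nsq (w - z₀) ≤ ε ^ 2 → o ≤ Ω w) {V : Set (Cn n)} (hV : IsOpen V) {g : Cn n → ℂ}
    (hg : NF.HolC g V) (hsub : {w | nsq (w - z₀) ≤ ε ^ 2} ⊆ V) {I : ℝ} (hI : 0 ≤ I)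
    (hint : ∫⁻ w in {w : Cn n | nsq (w - z₀) ≤ ε ^ 2}, ENNReal.ofReal (‖g w‖ ^ 2 *
      (Ω w * Real.exp (-W w))) ≤ ENNReal.ofReal I)
    {z : Cn n} (hz : nsq (z - z₀) ≤ (ε / 2) ^ 2) :
    ‖g z‖ ^ 2 ≤ jc n B o * ε ^ 4 * I := by
  have hv : 0 < vol1 n := vol1_pos
  set K : ℝ := Real.exp B * (2 * ε ^ 2) ^ (n + 2) / o with hK
  have hKp : 0 < K := by positivity
  have hpt : ∀ w, nsq (w - z₀) ≤ ε ^ 2 → ‖g w‖ ^ 2 ≤ K * (‖g w‖ ^ 2 *
      (Ω w * Real.exp (-W w))) := by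
    intro w hw
    set q : ℝ := nsq (w - z₀) + ε ^ 2 with hq
    have hq0 : 0 < q := by
      have := Fb.nsq_nonneg (w - z₀)
      positivity
    have hq1 : q ≤ 2 * ε ^ 2 := by
      rw [hq]
      linarith
    have h4 : Real.exp (-B) * (q ^ (n + 2))⁻¹ ≤ Real.exp (-W w) := by
      have h5 : Real.exp (-B) * (q ^ (n + 2))⁻¹ = Real.exp (-((n + 2) * Real.log q + B)) := by
        rw [neg_add, Real.exp_add, show -((n + 2 : ℝ) * Real.log q) = -(((n + 2 : ℕ) : ℝ) *
          Real.log q) by push_cast; ring, Real.exp_neg ((((n + 2 : ℕ) : ℝ)) * _),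
          Real.exp_nat_mul, Real.exp_log hq0, mul_comm]
      rw [h5]
      exact Real.exp_le_exp.2 (by linarith [hW w hw])
    have h3 : 1 ≤ K * (Ω w * Real.exp (-W w)) := by
      have h5 : ((2 * ε ^ 2) ^ (n + 2))⁻¹ ≤ (q ^ (n + 2))⁻¹ := by
        gcongr
      have h6 : K * (o * (Real.exp (-B) * ((2 * ε ^ 2) ^ (n + 2))⁻¹)) = 1 := by
        rw [hK, Real.exp_neg]
        have : Real.exp B ≠ 0 := (Real.exp_pos B).ne'
        field_simp
      rw [← h6]
      have h7 := hΩ w hw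
      have h8 : Real.exp (-B) * ((2 * ε ^ 2) ^ (n + 2))⁻¹ ≤ Real.exp (-W w) :=
        (mul_le_mul_of_nonneg_left h5 (Real.exp_pos _).le).trans h4
      have h9 : (0 : ℝ) ≤ Real.exp (-B) * ((2 * ε ^ 2) ^ (n + 2))⁻¹ := by positivity
      exact mul_le_mul_of_nonneg_left (mul_le_mul h7 h8 h9 (ho.le.trans h7)) hKp.le
    calc ‖g w‖ ^ 2 = ‖g w‖ ^ 2 * 1 := (mul_one _).symm
      _ ≤ ‖g w‖ ^ 2 * (K * (Ω w * Real.exp (-W w))) :=
        mul_le_mul_of_nonneg_left h3 (sq_nonneg _)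
      _ = _ := by ring
  have h1 : ∫⁻ w in {w : Cn n | nsq (w - z₀) ≤ ε ^ 2}, ENNReal.ofReal (‖g w‖ ^ 2) ≤
      ENNReal.ofReal (K * I) := by
    calc ∫⁻ w in {w : Cn n | nsq (w - z₀) ≤ ε ^ 2}, ENNReal.ofReal (‖g w‖ ^ 2) ≤
        ∫⁻ w in {w : Cn n | nsq (w - z₀) ≤ ε ^ 2}, ENNReal.ofReal K * ENNReal.ofReal (‖g w‖ ^ 2 *
          (Ω w * Real.exp (-W w))) := by
          refine setLIntegral_mono' (Pool.Agent.KRFZ.HM.isCompact_ball z₀ ε).measurableSet fun w hw => ?_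
          rw [← ENNReal.ofReal_mul hKp.le]
          exact ENNReal.ofReal_le_ofReal (hpt w hw)
      _ = ENNReal.ofReal K * ∫⁻ w in {w : Cn n | nsq (w - z₀) ≤ ε ^ 2}, ENNReal.ofReal
          (‖g w‖ ^ 2 * (Ω w * Real.exp (-W w))) := lintegral_const_mul' _ _ ENNReal.ofReal_ne_top
      _ ≤ ENNReal.ofReal K * ENNReal.ofReal I := mul_le_mul_right hint _
      _ = ENNReal.ofReal (K * I) := (ENNReal.ofReal_mul hKp.le).symm
  have hsub2 : {w | nsq (w - z) ≤ (ε / 2) ^ 2} ⊆ {w : Cn n | nsq (w - z₀) ≤ ε ^ 2} := by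
    intro w hw
    have h2 := nsq_add_le' (x := w - z) (y := z - z₀) hw hz
    rw [sub_add_sub_cancel, show (2 * (ε / 2)) = ε by ring] at h2
    exact h2
  have h1' : ∫⁻ w in {w : Cn n | nsq (w - z) ≤ (ε / 2) ^ 2}, ENNReal.ofReal (‖g w‖ ^ 2) ≤
      ENNReal.ofReal (K * I) := (lintegral_mono_set hsub2).trans h1
  have h2 := Pool.Agent.KRFZ.HM.mean_sq_lint hV hg (half_pos hε) (hsub2.trans hsub) (by positivity) h1'
  rw [← vol1] at h2
  have hεn : 0 < (ε / 2) ^ (2 * n) := by positivity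
  have h3 : ‖g z‖ ^ 2 ≤ K * I / ((ε / 2) ^ (2 * n) * vol1 n) := by
    rw [le_div_iff₀ (by positivity)]
    linarith
  refine h3.trans (le_of_eq ?_)
  rw [hK, jc, mul_pow, div_pow, show (ε ^ 2) ^ (n + 2) = ε ^ (2 * n) * ε ^ 4 by
    rw [← pow_mul]; ring]
  field_simp

theorem nsq_lineL (v : Cn n) (ζ : ℂ) : nsq (lineL v ζ) = ‖ζ‖ ^ 2 * nsq v := by
  rw [lineL_apply, ← Complex.normSq_eq_norm_sq, Complex.normSq_apply]
  simp only [nsq, J, Prod.fst_add, Prod.snd_add, Prod.smul_fst, Prod.smul_snd, smul_neg,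
    add_dotProduct, dotProduct_add, smul_dotProduct, dotProduct_smul, smul_eq_mul,
    neg_dotProduct, dotProduct_neg, dotProduct_comm v.2 v.1]
  ring

/-- derivatives at the centre -/
theorem jet_der {z₀ : Cn n} {ε A : ℝ} (hε : 0 < ε) (hA : 0 ≤ A) {V : Set (Cn n)} (hV : IsOpen V)
    {g : Cn n → ℂ} (hg : NF.HolC g V) (hsub : {w | nsq (w - z₀) ≤ (ε / 2) ^ 2} ⊆ V)
    (hval : ∀ z, nsq (z - z₀) ≤ (ε / 2) ^ 2 → ‖g z‖ ^ 2 ≤ A) (v : Cn n) :
    ‖fderiv ℝ g z₀ v‖ ^ 2 ≤ A * (4 / ε ^ 2) * nsq v := by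
  by_cases hv : v = 0
  · rw [hv, map_zero, norm_zero]
    have := Fb.nsq_nonneg (0 : Cn n)
    rw [zero_pow two_ne_zero]
    exact mul_nonneg (mul_nonneg hA (by positivity)) this
  have hnv : 0 < nsq v := lt_of_le_of_ne (Fb.nsq_nonneg v) fun h =>
    hv (Pool.Agent.KRFX.NC.nsq_eq_zero.1 h.symm)
  have hsv : 0 < √(nsq v) := Real.sqrt_pos.2 hnv
  set R : ℝ := ε / (2 * √(nsq v)) with hR
  have hR0 : 0 < R := by positivity
  have hball : ∀ ζ : ℂ, ‖ζ‖ ≤ R → nsq (line z₀ v ζ - z₀) ≤ (ε / 2) ^ 2 := by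
    intro ζ hζ
    rw [line_eq, add_sub_cancel_left, nsq_lineL]
    have h1 : ‖ζ‖ ^ 2 ≤ R ^ 2 := pow_le_pow_left₀ (norm_nonneg _) hζ 2
    have h2 : R ^ 2 * nsq v = (ε / 2) ^ 2 := by
      rw [hR, div_pow, mul_pow, Real.sq_sqrt hnv.le]
      field_simp
    rw [← h2]
    exact mul_le_mul_of_nonneg_right h1 hnv.le
  have hd := Pool.Agent.KRFH.AsubN.diff_line hV hg z₀ v
  have hcl : DiffContOnCl ℂ (fun ζ => g (line z₀ v ζ)) (Metric.ball 0 R) := by
    refine DifferentiableOn.diffContOnCl (hd.mono ?_)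
    intro ζ hζ
    rw [closure_ball _ hR0.ne'] at hζ
    exact hsub (hball ζ (by simpa using hζ))
  have hb : ∀ ζ ∈ Metric.sphere (0 : ℂ) R, ‖g (line z₀ v ζ)‖ ≤ √A := by
    intro ζ hζ
    exact Real.le_sqrt_of_sq_le (hval _ (hball ζ (by simpa using (le_of_eq hζ))))
  have h1 := Complex.norm_deriv_le_of_forall_mem_sphere_norm_le hR0 hcl hb
  have hz₀V : z₀ ∈ V := hsub (by
    change nsq (z₀ - z₀) ≤ _
    rw [sub_self, Pool.Agent.KRFX.NC.nsq_eq_zero.2 rfl]
    positivity)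
  have h2 : deriv (fun ζ => g (line z₀ v ζ)) 0 = fderiv ℝ g z₀ v := by
    have h3 : HasFDerivAt g (fderiv ℝ g z₀) (line z₀ v 0) := by
      rw [line_zero]
      exact (NF.diffAt hV hg.1 hz₀V).hasFDerivAt
    have h4 := h3.comp 0 (hasFDerivAt_line z₀ v 0)
    have h0 : (0 : ℂ) ∈ line z₀ v ⁻¹' V := by
      change line z₀ v 0 ∈ V
      rw [line_zero]
      exact hz₀V
    have h5 : DifferentiableAt ℂ (fun ζ => g (line z₀ v ζ)) 0 :=
      hd.differentiableAt ((hV.preimage (contDiff_line z₀ v).continuous).mem_nhds h0)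
    have h6 := h5.hasDerivAt.hasFDerivAt.restrictScalars ℝ
    have h7 := h6.unique h4
    have h8 := congrArg (fun L : ℂ →L[ℝ] ℂ => L 1) h7
    simpa [lineL_apply] using h8
  rw [h2] at h1
  calc ‖fderiv ℝ g z₀ v‖ ^ 2 ≤ (√A / R) ^ 2 := pow_le_pow_left₀ (norm_nonneg _) h1 2
    _ = A * (4 / ε ^ 2) * nsq v := by
      rw [div_pow, Real.sq_sqrt hA, hR, div_pow, mul_pow, Real.sq_sqrt hnv.le]
      field_simp
      norm_num

end Pool.Agent.KRFKo

end

section

/-!
# B6: sections with given values and first derivatives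
-/

open scoped ContDiff Topology ENNReal
open Set MeasureTheory Filter Pool.Agent.ToricKRF Pool.Agent.ToricKRF.G Pool.Agent.KRFS
  Pool.Agent.KRFF Pool.Agent.KRFQ

namespace Pool.Agent.KRFKo

section loc

variable {n : ℕ}

/-- the polynomial `a₀ + ∑ a_i (z - z₀)_i` -/
noncomputable def lin (z₀ : Cn n) (a₀ : ℂ) (a : Fin n → ℂ) (z : Cn n) : ℂ :=
  a₀ + ∑ i, a i * cc (z - z₀) i

theorem cc_sub' (x y : Cn n) (i : Fin n) : cc (x - y) i = cc x i - cc y i := by
  apply Complex.ext <;> simp [cc]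

theorem holC_lin (z₀ : Cn n) (a₀ : ℂ) (a : Fin n → ℂ) : NF.HolC (lin z₀ a₀ a) univ := by
  refine (NF.HolC.const a₀ univ).add isOpen_univ (NF.HolC.sum _ isOpen_univ fun i =>
    (NF.HolC.const (a i) univ).mul isOpen_univ ?_)
  have h1 : (fun z : Cn n => cc (z - z₀) i) = fun z => cc z i + -cc z₀ i := by
    funext z
    rw [cc_sub', sub_eq_add_neg]
  rw [h1]
  exact (Pool.Agent.KRFX.NC.holC_cc i).add isOpen_univ (NF.HolC.const _ univ)

theorem contDiff_lin (z₀ : Cn n) (a₀ : ℂ) (a : Fin n → ℂ) : ContDiff ℝ ∞ (lin z₀ a₀ a) :=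
  contDiffOn_univ.1 (holC_lin z₀ a₀ a).1

theorem lin_self (z₀ : Cn n) (a₀ : ℂ) (a : Fin n → ℂ) : lin z₀ a₀ a z₀ = a₀ := by
  have h1 : ∀ i, cc (z₀ - z₀) i = 0 := by
    intro i
    rw [cc_sub', sub_self]
  simp only [lin, h1, mul_zero, Finset.sum_const_zero, add_zero]

theorem dz_holC {h : Cn n → ℂ} {S : Set (Cn n)} (hh : NF.HolC h S) {z : Cn n} (hz : z ∈ S)
    (k : Fin n) : dz k h z = fderiv ℝ h z (eR k) := by
  have h1 := hh.2 z hz (eR k)
  rw [J_eR] at h1
  rw [dz, h1, ← mul_assoc, Complex.I_mul_I]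
  ring

theorem dz_lin (z₀ : Cn n) (a₀ : ℂ) (a : Fin n → ℂ) (k : Fin n) (z : Cn n) :
    dz k (lin z₀ a₀ a) z = a k := by
  rw [dz_holC (holC_lin z₀ a₀ a) (mem_univ z)]
  have h1 : HasDerivAt (fun t : ℝ => lin z₀ a₀ a (z + t • eR k))
      (fderiv ℝ (lin z₀ a₀ a) z (eR k)) 0 := by
    have h2 : HasFDerivAt (lin z₀ a₀ a) (fderiv ℝ (lin z₀ a₀ a) z) (z + (0 : ℝ) • eR k) := by
      rw [zero_smul, add_zero]
      exact ((contDiff_lin z₀ a₀ a).differentiable (by simp) z).hasFDerivAt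
    have h3 : HasDerivAt (fun t : ℝ => z + t • eR k) (eR k) 0 := by
      simpa using ((hasDerivAt_id (0 : ℝ)).smul_const (eR k)).const_add z
    exact h2.comp_hasDerivAt 0 h3
  have h4 : (fun t : ℝ => lin z₀ a₀ a (z + t • eR k)) = fun t : ℝ => lin z₀ a₀ a z +
      (t : ℂ) * a k := by
    funext t
    simp only [lin]
    have h5 : ∀ i, cc (z + t • eR k - z₀) i = cc (z - z₀) i + if i = k then (t : ℂ) else 0 := by
      intro i
      by_cases hi : i = k
      · subst hi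
        apply Complex.ext <;> simp [cc, eR] ; ring
      · apply Complex.ext <;> simp [cc, eR, hi]
    simp only [h5, mul_add, Finset.sum_add_distrib]
    simp only [mul_ite, mul_zero, Finset.sum_ite_eq', Finset.mem_univ, if_true]
    ring
  rw [h4] at h1
  have h5 : HasDerivAt (fun t : ℝ => lin z₀ a₀ a z + (t : ℂ) * a k) (1 * a k) 0 := by
    have h6 : HasDerivAt (fun t : ℝ => (t : ℂ)) 1 0 := by
      have h7 := (hasDerivAt_id (0 : ℝ)).ofReal_comp
      rw [Complex.ofReal_one] at h7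
      exact h7
    exact (h6.mul_const (a k)).const_add _
  rw [one_mul] at h5
  exact h1.unique h5

theorem nsq_eR' (k : Fin n) : nsq (eR k) = 1 := by
  simp [nsq, eR]

/-- Cauchy-Schwarz -/
theorem norm_sum_sq_le (b : Fin n → ℂ) (v : Cn n) :
    ‖∑ j, b j * (starRingEnd ℂ) (cc v j)‖ ^ 2 ≤ (∑ j, ‖b j‖ ^ 2) * nsq v := by
  have h1 : ‖∑ j, b j * (starRingEnd ℂ) (cc v j)‖ ≤ ∑ j, ‖b j‖ * ‖cc v j‖ := by
    refine (norm_sum_le _ _).trans (le_of_eq (Finset.sum_congr rfl fun j _ => ?_))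
    rw [norm_mul, RCLike.norm_conj]
  have h2 := Finset.sum_mul_sq_le_sq_mul_sq Finset.univ (fun j => ‖b j‖) (fun j => ‖cc v j‖)
  have h3 : nsq v = ∑ j, ‖cc v j‖ ^ 2 := by
    exact Pool.Agent.KRFG.NK.nsq_eq_sum v
  rw [h3]
  exact (pow_le_pow_left₀ (norm_nonneg _) h1 2).trans h2

/-- the polynomial `lin` with a cut-off -/
theorem exists_cut (z₀ : Cn n) {R : ℝ} (hR : 0 < R) (a₀ : ℂ) (a : Fin n → ℂ) :
    ∃ u : Cn n → ℂ, ContDiff ℝ ∞ u ∧ HasCompactSupport u ∧ tsupport u ⊆ Metric.closedBall z₀ R ∧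
      ∀ z ∈ Metric.ball z₀ (R / 2), u z = lin z₀ a₀ a z := by
  let f : ContDiffBump z₀ := ⟨R / 2, R, by positivity, by linarith⟩
  have hsub : tsupport (fun z => ((f z : ℝ) : ℂ) * lin z₀ a₀ a z) ⊆ Metric.closedBall z₀ R := by
    refine (tsupport_mul_subset_left).trans ?_
    refine closure_minimal ?_ Metric.isClosed_closedBall
    intro z hz
    by_contra hz'
    refine hz ?_
    have h1 : R ≤ dist z z₀ := by
      rw [Metric.mem_closedBall, not_le] at hz'
      exact hz'.le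
    have h2 : f z = 0 := f.zero_of_le_dist h1
    change ((f z : ℝ) : ℂ) = 0
    rw [h2, Complex.ofReal_zero]
  refine ⟨fun z => ((f z : ℝ) : ℂ) * lin z₀ a₀ a z, ?_, ?_, hsub, ?_⟩
  · exact (Complex.ofRealCLM.contDiff.comp f.contDiff).mul (contDiff_lin z₀ a₀ a)
  · exact HasCompactSupport.of_support_subset_isCompact (isCompact_closedBall z₀ R)
      ((subset_tsupport _).trans hsub)
  · intro z hz
    have h1 : f z = 1 := f.one_of_mem_closedBall (Metric.ball_subset_closedBall hz)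
    change ((f z : ℝ) : ℂ) * lin z₀ a₀ a z = _
    rw [h1, Complex.ofReal_one, one_mul]

end loc

section glob

variable {M : Type} [TopologicalSpace M] {n : ℕ} {κ : Type}
  {e : κ → OpenPartialHomeomorph M (Cn n)} {V : Set M} {w : κ → Cn n → ℝ}

theorem exists_loc (h0 : L2D e V w (kf w)) {p : M} {c : κ} (hp : p ∈ (e c).source) :
    ∃ R C₂ o : ℝ, 0 < R ∧ 0 ≤ C₂ ∧ 0 < o ∧ ∀ z ∈ Metric.closedBall (e c p) R,
      z ∈ (e c).target ∧ o ≤ w c z ∧ ∀ v, nsq v ≤ C₂ * levz (kf w c) v z := by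
  have hz₀ : e c p ∈ (e c).target := (e c).map_source hp
  have hsm : ContDiffOn ℝ ∞ (fun x : Cn n => nsq x) (e c).target :=
    Pool.Agent.KRFX.NC.contDiff_nsq.contDiffOn
  obtain ⟨C, hC, hev⟩ := Bd.levz_le_local (e c).open_target hsm (h0.g_smooth c) hz₀
    (fun x hx u hu => h0.g_pos c x hx u hu)
  have hw0 := h0.w_pos c _ hz₀
  have hcw : ContinuousAt (w c) (e c p) :=
    (h0.w_smooth c).continuousOn.continuousAt ((e c).open_target.mem_nhds hz₀)
  have hev2 : ∀ᶠ x in 𝓝 (e c p), w c (e c p) / 2 < w c x :=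
    hcw.eventually (isOpen_Ioi.mem_nhds (by
      change w c (e c p) / 2 < w c (e c p)
      linarith))
  have hev3 : ∀ᶠ x in 𝓝 (e c p), x ∈ (e c).target ∧ w c (e c p) / 2 ≤ w c x ∧
      ∀ v, nsq v ≤ C * levz (kf w c) v x := by
    filter_upwards [hev, hev2, (e c).open_target.mem_nhds hz₀] with x h1 h2 h3
    refine ⟨h3, h2.le, fun v => ?_⟩
    have := h1 v
    rwa [show (fun x : Cn n => nsq x) = nsq from rfl, Pool.Agent.KRFF.Gap.levz_nsq'] at this
  obtain ⟨ρ, hρ, hball⟩ := Metric.eventually_nhds_iff.1 hev3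
  refine ⟨ρ / 2, C, w c (e c p) / 2, by positivity, hC, by positivity, fun z hz => ?_⟩
  refine hball ?_
  rw [Metric.mem_closedBall] at hz
  linarith

theorem dist_le_of_nsq {z z₀ : Cn n} {ε : ℝ} (hε : 0 ≤ ε) (h : nsq (z - z₀) ≤ ε ^ 2) :
    dist z z₀ ≤ ε := by
  rw [dist_eq_norm]
  exact le_of_sq_le_sq ((Pool.Agent.KRFX.GA.norm_sq_le _).trans h) hε

theorem IsPole.est (h0 : L2D e V w (kf w)) {C : ℝ} {p : M} {c : κ} {W : ℝ → M → ℝ}
    (hW : IsPole e V w C p c W) {W₂ : ℝ → M → ℝ} {C₂ : ℝ}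
    (hW₂ : ∀ ε, 0 < ε → ε ≤ 1 → ∀ x, W₂ ε x ≤ C₂) (m : ℕ) {O : Set (Cn n)} (hO : IsOpen O)
    (hpO : e c p ∈ O) :
    ∃ A ε₀ : ℝ, 0 < A ∧ 0 < ε₀ ∧ ε₀ ≤ 1 ∧ ∀ ε, 0 < ε → ε ≤ ε₀ → ∀ I : ℝ, 0 ≤ I →
      ∀ g : Cn n → ℂ, NF.HolC g O →
      ∫⁻ z in O, ENNReal.ofReal (‖g z‖ ^ 2 * w c z ^ (m + 1) *
        Real.exp (-pb e c (fun x => W ε x + W₂ ε x) z)) ≤ ENNReal.ofReal I →
      ‖g (e c p)‖ ^ 2 ≤ A * ε ^ 4 * I ∧
        ∀ v, ‖fderiv ℝ g (e c p) v‖ ^ 2 ≤ A * ε ^ 2 * I * nsq v := by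
  obtain ⟨R, _, o, hR, _, ho, hloc⟩ := exists_loc h0 hW.mem
  obtain ⟨r, C', hr, hnear⟩ := hW.near
  obtain ⟨R₂, hR₂, hball⟩ := Metric.isOpen_iff.1 hO _ hpO
  have hsr : 0 < √r := Real.sqrt_pos.2 hr
  set ε₀ : ℝ := min (min 1 R) (min (R₂ / 2) (√r / 2)) with hε₀
  have hε₀0 : 0 < ε₀ := lt_min (lt_min one_pos hR) (lt_min (by positivity) (by positivity))
  have hj := jc_pos (n := n) (B := C' + C₂) (o := o ^ (m + 1)) (by positivity)
  refine ⟨4 * jc n (C' + C₂) (o ^ (m + 1)), ε₀, by positivity, hε₀0,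
    (min_le_left _ _).trans (min_le_left _ _), ?_⟩
  intro ε hε hεε I hI g hg hint
  have he1 : ε ≤ 1 := hεε.trans ((min_le_left _ _).trans (min_le_left _ _))
  have heR : ε ≤ R := hεε.trans ((min_le_left _ _).trans (min_le_right _ _))
  have heR₂ : ε < R₂ := by
    have := hεε.trans ((min_le_right _ _).trans (min_le_left _ _))
    linarith
  have her : ε ^ 2 < r := by
    have h1 := hεε.trans ((min_le_right _ _).trans (min_le_right _ _))
    have h2 : ε < √r := by linarith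
    have h3 := pow_lt_pow_left₀ h2 hε.le two_ne_zero
    rwa [Real.sq_sqrt hr.le] at h3
  have hsub : {z | nsq (z - e c p) ≤ ε ^ 2} ⊆ O := fun z hz => hball (by
    rw [Metric.mem_ball]
    exact lt_of_le_of_lt (dist_le_of_nsq hε.le hz) heR₂)
  have hval : ∀ z, nsq (z - e c p) ≤ (ε / 2) ^ 2 →
      ‖g z‖ ^ 2 ≤ jc n (C' + C₂) (o ^ (m + 1)) * ε ^ 4 * I := by
    intro z hz
    refine jet_val (W := fun z => pb e c (fun x => W ε x + W₂ ε x) z)
      (Ω := fun z => w c z ^ (m + 1)) hε (by positivity) ?_ ?_ hO hg hsub hI ?_ hz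
    · intro x hx
      have h1 := (hnear ε hε he1 x (lt_of_le_of_lt hx her)).2
      have h2 := hW₂ ε hε he1 ((e c).symm x)
      have h3 : pb e c (fun x => W ε x + W₂ ε x) x = pb e c (W ε) x + W₂ ε ((e c).symm x) := rfl
      rw [h3]
      linarith
    · intro x hx
      have h1 := (hloc x (Metric.mem_closedBall.2 ((dist_le_of_nsq hε.le hx).trans heR))).2.1
      exact pow_le_pow_left₀ ho.le h1 _
    · refine le_trans ?_ hint
      refine (lintegral_mono_set hsub).trans (le_of_eq ?_)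
      simp only [mul_assoc]
  have hA : 0 ≤ jc n (C' + C₂) (o ^ (m + 1)) * ε ^ 4 * I :=
    mul_nonneg (mul_nonneg hj.le (by positivity)) hI
  constructor
  · have h1 := hval (e c p) (by
      rw [sub_self, Pool.Agent.KRFX.NC.nsq_eq_zero.2 rfl]
      positivity)
    linarith
  · intro v
    have hsub' : {z | nsq (z - e c p) ≤ (ε / 2) ^ 2} ⊆ O := by
      intro z hz
      have hz' : nsq (z - e c p) ≤ (ε / 2) ^ 2 := hz
      refine hsub ?_
      change nsq (z - e c p) ≤ ε ^ 2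
      nlinarith
    have h1 := jet_der hε hA hO hg hsub' hval v
    refine h1.trans (le_of_eq ?_)
    field_simp

theorem levz_kf_nonneg (h0 : L2D e V w (kf w)) {c : κ} {z : Cn n} (hz : z ∈ (e c).target)
    (v : Cn n) : 0 ≤ levz (kf w c) v z := by
  by_cases hv : v = 0
  · rw [hv, levz_zero_vec]
  · exact (h0.g_pos c z hz v hv).le

/-- B6: sections with given values and first derivatives at `p`, and small at `p'` -/
theorem exists_jet [T2Space M] (h0 : L2D e V w (kf w)) (hsec : HasSec e w) {C : ℝ} {p p' : M}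
    {c c' : κ} {W W' : ℝ → M → ℝ} (hW : IsPole e V w C p c W) (hW' : IsPole e V w C p' c' W')
    {m : ℕ} (hm : 2 * C + 1 ≤ m) (a₀ : ℂ) (a : Fin n → ℂ) {δ : ℝ} (hδ : 0 < δ) :
    ∃ s, IsSect e m s ∧ ‖s c (e c p) - a₀‖ ≤ δ ∧ (∀ i, ‖dz i (s c) (e c p) - a i‖ ≤ δ) ∧
      (p ≠ p' → ‖s c' (e c' p')‖ ≤ δ) := by
  obtain ⟨R₀, C₂, o, hR₀, hC₂, ho, hloc⟩ := exists_loc h0 hW.mem
  -- the radius
  obtain ⟨R, hR, hRR, hRp⟩ : ∃ R, 0 < R ∧ R ≤ R₀ ∧
      (p ≠ p' → p' ∉ (e c).symm '' Metric.closedBall (e c p) R) := by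
    by_cases hs : p' ∈ (e c).source
    · by_cases hpp : p = p'
      · exact ⟨R₀, hR₀, le_rfl, fun h => absurd hpp h⟩
      · have hne : e c p' ≠ e c p := fun h => hpp ((e c).injOn hW.mem hs h.symm)
        have hd : 0 < dist (e c p') (e c p) := dist_pos.2 hne
        refine ⟨min R₀ (dist (e c p') (e c p) / 2), lt_min hR₀ (by positivity),
          min_le_left _ _, fun _ => ?_⟩
        rintro ⟨z, hz, hzp⟩
        have hz1 : dist z (e c p) ≤ min R₀ (dist (e c p') (e c p) / 2) := hz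
        have hzt : z ∈ (e c).target := (hloc z (hz1.trans (min_le_left _ _))).1
        have h1 : e c p' = z := by rw [← hzp, (e c).right_inv hzt]
        have h2 := hz1.trans (min_le_right _ _)
        rw [h1] at hd h2
        linarith
    · refine ⟨R₀, hR₀, le_rfl, fun _ => ?_⟩
      rintro ⟨z, hz, hzp⟩
      exact hs (hzp ▸ (e c).map_target (hloc z hz).1)
  have hloc' : ∀ z ∈ Metric.closedBall (e c p) R, z ∈ (e c).target ∧ o ≤ w c z ∧
      ∀ v, nsq v ≤ C₂ * levz (kf w c) v z := fun z hz =>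
    hloc z (Metric.closedBall_subset_closedBall hRR hz)
  have hKt : Metric.closedBall (e c p) R ⊆ (e c).target := fun z hz => (hloc' z hz).1
  have hKc : IsCompact ((e c).symm '' Metric.closedBall (e c p) R) :=
    (isCompact_closedBall _ _).image_of_continuousOn ((e c).symm.continuousOn.mono hKt)
  -- the smooth section
  obtain ⟨u, hu, huc, hut, hul⟩ := exists_cut (e c p) hR a₀ a
  set B : Cn n → ℝ := fun z => C₂ * ∑ j, ‖dzb j u z‖ ^ 2 with hB
  have hBcont : Continuous B :=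
    continuous_const.mul (continuous_finsetSum _ fun j _ =>
      ((contDiff_dzb hu j).continuous.norm.pow 2))
  have hB0 : ∀ z, 0 ≤ B z := fun z => mul_nonneg hC₂ (Finset.sum_nonneg fun j _ => by positivity)
  have hBz : ∀ z, z ∉ tsupport u → B z = 0 := by
    intro z hz
    simp only [hB, dzb_of_notMem hz, norm_zero, ne_eq, OfNat.ofNat_ne_zero, not_false_eq_true,
      zero_pow, Finset.sum_const_zero, mul_zero]
  have hBt : tsupport B ⊆ Metric.closedBall (e c p) R := by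
    refine closure_minimal (fun z hz => ?_) Metric.isClosed_closedBall
    by_contra hz'
    exact hz (hBz z fun h => hz' (hut h))
  have hBc : HasCompactSupport B := HasCompactSupport.of_support_subset_isCompact
    (isCompact_closedBall (e c p) R) ((subset_tsupport _).trans hBt)
  have hBin : ∀ z ∈ Metric.ball (e c p) (R / 2), B z = 0 := by
    intro z hz
    have h1 : u =ᶠ[𝓝 z] lin (e c p) a₀ a := by
      filter_upwards [Metric.isOpen_ball.mem_nhds hz] with x hx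
      exact hul x hx
    have h2 : ∀ j, dzb j u z = 0 := fun j => by
      rw [dzb_congr h1]
      exact dzb_of_fderiv_J (fun v => (holC_lin (e c p) a₀ a).2 z (mem_univ z) v) j
    simp only [hB, h2, norm_zero, ne_eq, OfNat.ofNat_ne_zero, not_false_eq_true,
      zero_pow, Finset.sum_const_zero, mul_zero]
  have hBu : ∀ z ∈ (e c).target, ∀ v,
      ‖∑ j, dzb j u z * (starRingEnd ℂ) (cc v j)‖ ^ 2 ≤ B z * levz (kf w c) v z := by
    intro z hz v
    by_cases hzu : z ∈ tsupport u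
    · have h1 := (hloc' z (hut hzu)).2.2 v
      have h2 : 0 ≤ ∑ j, ‖dzb j u z‖ ^ 2 := Finset.sum_nonneg fun j _ => by positivity
      calc ‖∑ j, dzb j u z * (starRingEnd ℂ) (cc v j)‖ ^ 2 ≤
          (∑ j, ‖dzb j u z‖ ^ 2) * nsq v := norm_sum_sq_le _ v
        _ ≤ (∑ j, ‖dzb j u z‖ ^ 2) * (C₂ * levz (kf w c) v z) :=
          mul_le_mul_of_nonneg_left h1 h2
        _ = B z * levz (kf w c) v z := by
          simp only [hB]
          ring
    · simp only [dzb_of_notMem hzu, zero_mul, Finset.sum_const_zero, norm_zero, ne_eq,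
        OfNat.ofNat_ne_zero, not_false_eq_true, zero_pow]
      exact mul_nonneg (hB0 z) (levz_kf_nonneg h0 hz v)
  -- the bounds of the weight from below
  obtain ⟨D₁, hD₁⟩ := hW.away ((e c).symm '' Metric.ball (e c p) (R / 2))
    ((e c).symm.isOpen_image_of_subset_source Metric.isOpen_ball (by
      refine (Metric.ball_subset_closedBall.trans (Metric.closedBall_subset_closedBall ?_)).trans
        hKt
      linarith)) ⟨e c p, Metric.mem_ball_self (by positivity), (e c).left_inv hW.mem⟩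
  obtain ⟨D₂, hD₂⟩ : ∃ D₂ : ℝ, ∀ ε, 0 < ε → ε ≤ 1 → ∀ z ∈ Metric.closedBall (e c p) R,
      z ∉ Metric.ball (e c p) (R / 2) → -D₂ ≤ W' ε ((e c).symm z) := by
    by_cases hpp : p = p'
    · have hp' : p' ∈ (e c).symm '' Metric.ball (e c p) (R / 2) := by
        rw [← hpp]
        exact ⟨e c p, Metric.mem_ball_self (by positivity), (e c).left_inv hW.mem⟩
      have hsub : Metric.ball (e c p) (R / 2) ⊆ (e c).target := by
        refine (Metric.ball_subset_closedBall.trans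
          (Metric.closedBall_subset_closedBall ?_)).trans hKt
        linarith
      obtain ⟨D₂, hD₂⟩ := hW'.away _
        ((e c).symm.isOpen_image_of_subset_source Metric.isOpen_ball hsub) hp'
      refine ⟨D₂, fun ε hε hε1 z hz hz' => hD₂ ε hε hε1 _ (h0.sub c ((e c).map_target (hKt hz))) ?_⟩
      rintro ⟨x, hx, hxz⟩
      have : x = z := (e c).symm.injOn (hsub hx) (hKt hz) hxz
      exact hz' (this ▸ hx)
    · obtain ⟨D₂, hD₂⟩ := hW'.away _ hKc.isClosed.isOpen_compl (hRp hpp)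
      refine ⟨D₂, fun ε hε hε1 z hz _ => hD₂ ε hε hε1 _ (h0.sub c ((e c).map_target (hKt hz))) ?_⟩
      rw [mem_compl_iff, not_not]
      exact mem_image_of_mem _ hz
  -- the bound of the right side
  obtain ⟨C₃, hC₃⟩ := (isCompact_closedBall (e c p) R).exists_bound_of_continuousOn
    (f := fun z => B z * w c z ^ (m + 1) * Real.exp (D₁ + D₂))
    (((hBcont.continuousOn).mul (((h0.w_smooth c).continuousOn.mono hKt).pow _)).mul
      continuousOn_const)
  have hC₃0 : 0 ≤ C₃ := (norm_nonneg _).trans (hC₃ (e c p) (Metric.mem_closedBall_self hR.le))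
  set vol := volume (Metric.closedBall (e c p) R) with hvol
  have hvolt : vol ≠ ⊤ := (isCompact_closedBall (e c p) R).measure_lt_top.ne
  set I : ℝ := C₃ * vol.toReal with hI
  have hI0 : 0 ≤ I := mul_nonneg hC₃0 ENNReal.toReal_nonneg
  have hint : ∀ ε, 0 < ε → ε ≤ 1 → ∫⁻ z in (e c).target, ENNReal.ofReal
      (B z * w c z ^ (m + 1) * Real.exp (-pb e c (fun x => W ε x + W' ε x) z)) ≤
        ENNReal.ofReal I := by
    intro ε hε hε1
    calc _ ≤ ∫⁻ z in (e c).target,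
              (Metric.closedBall (e c p) R).indicator (fun _ => ENNReal.ofReal C₃) z := by
          refine setLIntegral_mono' (e c).open_target.measurableSet fun z hz => ?_
          by_cases hz1 : z ∈ Metric.closedBall (e c p) R
          · rw [indicator_of_mem hz1]
            refine ENNReal.ofReal_le_ofReal ?_
            by_cases hz2 : z ∈ Metric.ball (e c p) (R / 2)
            · rw [hBin z hz2, zero_mul, zero_mul]
              exact hC₃0
            · have h1 : -D₁ ≤ W ε ((e c).symm z) := by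
                refine hD₁ ε hε hε1 _ (h0.sub c ((e c).map_target hz)) ?_
                rintro ⟨x, hx, hxz⟩
                have hxt : x ∈ (e c).target := hKt
                  (Metric.closedBall_subset_closedBall (by linarith)
                    (Metric.ball_subset_closedBall hx))
                have : x = z := (e c).symm.injOn hxt hz hxz
                exact hz2 (this ▸ hx)
              have h2 := hD₂ ε hε hε1 z hz1 hz2
              have h3 := (le_abs_self _).trans (hC₃ z hz1)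
              refine le_trans ?_ h3
              have h4 : 0 ≤ B z * w c z ^ (m + 1) :=
                mul_nonneg (hB0 z) (pow_nonneg (h0.w_pos c z hz).le _)
              refine mul_le_mul_of_nonneg_left (Real.exp_le_exp.2 ?_) h4
              have h5 : pb e c (fun x => W ε x + W' ε x) z =
                  W ε ((e c).symm z) + W' ε ((e c).symm z) := rfl
              rw [h5]
              linarith
          · rw [indicator_of_notMem hz1, hBz z fun h => hz1 (hut h), zero_mul, zero_mul,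
              ENNReal.ofReal_zero]
      _ ≤ ∫⁻ z, (Metric.closedBall (e c p) R).indicator (fun _ => ENNReal.ofReal C₃) z :=
          setLIntegral_le_lintegral _ _
      _ = ENNReal.ofReal I := by
          rw [lintegral_indicator_const Metric.isClosed_closedBall.measurableSet, hI,
            ENNReal.ofReal_mul hC₃0, ENNReal.ofReal_toReal hvolt]
  -- the estimates at the two points
  have hball : e c p ∈ Metric.ball (e c p) (R / 2) := Metric.mem_ball_self (by positivity)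
  have hballt : Metric.ball (e c p) (R / 2) ⊆ (e c).target :=
    (Metric.ball_subset_closedBall.trans (Metric.closedBall_subset_closedBall (by
      linarith))).trans hKt
  obtain ⟨A, ε₀, hA, hε₀, hε₀1, hest⟩ := hW.est h0 hW'.le m Metric.isOpen_ball hball
  have hO' : IsOpen ((e c').target ∩ (e c').symm ⁻¹'
      ((e c).symm '' Metric.closedBall (e c p) R)ᶜ) :=
    (e c').symm.isOpen_inter_preimage hKc.isClosed.isOpen_compl
  obtain ⟨A', ε₀', hA', hε₀', hest'⟩ : ∃ A' ε₀' : ℝ, 0 < A' ∧ 0 < ε₀' ∧ (p ≠ p' →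
      ∀ ε, 0 < ε → ε ≤ ε₀' → ∀ I : ℝ, 0 ≤ I →
      ∀ g : Cn n → ℂ, NF.HolC g ((e c').target ∩ (e c').symm ⁻¹'
        ((e c).symm '' Metric.closedBall (e c p) R)ᶜ) →
      ∫⁻ z in (e c').target ∩ (e c').symm ⁻¹' ((e c).symm '' Metric.closedBall (e c p) R)ᶜ,
        ENNReal.ofReal (‖g z‖ ^ 2 * w c' z ^ (m + 1) *
        Real.exp (-pb e c' (fun x => W ε x + W' ε x) z)) ≤ ENNReal.ofReal I →
      ‖g (e c' p')‖ ^ 2 ≤ A' * ε ^ 4 * I) := by
    by_cases hpp : p = p'
    · exact ⟨1, 1, one_pos, one_pos, fun h => absurd hpp h⟩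
    · have hmem : e c' p' ∈ (e c').target ∩ (e c').symm ⁻¹'
          ((e c).symm '' Metric.closedBall (e c p) R)ᶜ := by
        refine ⟨(e c').map_source hW'.mem, ?_⟩
        rw [mem_preimage, (e c').left_inv hW'.mem]
        exact hRp hpp
      obtain ⟨A', ε₀', h1, h2, _, h3⟩ := hW'.est h0 hW.le m hO' hmem
      refine ⟨A', ε₀', h1, h2, fun _ ε hε hεε I hI g hg hgi => (h3 ε hε hεε I hI g hg ?_).1⟩
      have h4 : (fun x => W' ε x + W ε x) = fun x => W ε x + W' ε x := by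
        funext x
        exact add_comm _ _
      rw [h4]
      exact hgi
  -- the choice of `ε`
  set Q : ℝ := (A + A') * I + 1 with hQ
  have hQ0 : 0 < Q := by positivity
  set ε : ℝ := min (min ε₀ ε₀') (δ / √Q) with hεdef
  have hsQ : 0 < √Q := Real.sqrt_pos.2 hQ0
  have hε : 0 < ε := lt_min (lt_min hε₀ hε₀') (by positivity)
  have hεε₀ : ε ≤ ε₀ := (min_le_left _ _).trans (min_le_left _ _)
  have hεε₀' : ε ≤ ε₀' := (min_le_left _ _).trans (min_le_right _ _)
  have hε1 : ε ≤ 1 := hεε₀.trans hε₀1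
  have hεδ : (A + A') * ε ^ 2 * I ≤ δ ^ 2 := by
    have h1 : ε ^ 2 ≤ (δ / √Q) ^ 2 := pow_le_pow_left₀ hε.le (min_le_right _ _) 2
    rw [div_pow, Real.sq_sqrt hQ0.le] at h1
    have h2 : (A + A') * I ≤ Q := by linarith
    have h3 : 0 ≤ (A + A') * I := by positivity
    calc (A + A') * ε ^ 2 * I = (A + A') * I * ε ^ 2 := by ring
      _ ≤ Q * (δ ^ 2 / Q) := mul_le_mul h2 h1 (sq_nonneg _) hQ0.le
      _ = δ ^ 2 := by field_simp
  have hε4 : ε ^ 4 ≤ ε ^ 2 := pow_le_pow_of_le_one hε.le hε1 (by norm_num)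
  -- the section
  have hCm : 2 * C ≤ (m : ℝ) - 1 := by linarith
  have hsm : ∀ b, ContDiffOn ℝ ∞ (pb e b (fun x => W ε x + W' ε x)) (e b).target := fun b =>
    (hW.smooth ε hε b).add (hW'.smooth ε hε b)
  obtain ⟨s, hs, hs1, hs2⟩ := hsec m (fun x => W ε x + W' ε x) hsm (fun b z hz v => by
      have h1 := hW.lev ε hε hε1 b z hz v
      have h2 := hW'.lev ε hε hε1 b z hz v
      have h3 : levz (pb e b (fun x => W ε x + W' ε x)) v z =
          levz (pb e b (W ε)) v z + levz (pb e b (W' ε)) v z := by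
        refine Bd.levz_add (((hW.smooth ε hε b).contDiffAt
          ((e b).open_target.mem_nhds hz)).of_le two_le_infty) (((hW'.smooth ε hε b).contDiffAt
          ((e b).open_target.mem_nhds hz)).of_le two_le_infty) v
      have h4 := levz_kf_nonneg h0 hz v
      have h5 := mul_le_mul_of_nonneg_right hCm h4
      rw [h3]
      linarith) c u B hu huc (hut.trans hKt) hBcont hBc (hBt.trans hKt) hB0 hBu
  have hr := hint ε hε hε1
  have hgl : NF.HolC (fun z => lin (e c p) a₀ a z - s c z) (Metric.ball (e c p) (R / 2)) := by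
    refine ⟨(contDiff_lin _ _ _).contDiffOn.sub ((hs.holo c).1.mono hballt), fun z hz v => ?_⟩
    have h1 := NF.diffAt (e c).open_target (hs.holo c).1 (hballt hz)
    have h2 := (contDiff_lin (e c p) a₀ a).differentiable (by simp) z
    rw [fderiv_fun_sub h2 h1]
    simp only [sub_apply, (holC_lin (e c p) a₀ a).2 z (mem_univ z), (hs.holo c).2 z (hballt hz)]
    ring
  have hfin := hest ε hε hεε₀ I hI0 _ hgl (by
    refine le_trans ?_ (hs1.trans hr)
    refine le_trans (le_of_eq ?_) (lintegral_mono_set hballt)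
    refine setLIntegral_congr_fun Metric.isOpen_ball.measurableSet fun z hz => ?_
    simp only [hul z hz])
  refine ⟨s, hs, ?_, ?_, ?_⟩
  · have h1 := hfin.1
    simp only [lin_self] at h1
    rw [norm_sub_rev]
    refine le_of_sq_le_sq (h1.trans (le_trans ?_ hεδ)) hδ.le
    have h2 : A * ε ^ 4 * I ≤ A * ε ^ 2 * I :=
      mul_le_mul_of_nonneg_right (mul_le_mul_of_nonneg_left hε4 hA.le) hI0
    have h3 : 0 ≤ A' * ε ^ 2 * I := by positivity
    linarith
  · intro i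
    have h1 := hfin.2 (eR i)
    have h2 : fderiv ℝ (fun z => lin (e c p) a₀ a z - s c z) (e c p) (eR i) =
        a i - dz i (s c) (e c p) := by
      rw [← dz_holC hgl hball, dz_sub ((contDiff_lin (e c p) a₀ a).differentiable (by simp) _)
        (NF.diffAt (e c).open_target (hs.holo c).1 (hballt hball)), dz_lin]
    rw [h2, nsq_eR', mul_one] at h1
    rw [norm_sub_rev]
    refine le_of_sq_le_sq (h1.trans (le_trans ?_ hεδ)) hδ.le
    have h3 : 0 ≤ A' * ε ^ 2 * I := by positivity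
    linarith
  · intro hpp
    have hO't : (e c').target ∩ (e c').symm ⁻¹' ((e c).symm '' Metric.closedBall (e c p) R)ᶜ ⊆
        (e c').target := inter_subset_left
    have h1 := hest' hpp ε hε hεε₀' I hI0 (s c') ⟨(hs.holo c').1.mono hO't,
      fun z hz => (hs.holo c').2 z (hO't hz)⟩ ((hs2 c' _ hO' hO't fun z hz hzs hzu => hz.2
        ⟨e c ((e c').symm z), hut hzu, (e c).left_inv hzs⟩).trans hr)
    refine le_of_sq_le_sq (h1.trans (le_trans ?_ hεδ)) hδ.le
    have h2 : A' * ε ^ 4 * I ≤ A' * ε ^ 2 * I :=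
      mul_le_mul_of_nonneg_right (mul_le_mul_of_nonneg_left hε4 hA'.le) hI0
    have h3 : 0 ≤ A * ε ^ 2 * I := by positivity
    linarith

end glob

end Pool.Agent.KRFKo

end

section

/-!
# Sections that embed a compact set
-/

open scoped ContDiff Topology
open Set MeasureTheory Filter Pool.Agent.ToricKRF Pool.Agent.ToricKRF.G Pool.Agent.KRFS
  Pool.Agent.KRFF Pool.Agent.KRFQ Pool.Agent.KRFZ

namespace Pool.Agent.KRFKo

variable {M : Type} [TopologicalSpace M] [T2Space M] {n : ℕ} {κ : Type}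
  {e : κ → OpenPartialHomeomorph M (Cn n)} {V : Set M} {w : κ → Cn n → ℝ}

theorem exists_embed (h0 : L2D e V w (kf w)) (hsec : HasSec e w) {K : Set M}
    (hK : IsCompact K) (hKV : K ⊆ V) :
    ∃ (m L : ℕ) (s : Fin (L + 1) → κ → Cn n → ℂ), IsEmbK e K m s := by
  obtain ⟨C, hC, H⟩ := exists_pole h0 hK hKV
  obtain ⟨m, hm⟩ := exists_nat_ge (2 * C + 1)
  obtain ⟨L, s, hs⟩ := exists_embed_of (e := e) (m := m) hK (fun p c => ∃ W, IsPole e V w C p c W) H
    (fun p c ⟨W, hW⟩ => hW.mem)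
    (fun p c p' c' ⟨W, hW⟩ ⟨W', hW'⟩ a₀ a δ hδ => exists_jet h0 hsec hW hW' hm a₀ a hδ)
    (fun p c hp hj => exists_local h0 hp hj)
  exact ⟨m, L, s, hs⟩

end Pool.Agent.KRFKo

end
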